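import Pool.Agent.H75.CP.MaR
import Pool.Agent.H5.CP.MainB
import Pool.Agent.H5.CP.RFd

/-!
THE MAIN THEOREM.
`MaF_if` (⇐): for every finitely generated central `D`: `RatTrFin (Γ ⧸ D)`: `A = Additive D` is free of finite rank (exactly as in `RFd_D`, H5/CP/RFd.lean), `AX Γ (Γ ⧸ D) A` (`q = mk' D`), `MaR_main` with `FPcd_CD`, `FPcd_inf`.  `CenR_all`, then `D = center`; `FPcd_fin ℚ`.
`MaF_only` (⇒): `MainB_iff` gives `(center Γ).FG` and `MainA_iff`/`MainA_bd` : `BdT (Γ ⧸ center Γ)`: `s > 0` with `x^s ∈ center` for all `x` of finite order modulo the centre.  Let `z` be central, `z ≠ 1`, and suppose that for all primes `p` and all `k` there is `u` with `u^(p^k) = z`.  Take a prime `p ∤ s`.  `u^(p^k) ∈ center`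
 and `u^s ∈ center`, so `u ∈ center`.  So `z` is divisible by `p^k` in the finitely generated torsion-free abelian group `center Γ` (`FPcd_tf`) for all `k`, hence `z = 1` (free abelian group: coordinates).
`MaF_rf`: if `z = u_k^(p^k)` for all prime powers and `N` is a normal subgroup of finite index, the class of `z` in `Γ/N` has for each `p` order prime to `p`, so it is trivial.
-/

namespace Pool.Agent.H75.CP

open CategoryTheory CategoryTheory.Abelian CategoryTheory.Limits Pool.Agent.H5.CP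

theorem MaF_D {Γ : Type} [Group Γ] (h : IsTypeFP Γ)
    (hroot : ∀ z ∈ Subgroup.center Γ, z ≠ 1 →
      ∃ p k : ℕ, p.Prime ∧ ¬ ∃ u : Γ, u ^ (p ^ k) = z) (D : Subgroup Γ) [D.Normal]
    (hD : D ≤ Subgroup.center Γ) (hf : D.FG) : RatTrFin (Γ ⧸ D) := by
  let hcomm : CommGroup D :=
    { (inferInstance : Group D) with
      mul_comm := fun a b => Subtype.ext (Subgroup.mem_center_iff.1 (hD b.2) a.1) }
  have hfg : Group.FG D := (Group.fg_iff_subgroup_fg D).2 hf
  have hfg' : AddGroup.FG (Additive D) := GroupFG.iff_add_fg.1 hfg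
  have hfin : Module.Finite ℤ (Additive D) := Module.Finite.iff_addGroup_fg.2 hfg'
  have htf : IsAddTorsionFree (Additive D) := by
    refine ⟨fun n hn a b hab => ?_⟩
    have h1 : n • (a - b) = 0 := by
      rw [nsmul_sub]
      exact sub_eq_zero.2 hab
    have h2 : (((a - b).toMul : D) : Γ) ^ n = 1 := by
      have h3 : ((a - b).toMul : D) ^ n = 1 := by
        have := congrArg Additive.toMul h1
        simpa using this
      have := congrArg Subtype.val h3
      simpa using this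
    have h4 : (((a - b).toMul : D) : Γ) = 1 :=
      FPcd_tf h _ (isOfFinOrder_iff_pow_eq_one.2 ⟨n, Nat.pos_of_ne_zero hn, h2⟩)
    have h5 : ((a - b).toMul : D) = 1 := Subtype.ext h4
    have h6 : a - b = 0 := by
      apply Additive.toMul.injective
      exact h5
    exact sub_eq_zero.1 h6
  have hfree : Module.Free ℤ (Additive D) := inferInstance
  exact MaR_main (FPcd_CD h) (FPcd_inf h) hroot _ (Γ ⧸ D) (Additive D) rfl
    { q := QuotientGroup.mk' D
      j := { toFun := fun a => ((Additive.toMul (Multiplicative.toAdd a) : D) : Γ)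
             map_one' := rfl
             map_mul' := fun _ _ => rfl }
      surj := QuotientGroup.mk'_surjective D
      ker := fun x => by
        rw [QuotientGroup.mk'_apply, QuotientGroup.eq_one_iff]
        exact ⟨fun hx => ⟨Additive.ofMul ⟨x, hx⟩, rfl⟩, fun ⟨a, ha⟩ => ha ▸ (a.toMul).2⟩
      cent := fun a => hD (a.toMul).2
      inj := fun a b hab => Subtype.ext hab }

theorem MaF_if {Γ : Type} [Group Γ] (h : IsTypeFP Γ)
    (hroot : ∀ z ∈ Subgroup.center Γ, z ≠ 1 →
      ∃ p k : ℕ, p.Prime ∧ ¬ ∃ u : Γ, u ^ (p ^ k) = z) : InCP Γ := by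
  have hr' : ∀ (D : Subgroup Γ) [D.Normal], D ≤ Subgroup.center Γ → D.FG → RatTrFin (Γ ⧸ D) :=
    fun D _ hD hf => MaF_D h hroot D hD hf
  have hfg := CenR_all h hr'
  exact ⟨FPcd_fin ℚ h, hr' _ le_rfl hfg⟩

/-- no non-zero element of a finitely generated free abelian group is divisible by all `p^k` -/
theorem MaF_div {A : Type} [AddCommGroup A] [Module.Free ℤ A] [Module.Finite ℤ A] (p : ℕ)
    (hp : p.Prime) (a : A) (h : ∀ k : ℕ, ∃ b : A, (p ^ k) • b = a) : a = 0 := by
  have e := Module.Free.chooseBasis ℤ A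
  apply e.repr.injective
  ext i
  rw [map_zero, Finsupp.zero_apply]
  by_contra hne
  set n := e.repr a i with hn
  obtain ⟨b, hb⟩ := h n.natAbs
  have h1 : (p : ℤ) ^ n.natAbs ∣ n := by
    refine ⟨e.repr b i, ?_⟩
    have h0 : n = (p ^ n.natAbs) • e.repr b i := by
      rw [← Finsupp.smul_apply, ← map_nsmul, hb]
    rw [nsmul_eq_mul] at h0
    push_cast at h0
    exact h0
  have h2 : p ^ n.natAbs ∣ n.natAbs := by
    have := Int.natAbs_dvd_natAbs.2 h1
    simpa [Int.natAbs_pow] using this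
  have h3 := Nat.le_of_dvd (Int.natAbs_pos.2 hne) h2
  have h4 := Nat.lt_pow_self hp.one_lt (n := n.natAbs)
  omega

theorem MaF_only {Γ : Type} [Group Γ] (h : IsTypeFP Γ) (hc : InCP Γ) (z : Γ)
    (hz : z ∈ Subgroup.center Γ) (hz1 : z ≠ 1) :
    ∃ p k : ℕ, p.Prime ∧ ¬ ∃ u : Γ, u ^ (p ^ k) = z := by
  have hf : (Subgroup.center Γ).FG := CenR_center h hc.2
  obtain ⟨s, hs, hb⟩ := (MainA_bd h (Subgroup.center Γ) le_rfl hf).1 hc.2
  obtain ⟨p, hps, hp⟩ := Nat.exists_infinite_primes (s + 1)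
  by_contra hcon
  have hall : ∀ k : ℕ, ∃ u : Γ, u ^ (p ^ k) = z := by
    intro k
    by_contra hk
    exact hcon ⟨p, k, hp, hk⟩
  have hall' : ∀ k : ℕ, ∃ u : Subgroup.center Γ, u ^ (p ^ k) = (⟨z, hz⟩ : Subgroup.center Γ) := by
    intro k
    obtain ⟨u, hu⟩ := hall k
    have h1 : ((u : Γ) : Γ ⧸ Subgroup.center Γ) ^ (p ^ k) = 1 := by
      rw [← QuotientGroup.mk_pow, QuotientGroup.eq_one_iff, hu]
      exact hz
    have h2 : ((u : Γ) : Γ ⧸ Subgroup.center Γ) ^ s = 1 :=
      hb _ (isOfFinOrder_iff_pow_eq_one.2 ⟨p ^ k, pow_pos hp.pos k, h1⟩)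
    have h3 : Nat.Coprime (p ^ k) s := by
      refine Nat.Coprime.pow_left k ?_
      exact (Nat.Prime.coprime_iff_not_dvd hp).2 fun hd => by
        have := Nat.le_of_dvd hs hd
        omega
    have h4 : orderOf ((u : Γ) : Γ ⧸ Subgroup.center Γ) ∣ Nat.gcd (p ^ k) s :=
      Nat.dvd_gcd (orderOf_dvd_of_pow_eq_one h1) (orderOf_dvd_of_pow_eq_one h2)
    rw [h3] at h4
    have h5 := orderOf_eq_one_iff.1 (Nat.dvd_one.1 h4)
    rw [QuotientGroup.eq_one_iff] at h5
    exact ⟨⟨u, h5⟩, Subtype.ext (by simpa using hu)⟩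
  let hcomm : CommGroup (Subgroup.center Γ) :=
    { (inferInstance : Group (Subgroup.center Γ)) with
      mul_comm := fun a b => Subtype.ext (Subgroup.mem_center_iff.1 b.2 a.1) }
  have hfg : Group.FG (Subgroup.center Γ) := (Group.fg_iff_subgroup_fg _).2 hf
  have hfg' : AddGroup.FG (Additive (Subgroup.center Γ)) := GroupFG.iff_add_fg.1 hfg
  have hfin : Module.Finite ℤ (Additive (Subgroup.center Γ)) :=
    Module.Finite.iff_addGroup_fg.2 hfg'
  have htf : IsAddTorsionFree (Additive (Subgroup.center Γ)) := by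
    refine ⟨fun n hn a b hab => ?_⟩
    have h1 : n • (a - b) = 0 := by
      rw [nsmul_sub]
      exact sub_eq_zero.2 hab
    have h2 : (((a - b).toMul : Subgroup.center Γ) : Γ) ^ n = 1 := by
      have h3 : ((a - b).toMul : Subgroup.center Γ) ^ n = 1 := by
        have := congrArg Additive.toMul h1
        simpa using this
      have := congrArg Subtype.val h3
      simpa using this
    have h4 : (((a - b).toMul : Subgroup.center Γ) : Γ) = 1 :=
      FPcd_tf h _ (isOfFinOrder_iff_pow_eq_one.2 ⟨n, Nat.pos_of_ne_zero hn, h2⟩)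
    have h5 : ((a - b).toMul : Subgroup.center Γ) = 1 := Subtype.ext h4
    have h6 : a - b = 0 := by
      apply Additive.toMul.injective
      exact h5
    exact sub_eq_zero.1 h6
  have hfree : Module.Free ℤ (Additive (Subgroup.center Γ)) := inferInstance
  have hfin0 := MaF_div (A := Additive (Subgroup.center Γ)) p hp (Additive.ofMul ⟨z, hz⟩)
    (fun k => by
      obtain ⟨u, hu⟩ := hall' k
      exact ⟨Additive.ofMul u, congrArg Additive.ofMul hu⟩)
  have h6 : (⟨z, hz⟩ : Subgroup.center Γ) = 1 := congrArg Additive.toMul hfin0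
  exact hz1 (congrArg Subtype.val h6)

theorem MaF_rf {Γ : Type} [Group Γ] (z : Γ) (N : Subgroup Γ) [N.Normal] [N.FiniteIndex]
    (hz : z ∉ N) : ∃ p k : ℕ, p.Prime ∧ ¬ ∃ u : Γ, u ^ (p ^ k) = z := by
  by_contra hcon
  have hall : ∀ p k : ℕ, p.Prime → ∃ u : Γ, u ^ (p ^ k) = z := by
    intro p k hp
    by_contra hk
    exact hcon ⟨p, k, hp, hk⟩
  have hne : ((z : Γ) : Γ ⧸ N) ≠ 1 := by
    intro h
    exact hz ((QuotientGroup.eq_one_iff _).1 h)
  have hfin : Finite (Γ ⧸ N) := Subgroup.finite_quotient_of_finiteIndex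
  have hm : Nat.card (Γ ⧸ N) ≠ 0 := Nat.card_pos.ne'
  have hd : orderOf ((z : Γ) : Γ ⧸ N) ≠ 1 := fun h => hne (orderOf_eq_one_iff.1 h)
  obtain ⟨p, hp, hpd⟩ := Nat.exists_prime_and_dvd hd
  obtain ⟨a, m', hm', hmm⟩ := Nat.exists_eq_pow_mul_and_not_dvd hm p hp.ne_one
  obtain ⟨u, hu⟩ := hall p a hp
  have h1 : ((z : Γ) : Γ ⧸ N) ^ m' = 1 := by
    rw [← hu, QuotientGroup.mk_pow, ← pow_mul, ← hmm]
    exact pow_card_eq_one'
  exact hm' (hpd.trans (orderOf_dvd_of_pow_eq_one h1))

end Pool.Agent.H75.CP
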