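import Pool.Agent.H75.CP.Defs
import Pool.Agent.H5.CP.LesA

/-!
ROW KilC (60 lines).  Exponents in the long exact sequence of group cohomology (`groupCohomology.mapShortComplex₁_exact` etc., see
H5/CP/LesA.lean; `ShortComplex.moduleCat_exact_iff`).  For `x` in the middle of an exact sequence `P → Q → R` of modules, if `b` kills `R` then `b x`
comes from `P`, and if `a` kills `P` then `a b x = 0`.
-/

namespace Pool.Agent.H75.CP

open CategoryTheory CategoryTheory.Abelian CategoryTheory.Limits Pool.Agent.H5.CP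

lemma KilC_aux {k : Type} [CommRing k] {S : ShortComplex (ModuleCat.{0} k)} (hS : S.Exact)
    (a b : ℕ) (ha : ∀ x : S.X₁, a • x = 0) (hb : ∀ x : S.X₃, b • x = 0) (x : S.X₂) :
    (a * b) • x = 0 := by
  have h1 := (ShortComplex.moduleCat_exact_iff S).1 hS (b • x) (by
    rw [map_nsmul]
    exact hb _)
  obtain ⟨y, hy⟩ := h1
  rw [mul_smul, ← hy, ← map_nsmul, ha y, map_zero]

theorem KilC_1 {k G : Type} [CommRing k] [Group G] {S : ShortComplex (Rep.{0} k G)}
    (hS : S.ShortExact) (j a b : ℕ) (h3 : Kill a S.X₃ j) (h2 : Kill b S.X₂ (j + 1)) :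
    Kill (a * b) S.X₁ (j + 1) := fun x =>
  KilC_aux (groupCohomology.mapShortComplex₁_exact hS (rfl : j + 1 = j + 1)) a b h3 h2 x

theorem KilC_2 {k G : Type} [CommRing k] [Group G] {S : ShortComplex (Rep.{0} k G)}
    (hS : S.ShortExact) (j a b : ℕ) (h1 : Kill a S.X₁ j) (h3 : Kill b S.X₃ j) :
    Kill (a * b) S.X₂ j := fun x =>
  KilC_aux (groupCohomology.mapShortComplex₂_exact hS j) a b h1 h3 x

theorem KilC_3 {k G : Type} [CommRing k] [Group G] {S : ShortComplex (Rep.{0} k G)}
    (hS : S.ShortExact) (j a b : ℕ) (h2 : Kill a S.X₂ j) (h1 : Kill b S.X₁ (j + 1)) :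
    Kill (a * b) S.X₃ j := fun x =>
  KilC_aux (groupCohomology.mapShortComplex₃_exact hS (rfl : j + 1 = j + 1)) a b h2 h1 x

end Pool.Agent.H75.CP
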