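import Pool.Agent.H75.CP.KilD
import Pool.Agent.H75.CP.KilC

/-!
ROW FunA (150 lines).  Cohomology of `Fun(Y,B)`.  For every orbit `o : MulAction.orbitRel.Quotient G Y` let `y_o = o.out` and `S_o` its stabilizer.
`FunR Y B ≅ PiR (fun o => Rep.coind (stabilizer G y_o).subtype (Rep.res _ B))` by `F ↦ (g ↦ g F(g⁻¹ y_o))`:
 * in the coinduced module (Mathlib: `Φ(s g) = s Φ(g)` for `s ∈ S_o`, action `(h Φ)(g) = Φ(g h)`): `(sg) F(g⁻¹ s⁻¹ y_o) = s (g F(g⁻¹ y_o))`;
 * equivariant: `g (hF)(g⁻¹ y_o) = g h F(h⁻¹ g⁻¹ y_o) = (gh) F((gh)⁻¹ y_o)`;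
 * bijective: every `y` is `g⁻¹ y_o` with `g` unique up to left multiplication by `S_o` (of the orbit `o` of `y`); inverse `F(y) = g⁻¹ Φ_o(g)`.
-/

namespace Pool.Agent.H75.CP

open CategoryTheory CategoryTheory.Abelian CategoryTheory.Limits Pool.Agent.H5.CP

/-- the factor of the orbit `o` -/
noncomputable abbrev FunA_co {k G : Type} [CommRing k] [Group G] (Y : Type) [MulAction G Y]
    (B : Rep.{0} k G) (o : MulAction.orbitRel.Quotient G Y) : Rep.{0} k G :=
  Rep.coind (MulAction.stabilizer G (Quotient.out o)).subtype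
    (Rep.res (MulAction.stabilizer G (Quotient.out o)).subtype B)

/-- the component of the isomorphism -/
noncomputable def FunA_f {k G : Type} [CommRing k] [Group G] {Y : Type} [MulAction G Y]
    {B : Rep.{0} k G} (F : Y → B.V) (o : MulAction.orbitRel.Quotient G Y) :
    (FunA_co Y B o).V :=
  ⟨fun g => B.ρ g (F (g⁻¹ • Quotient.out o)), by
    intro s g
    show B.ρ (s.1 * g) (F ((s.1 * g)⁻¹ • Quotient.out o)) =
      B.ρ s.1 (B.ρ g (F (g⁻¹ • Quotient.out o)))
    have h : s.1⁻¹ • Quotient.out o = Quotient.out o :=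
      MulAction.mem_stabilizer_iff.1 (inv_mem s.2)
    rw [mul_inv_rev, mul_smul, h, map_mul]
    rfl⟩

theorem FunA_f_apply {k G : Type} [CommRing k] [Group G] {Y : Type} [MulAction G Y]
    {B : Rep.{0} k G} (F : Y → B.V) (o : MulAction.orbitRel.Quotient G Y) (g : G) :
    (FunA_f F o).1 g = B.ρ g (F (g⁻¹ • Quotient.out o)) := rfl

/-- `Fun(Y,B) → ∏ coind` -/
noncomputable def FunA_m {k G : Type} [CommRing k] [Group G] (Y : Type) [MulAction G Y]
    (B : Rep.{0} k G) : FunR Y B ⟶ PiR (FunA_co Y B) :=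
  Rep.ofHom ⟨{ toFun := fun F o => FunA_f F o
               map_add' := by
                intro F F'
                funext o
                apply Subtype.ext
                funext g
                exact map_add (B.ρ g) _ _
               map_smul' := by
                intro r F
                funext o
                apply Subtype.ext
                funext g
                exact map_smul (B.ρ g) _ _ }, by
    intro h
    apply LinearMap.ext
    intro F
    funext o
    apply Subtype.ext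
    funext g
    show B.ρ g (B.ρ h (F (h⁻¹ • g⁻¹ • Quotient.out o))) =
      B.ρ (g * h) (F ((g * h)⁻¹ • Quotient.out o))
    rw [mul_inv_rev, mul_smul, map_mul]
    rfl⟩

theorem FunA_m_apply {k G : Type} [CommRing k] [Group G] (Y : Type) [MulAction G Y]
    (B : Rep.{0} k G) (F : Y → B.V) (o : MulAction.orbitRel.Quotient G Y) (g : G) :
    (((FunA_m Y B).hom F : ∀ o, (FunA_co Y B o).V) o).1 g =
      B.ρ g (F (g⁻¹ • Quotient.out o)) := rfl

theorem FunA_ex {G : Type} [Group G] {Y : Type} [MulAction G Y] (y : Y) :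
    ∃ g : G, g • y = Quotient.out (Quotient.mk (MulAction.orbitRel G Y) y) := by
  have h : (MulAction.orbitRel G Y).r (Quotient.out (Quotient.mk (MulAction.orbitRel G Y) y)) y :=
    Quotient.mk_out y
  obtain ⟨g, hg⟩ := MulAction.orbitRel_apply.1 h
  exact ⟨g, hg⟩

theorem FunA_inv {k G : Type} [CommRing k] [Group G] (B : Rep.{0} k G) (g : G) (x : B.V) :
    B.ρ g⁻¹ (B.ρ g x) = x := by
  have h : (B.ρ g⁻¹ * B.ρ g) x = x := by
    rw [← map_mul, inv_mul_cancel, map_one]
    rfl
  exact h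

theorem FunA_inj {k G : Type} [CommRing k] [Group G] (Y : Type) [MulAction G Y]
    (B : Rep.{0} k G) : Function.Injective (FunA_m Y B).hom := by
  intro F F' h
  funext y
  obtain ⟨g, hg⟩ := FunA_ex (G := G) y
  have h1 := congrArg (fun Z : (∀ o, (FunA_co Y B o).V) =>
    (Z (Quotient.mk (MulAction.orbitRel G Y) y)).1 g) h
  have h0 : B.ρ g (F (g⁻¹ • Quotient.out (Quotient.mk (MulAction.orbitRel G Y) y))) =
      B.ρ g (F' (g⁻¹ • Quotient.out (Quotient.mk (MulAction.orbitRel G Y) y))) := h1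
  rw [← hg, inv_smul_smul] at h0
  have h2 := congrArg (B.ρ g⁻¹) h0
  rwa [FunA_inv, FunA_inv] at h2

theorem FunA_surj {k G : Type} [CommRing k] [Group G] (Y : Type) [MulAction G Y]
    (B : Rep.{0} k G) : Function.Surjective (FunA_m Y B).hom := by
  intro Ψ'
  obtain ⟨Ψ, hΨ⟩ : ∃ Ψ : (∀ o, (FunA_co Y B o).V), Ψ = Ψ' := ⟨Ψ', rfl⟩
  choose c hc using fun y : Y => FunA_ex (G := G) y
  let F : Y → B.V := fun y => B.ρ (c y)⁻¹ ((Ψ (Quotient.mk (MulAction.orbitRel G Y) y)).1 (c y))
  have key : ∀ (o : MulAction.orbitRel.Quotient G Y) (y : Y) (g : G),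
      Quotient.mk (MulAction.orbitRel G Y) y = o → g • y = Quotient.out o →
      B.ρ g (F y) = (Ψ o).1 g := by
    intro o y g ho hg
    subst ho
    have hs : c y * g⁻¹ ∈ MulAction.stabilizer G
        (Quotient.out (Quotient.mk (MulAction.orbitRel G Y) y)) := by
      rw [MulAction.mem_stabilizer_iff, mul_smul, ← hg, inv_smul_smul, hg, hc y]
    have h1 := (Ψ (Quotient.mk (MulAction.orbitRel G Y) y)).2 ⟨c y * g⁻¹, hs⟩ g
    have h2 : (Ψ (Quotient.mk (MulAction.orbitRel G Y) y)).1 (c y) =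
        B.ρ (c y * g⁻¹) ((Ψ (Quotient.mk (MulAction.orbitRel G Y) y)).1 g) := by
      have h3 : (MulAction.stabilizer G
        (Quotient.out (Quotient.mk (MulAction.orbitRel G Y) y))).subtype
          ⟨c y * g⁻¹, hs⟩ * g = c y := by
        show c y * g⁻¹ * g = c y
        rw [inv_mul_cancel_right]
      rw [h3] at h1
      exact h1
    show B.ρ g (B.ρ (c y)⁻¹ ((Ψ (Quotient.mk (MulAction.orbitRel G Y) y)).1 (c y))) = _
    rw [h2, map_mul]
    show B.ρ g (B.ρ (c y)⁻¹ (B.ρ (c y) (B.ρ g⁻¹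
      ((Ψ (Quotient.mk (MulAction.orbitRel G Y) y)).1 g)))) = _
    rw [FunA_inv]
    have h4 := FunA_inv B g⁻¹ ((Ψ (Quotient.mk (MulAction.orbitRel G Y) y)).1 g)
    rwa [inv_inv] at h4
  refine ⟨F, ?_⟩
  rw [← hΨ]
  funext o
  apply Subtype.ext
  funext g
  refine (FunA_m_apply Y B F o g).trans ?_
  refine key o _ g ?_ (smul_inv_smul g _)
  have h5 : Quotient.mk (MulAction.orbitRel G Y) (Quotient.out o) = o := Quotient.out_eq o
  refine Eq.trans ?_ h5
  apply Quotient.sound
  exact MulAction.orbitRel_apply.2 ⟨g⁻¹, rfl⟩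

theorem FunA_main {k G : Type} [CommRing k] [Group G] (Y : Type) [MulAction G Y]
    (B : Rep.{0} k G) (m n : ℕ)
    (h : ∀ y : Y, Kill m (Rep.res (MulAction.stabilizer G y).subtype B) (n + 1)) :
    Kill m (FunR Y B) (n + 1) := by
  have : Mono (FunA_m Y B) := (Rep.mono_iff_injective _).2 (FunA_inj Y B)
  have : Epi (FunA_m Y B) := (Rep.epi_iff_surjective _).2 (FunA_surj Y B)
  have : IsIso (FunA_m Y B) := isIso_of_mono_of_epi _
  refine KilD_iso ⟨asIso (FunA_m Y B)⟩ m (n + 1) ?_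
  refine KilD_pi _ m n fun o => ?_
  exact (KilD_coind _ _ m (n + 1)).2 (h _)

theorem FunA_free {k G : Type} [CommRing k] [Group G] (Y : Type) [MulAction G Y]
    (B : Rep.{0} k G) (n : ℕ) (h : ∀ (g : G) (y : Y), g • y = y → g = 1) :
    IsZero (groupCohomology (FunR Y B) (n + 1)) := by
  rw [← KilA_one]
  refine FunA_main Y B 1 n fun y => ?_
  rw [KilA_one]
  have : Subsingleton (MulAction.stabilizer G y) := by
    refine ⟨fun a b => ?_⟩
    apply Subtype.ext
    rw [h a.1 y (MulAction.mem_stabilizer_iff.1 a.2), h b.1 y (MulAction.mem_stabilizer_iff.1 b.2)]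
  exact isZero_groupCohomology_succ_of_subsingleton _ _

end Pool.Agent.H75.CP
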