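import Pool.Agent.H75.CP.KilA

/-!
ROW KilB (80 lines).  Transport of `Kill` along an isomorphism of groups `φ` and an additive bijection `e` compatible with the
actions (the coefficient rings may be different).  By `KilA_iff`: a cochain `f' : (Fin n → G') → A'` corresponds to
`fun x => e.symm (f' (φ ∘ x))`, and `e (dd A n f x) = dd A' n (…) (φ ∘ x)` (the definition `dd` only uses the addition, integer multiples and
the action; `Fin.comp_contractNth` as in `CocC_dd`, H5/CP/CocC.lean).
-/

namespace Pool.Agent.H75.CP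

open CategoryTheory CategoryTheory.Abelian CategoryTheory.Limits Pool.Agent.H5.CP

private theorem KilB_dd {k k' G G' : Type} [CommRing k] [CommRing k'] [Group G] [Group G']
    (φ : G ≃* G') (A : Rep.{0} k G) (A' : Rep.{0} k' G') (e : A.V ≃+ A'.V)
    (he : ∀ (g : G) (a : A.V), e (A.ρ g a) = A'.ρ (φ g) (e a)) (n : ℕ)
    (f : (Fin n → G) → A) (f' : (Fin n → G') → A')
    (hf : ∀ x, e (f x) = f' fun i => φ (x i)) (x : Fin (n + 1) → G) :
    e (dd A n f x) = dd A' n f' fun i => φ (x i) := by
  have h2 : ∀ j : Fin (n + 1), (fun i => φ (Fin.contractNth j (· * ·) x i))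
      = Fin.contractNth j (· * ·) (fun i => φ (x i)) := fun j =>
    Fin.comp_contractNth (· * ·) (· * ·) (f := φ) (fun x y => map_mul φ x y) j x
  unfold dd
  rw [map_add, he, hf, map_sum]
  congr 1
  refine Finset.sum_congr rfl fun j _ => ?_
  rw [map_zsmul, hf, h2 j]

theorem KilB_main {k k' G G' : Type} [CommRing k] [CommRing k'] [Group G] [Group G']
    (φ : G ≃* G') (A : Rep.{0} k G) (A' : Rep.{0} k' G') (e : A.V ≃+ A'.V)
    (he : ∀ (g : G) (a : A.V), e (A.ρ g a) = A'.ρ (φ g) (e a)) (m n : ℕ)
    (h : Kill m A (n + 1)) : Kill m A' (n + 1) := by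
  rw [KilA_iff] at h ⊢
  intro f' hf'
  obtain ⟨g, hg⟩ := h (fun x => e.symm (f' fun i => φ (x i))) (by
    funext x
    apply e.injective
    rw [KilB_dd φ A A' e he (n + 1) _ f' (fun x => e.apply_symm_apply _) x, hf']
    exact (map_zero e).symm)
  refine ⟨fun y => e (g fun i => φ.symm (y i)), ?_⟩
  funext y
  have h1 := KilB_dd φ A A' e he n g (fun y => e (g fun i => φ.symm (y i)))
    (fun x => by simp only [MulEquiv.symm_apply_apply]) (fun i => φ.symm (y i))
  simp only [MulEquiv.apply_symm_apply] at h1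
  rw [← h1, hg]
  simp only [Pi.smul_apply, map_nsmul, MulEquiv.apply_symm_apply, AddEquiv.apply_symm_apply]

end Pool.Agent.H75.CP
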