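import Pool.Agent.H75.CP.DefsQ
import Pool.Agent.H5.CP.VTop

/-!
ROW QSe (100 lines).  Exact sequences: `0 → B → Fun(Y,B) → Fun(Y,B)/B → 0` (`Y` non-empty), and exactness of the functors `B ↦ Fun(Y,B)`, `B ↦ Fun(Y,B)/B`.  `VTop_shortExact` (H5/CP/VTop.lean) reduces short exactness to: first map injective,
second surjective, exact in the middle (elements); conversely from `hS.ShortExact` get these for `S` (`Rep.mono_iff_injective`, `Rep.epi_iff_surjective`, `ABs_exact`).  Functions: choose pointwise.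
`QSe_ses`, injective: if `f ∘ F` is constant then `F` is constant (`Y` non-empty, `f` injective).  Middle: `g ∘ F` constant `= c`; lift `c = g(b)`, then `g ∘ (F - b) = 0`, `F - b = f ∘ F'`.
-/

namespace Pool.Agent.H75.CP

open CategoryTheory CategoryTheory.Abelian CategoryTheory.Limits Pool.Agent.H5.CP

private theorem qse_elems {k G : Type} [CommRing k] [Group G] (S : ShortComplex (Rep.{0} k G))
    (hS : S.ShortExact) : Function.Injective S.f.hom ∧ Function.Surjective S.g.hom ∧
      ∀ x₂ : S.X₂.V, S.g.hom x₂ = 0 → ∃ x₁ : S.X₁.V, S.f.hom x₁ = x₂ := by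
  refine ⟨(Rep.mono_iff_injective _).1 hS.mono_f, (Rep.epi_iff_surjective _).1 hS.epi_g, ?_⟩
  have h := hS.exact
  rw [← ShortComplex.exact_map_iff_of_faithful S (forget₂ (Rep.{0} k G) (ModuleCat.{0} k)),
    ShortComplex.moduleCat_exact_iff] at h
  exact h

theorem QSe_main {k G : Type} [CommRing k] [Group G] (Y : Type) [MulAction G Y] [Nonempty Y]
    (B : Rep.{0} k G) : (QBS Y B).ShortExact := by
  refine VTop_shortExact _ ?_ ?_ ?_
  · intro b b' h
    obtain ⟨y⟩ := (inferInstance : Nonempty Y)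
    exact congrFun (show (fun _ : Y => b) = (fun _ : Y => b') from h) y
  · intro z
    obtain ⟨F, rfl⟩ := Submodule.Quotient.mk_surjective _ z
    exact ⟨F, rfl⟩
  · intro F hF
    obtain ⟨b, hb⟩ := (Submodule.Quotient.mk_eq_zero (cst k Y B.V)).1 hF
    exact ⟨b, hb.symm⟩

theorem QSe_fun {k G : Type} [CommRing k] [Group G] (Y : Type) [MulAction G Y]
    (S : ShortComplex (Rep.{0} k G)) (hS : S.ShortExact) :
    (ShortComplex.mk (FunRm Y S.f) (FunRm Y S.g) (FunRm_comp_zero Y)).ShortExact := by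
  obtain ⟨hf, hg, he⟩ := qse_elems S hS
  refine VTop_shortExact _ ?_ ?_ ?_
  · intro F F' h
    funext y
    exact hf (congrFun (show (fun y => S.f.hom (F y)) = (fun y => S.f.hom (F' y)) from h) y)
  · intro F
    choose F' hF' using fun y : Y => hg (F y)
    exact ⟨F', funext hF'⟩
  · intro F hF
    have h1 : ∀ y : Y, S.g.hom (F y) = 0 := fun y =>
      congrFun (show (fun y => S.g.hom (F y)) = (fun _ => 0) from hF) y
    choose F' hF' using fun y : Y => he (F y) (h1 y)
    exact ⟨F', funext hF'⟩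

theorem QSe_ses {k G : Type} [CommRing k] [Group G] (Y : Type) [MulAction G Y] [Nonempty Y]
    (S : ShortComplex (Rep.{0} k G)) (hS : S.ShortExact) :
    (ShortComplex.mk (QBm Y S.f) (QBm Y S.g) (QBm_comp_zero Y)).ShortExact := by
  obtain ⟨hf, hg, he⟩ := qse_elems S hS
  obtain ⟨y0⟩ := (inferInstance : Nonempty Y)
  refine VTop_shortExact _ ?_ ?_ ?_
  · refine (injective_iff_map_eq_zero (QBm Y S.f).hom).2 ?_
    intro z hz
    obtain ⟨F, rfl⟩ := Submodule.Quotient.mk_surjective _ z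
    have hz' : (Submodule.Quotient.mk (fun y => S.f.hom (F y)) : (Y → S.X₂.V) ⧸ cst k Y S.X₂.V)
        = 0 := hz
    obtain ⟨c, hc⟩ := (Submodule.Quotient.mk_eq_zero (cst k Y S.X₂.V)).1 hz'
    refine (Submodule.Quotient.mk_eq_zero (cst k Y S.X₁.V)).2 ⟨F y0, ?_⟩
    funext y
    apply hf
    exact (congrFun hc y).trans (congrFun hc y0).symm
  · intro z
    obtain ⟨F, rfl⟩ := Submodule.Quotient.mk_surjective _ z
    choose F' hF' using fun y : Y => hg (F y)
    refine ⟨(Submodule.Quotient.mk F' : (Y → S.X₂.V) ⧸ cst k Y S.X₂.V), ?_⟩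
    refine (QBm_mk Y S.g F').trans ?_
    exact congrArg (fun z : Y → S.X₃.V => (Submodule.Quotient.mk z : (Y → S.X₃.V) ⧸ cst k Y S.X₃.V))
      (funext hF')
  · intro z hz
    obtain ⟨F, rfl⟩ := Submodule.Quotient.mk_surjective _ z
    have hz' : (Submodule.Quotient.mk (fun y => S.g.hom (F y)) : (Y → S.X₃.V) ⧸ cst k Y S.X₃.V)
        = 0 := hz
    obtain ⟨c, hc⟩ := (Submodule.Quotient.mk_eq_zero (cst k Y S.X₃.V)).1 hz'
    obtain ⟨b, hb⟩ := hg c
    have h1 : ∀ y : Y, S.g.hom (F y - b) = 0 := by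
      intro y
      have h2 : S.g.hom (F y) = c := congrFun hc y
      have h3 : S.g.hom (F y - b) = S.g.hom (F y) - S.g.hom b := map_sub S.g.hom (F y) b
      rw [h3, h2, hb, sub_self]
    choose F' hF' using fun y : Y => he (F y - b) (h1 y)
    refine ⟨(Submodule.Quotient.mk F' : (Y → S.X₁.V) ⧸ cst k Y S.X₁.V), ?_⟩
    refine (QBm_mk Y S.f F').trans ?_
    refine (Submodule.Quotient.eq (cst k Y S.X₂.V)).2 ⟨-b, ?_⟩
    funext y
    show S.f.hom (F' y) - F y = -b
    rw [hF' y]
    abel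

end Pool.Agent.H75.CP
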