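import Pool.Agent.H75.CP.FunA
import Pool.Agent.H75.CP.KilB

/-!
ROW QAc (120 lines).  If every `x ∈ G` of order `p` has exactly one fixed point on `Y` then `Fun(Y,B)/B` is acyclic on the subgroups of order `p`.
Let `x` have order `p`, `P = zpowers x`, `y₀` its fixed point (then all of `P` fixes `y₀`).  `Y' = {y // y ≠ y₀}` is a `P`-set.  As `P`-modules `QB Y B ≅ FunR Y' (res B)` by `[F] ↦ (y ↦ F(y) - F(y₀))`:
well defined, equivariant (`(gF)(y) - (gF)(y₀) = g(F(g⁻¹y) - F(y₀))` for `g ∈ P`), bijective.  `P` acts freely on `Y'`: if `g ∈ P`, `g ≠ 1`, `g y = y` then `g` generates `P` (order `p` prime; `x = g^i`), so `x y = y`, `y = y₀`.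
`FunA_free` and `KilB_main` (`φ = MulEquiv.refl`, `KilA_one`) or `KilD_iso`.
-/

namespace Pool.Agent.H75.CP

open CategoryTheory CategoryTheory.Abelian CategoryTheory.Limits Pool.Agent.H5.CP

/-- the action of a subgroup fixing `y₀` on the other points -/
@[instance_reducible] def QAc_act {G : Type} [Group G] (Y : Type) [MulAction G Y] (P : Subgroup G) (y₀ : Y)
    (hfix : ∀ g ∈ P, g • y₀ = y₀) : MulAction P {y : Y // y ≠ y₀} where
  smul g y := ⟨(g : G) • (y : Y), fun h => y.2 (by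
    have h1 : (g : G) • (y : Y) = (g : G) • y₀ := by rw [h, hfix g g.2]
    exact smul_left_cancel _ h1)⟩
  one_smul y := Subtype.ext (one_smul G (y : Y))
  mul_smul g h y := Subtype.ext (mul_smul (g : G) (h : G) (y : Y))

theorem QAc_iso {k G : Type} [CommRing k] [Group G] (Y : Type) [MulAction G Y] (P : Subgroup G)
    (y₀ : Y) (hfix : ∀ g ∈ P, g • y₀ = y₀) (hfree : ∀ g ∈ P, ∀ y : Y, y ≠ y₀ → g • y = y → g = 1)
    (B : Rep.{0} k G) (j : ℕ) :
    IsZero (groupCohomology (Rep.res P.subtype (QB Y B)) (j + 1)) := by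
  classical
  let act : MulAction P {y : Y // y ≠ y₀} := QAc_act Y P y₀ hfix
  have hsm : ∀ (g : P) (y : {y : Y // y ≠ y₀}), ((g • y : {y : Y // y ≠ y₀}) : Y) =
      (g : G) • (y : Y) := fun _ _ => rfl
  have hz : IsZero (groupCohomology (FunR {y : Y // y ≠ y₀} (Rep.res P.subtype B)) (j + 1)) := by
    refine FunA_free _ _ _ fun g y hgy => ?_
    have h1 : (g : G) • (y : Y) = y := by rw [← hsm, hgy]
    exact Subtype.ext (hfree g g.2 y y.2 h1)
  rw [← KilA_one] at hz ⊢
  let ext0 : ({y : Y // y ≠ y₀} → B.V) → (Y → B.V) := fun F y =>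
    if h : y ≠ y₀ then F ⟨y, h⟩ else 0
  have hext : ∀ (F : {y : Y // y ≠ y₀} → B.V) (y : {y : Y // y ≠ y₀}), ext0 F y = F y := by
    intro F y
    simp only [ext0]
    rw [dif_pos y.2]
  have hext0 : ∀ (F : {y : Y // y ≠ y₀} → B.V), ext0 F y₀ = 0 := by
    intro F
    simp only [ext0]
    rw [dif_neg (by simp)]
  have hchar : ∀ (F : {y : Y // y ≠ y₀} → B.V) (H : Y → B.V), H y₀ = 0 →
      (∀ y : {y : Y // y ≠ y₀}, H y = F y) → ext0 F = H := by
    intro F H h0 h1
    funext y
    by_cases hy : y = y₀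
    · rw [hy, hext0, h0]
    · have h2 := hext F ⟨y, hy⟩
      have h3 := h1 ⟨y, hy⟩
      exact h2.trans h3.symm
  let e0 : ({y : Y // y ≠ y₀} → B.V) →+ ((Y → B.V) ⧸ cst k Y B.V) :=
    { toFun := fun F => Submodule.Quotient.mk (ext0 F)
      map_zero' := by
        have : ext0 (0 : {y : Y // y ≠ y₀} → B.V) = 0 :=
          hchar _ _ rfl (fun _ => rfl)
        rw [this]
        rfl
      map_add' := by
        intro F F'
        have : ext0 (F + F') = ext0 F + ext0 F' := by
          refine hchar _ _ ?_ fun y => ?_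
          · rw [Pi.add_apply, hext0, hext0, add_zero]
          · rw [Pi.add_apply, hext, hext]
            rfl
        rw [this]
        rfl }
  have he0 : Function.Bijective e0 := by
    constructor
    · rw [injective_iff_map_eq_zero]
      intro F hF
      have h1 : (Submodule.Quotient.mk (ext0 F) : (Y → B.V) ⧸ cst k Y B.V) = 0 := hF
      rw [Submodule.Quotient.mk_eq_zero] at h1
      obtain ⟨b, hb⟩ := h1
      have hb0 : b = 0 := by
        have h2 := congrFun hb y₀
        rw [hext0] at h2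
        exact h2.symm
      funext y
      have h3 := congrFun hb y
      rw [hext, hb0] at h3
      exact h3
    · intro q
      obtain ⟨F, rfl⟩ := Submodule.Quotient.mk_surjective _ q
      refine ⟨fun y => F y - F y₀, ?_⟩
      show (Submodule.Quotient.mk (ext0 (fun y => F y - F y₀)) : (Y → B.V) ⧸ cst k Y B.V) =
        Submodule.Quotient.mk F
      rw [Submodule.Quotient.eq]
      refine ⟨-F y₀, ?_⟩
      have h1 : ext0 (fun y => F y - F y₀) = fun y => F y - F y₀ :=
        hchar (fun y => F y - F y₀) (fun y => F y - F y₀) (sub_self _) (fun _ => rfl)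
      rw [h1]
      funext y
      show F y - F y₀ - F y = - F y₀
      abel
  refine KilB_main (MulEquiv.refl P) (FunR {y : Y // y ≠ y₀} (Rep.res P.subtype B))
    (Rep.res P.subtype (QB Y B)) (AddEquiv.ofBijective e0 he0) ?_ 1 j hz
  intro g F
  show (Submodule.Quotient.mk (ext0 (fun y => B.ρ (g : G) (F (g⁻¹ • y)))) :
      (Y → B.V) ⧸ cst k Y B.V) = Submodule.Quotient.mk (fun y => B.ρ (g : G) (ext0 F ((g : G)⁻¹ • y)))
  congr 1
  refine hchar (fun y => B.ρ (g : G) (F (g⁻¹ • y)))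
    (fun y => B.ρ (g : G) (ext0 F ((g : G)⁻¹ • y))) ?_ fun y => ?_
  · have h1 : (g : G)⁻¹ • y₀ = y₀ := hfix _ (inv_mem g.2)
    show B.ρ (g : G) (ext0 F ((g : G)⁻¹ • y₀)) = 0
    rw [h1, hext0, map_zero]
  · show B.ρ (g : G) (ext0 F ((g : G)⁻¹ • (y : Y))) = B.ρ (g : G) (F (g⁻¹ • y))
    have h1 : (g : G)⁻¹ • (y : Y) = ((g⁻¹ • y : {y : Y // y ≠ y₀}) : Y) := (hsm g⁻¹ y).symm
    rw [h1, hext]

theorem QAc_main {k G : Type} [CommRing k] [Group G] (Y : Type) [MulAction G Y] (p : ℕ)
    [Fact p.Prime]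
    (h : ∀ x : G, x ^ p = 1 → x ≠ 1 → ∃ y : Y, x • y = y ∧ ∀ y' : Y, x • y' = y' → y' = y)
    (B : Rep.{0} k G) : PAc p (QB Y B) := by
  intro x hxp hx1 j
  obtain ⟨y₀, hy₀, huniq⟩ := h x hxp hx1
  refine QAc_iso Y (Subgroup.zpowers x) y₀ ?_ ?_ B j
  · intro g hg
    have h1 : x ∈ MulAction.stabilizer G y₀ := hy₀
    have h2 : Subgroup.zpowers x ≤ MulAction.stabilizer G y₀ := by
      rw [Subgroup.zpowers_le]
      exact h1
    exact h2 hg
  · intro g hg y hy hgy
    by_contra hg1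
    apply hy
    apply huniq
    have hpp : p.Prime := Fact.out
    obtain ⟨n, rfl⟩ := Subgroup.mem_zpowers_iff.1 hg
    have hord : orderOf x = p := orderOf_eq_prime hxp hx1
    have hcop : IsCoprime n (p : ℤ) := by
      rw [Int.isCoprime_iff_gcd_eq_one, Int.gcd_comm]
      have h3 : ¬ (p : ℤ) ∣ n := by
        intro hd
        apply hg1
        rw [← hord] at hd
        exact orderOf_dvd_iff_zpow_eq_one.1 hd
      have h4 := (Int.isCoprime_iff_gcd_eq_one).1 ((Nat.prime_iff_prime_int.1 hpp).coprime_iff_not_dvd.2 h3)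
      exact h4
    obtain ⟨a, b, hab⟩ := hcop
    have hx : x = (x ^ n) ^ a := by
      have h5 : x = x ^ (a * n + b * (p : ℤ)) := by rw [hab, zpow_one]
      have h6 : x ^ (b * (p : ℤ)) = 1 := by
        rw [mul_comm, zpow_mul, zpow_natCast, hxp, one_zpow]
      rw [zpow_add, h6, mul_one, mul_comm, zpow_mul] at h5
      exact h5
    have h7 : x ^ n ∈ MulAction.stabilizer G y := hgy
    have h8 : (x ^ n) ^ a ∈ MulAction.stabilizer G y := Subgroup.zpow_mem _ h7 a
    rw [← hx] at h8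
    exact h8

end Pool.Agent.H75.CP
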