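import Pool.Agent.H75.CP.DefsY

/-!
ROW YFi (100 lines, pure group theory).  `E : CX H G`, `H` has no element of order `p`, `Y = {u ∈ H : u^p = t} ⊔ G` (`G` acts on the roots by conjugation with lifts, `CX.Y0_smul`, and on itself by
left multiplication).  Every `x ∈ G` of order `p` has exactly one fixed point on `Y`.
Let `x = π h`.  `π(h^p) = 1` so `h^p = t^n`.  `p ∤ n`: if `n = p m` then `(h t^{-m})^p = 1`, `h = t^m`, `x = 1`.  Bezout: `a n + b p = 1`; `u = h^a t^b` satisfies `u^p = h^{pa} t^{pb} = t^{na+pb} = t`.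
`x • u = h u h⁻¹ = u`.  If `v ∈ Y0` is fixed by `x`: `h v h⁻¹ = v`, so `v` commutes with `h` and with `u`, `(u v⁻¹)^p = t t⁻¹ = 1`, `u = v`.  If `g ∈ G` is fixed: `x g = g`, `x = 1`, excluded.
-/

namespace Pool.Agent.H75.CP

open CategoryTheory CategoryTheory.Abelian CategoryTheory.Limits Pool.Agent.H5.CP

theorem YFi_main {H G : Type} [Group H] [Group G] (E : CX H G) (p : ℕ) [Fact p.Prime]
    (hp : NoP p H) (x : G) (hx : x ^ p = 1) (hx1 : x ≠ 1) :
    ∃ y : (E.Y0 p) ⊕ G, x • y = y ∧ ∀ y' : (E.Y0 p) ⊕ G, x • y' = y' → y' = y := by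
  obtain ⟨h, rfl⟩ := E.surj x
  have hct : ∀ g : H, Commute g E.t := fun g => Subgroup.mem_center_iff.1 E.cent g
  have h1 : E.π (h ^ p) = 1 := by rw [map_pow, hx]
  obtain ⟨n, hn⟩ := (E.ker _).1 h1
  have hnd : ¬ (p : ℤ) ∣ n := by
    rintro ⟨m, rfl⟩
    have hc : Commute h (E.t ^ m)⁻¹ := ((hct h).zpow_right m).inv_right
    have h2 : (h * (E.t ^ m)⁻¹) ^ p = 1 := by
      rw [hc.mul_pow, hn, inv_pow, ← zpow_natCast, ← zpow_mul, mul_comm m, mul_inv_cancel]
    have h3 := hp _ h2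
    rw [mul_inv_eq_one] at h3
    exact hx1 ((E.ker h).2 ⟨m, h3⟩)
  have hpr : Prime (p : ℤ) := Nat.prime_iff_prime_int.1 Fact.out
  obtain ⟨b, a, hab⟩ : IsCoprime (p : ℤ) n := hpr.irreducible.coprime_iff_not_dvd.2 hnd
  obtain ⟨u, hud⟩ : ∃ u, u = h ^ a * E.t ^ b := ⟨_, rfl⟩
  have hcu : Commute (h ^ a) (E.t ^ b) := ((hct h).zpow_zpow a b)
  have hu : u ^ p = E.t := by
    rw [hud, hcu.mul_pow, ← zpow_natCast, ← zpow_natCast, ← zpow_mul, ← zpow_mul, mul_comm a,
      zpow_mul, zpow_natCast, hn, ← zpow_mul, ← zpow_add, show n * a + b * (p : ℤ) = 1 by linarith,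
      zpow_one]
  have hhu : Commute h u := by
    rw [hud]
    exact (Commute.zpow_right (Commute.refl h) a).mul_right ((hct h).zpow_right b)
  let y0 : E.Y0 p := (⟨u, hu⟩ : {u : H // u ^ p = E.t})
  have hy0 : y0.1 = u := rfl
  refine ⟨Sum.inl y0, ?_, ?_⟩
  · have h4 : E.π h • y0 = y0 := by
      apply Subtype.ext
      rw [CX.Y0_smul, hy0, hhu.eq, mul_inv_cancel_right]
    rw [Sum.smul_inl, h4]
  · rintro (v | g) hv
    · rw [Sum.smul_inl] at hv
      have h5 : E.π h • v = v := Sum.inl_injective hv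
      have h6 : h * v.1 * h⁻¹ = v.1 := by
        rw [← CX.Y0_smul, h5]
      have h7 : Commute h v.1 := mul_inv_eq_iff_eq_mul.1 h6
      have h8 : Commute u v.1 := by
        rw [hud]
        exact (h7.zpow_left a).mul_left ((hct v.1).symm.zpow_left b)
      have hvp : v.1 ^ p = E.t := v.2
      have h9 : (u * v.1⁻¹) ^ p = 1 := by
        rw [h8.inv_right.mul_pow, inv_pow, hu, hvp, mul_inv_cancel]
      have h10 := hp _ h9
      rw [mul_inv_eq_one] at h10
      congr 1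
      apply Subtype.ext
      rw [hy0, h10]
    · exfalso
      rw [Sum.smul_inr] at hv
      have h5 : E.π h • g = g := Sum.inr_injective hv
      rw [smul_eq_mul] at h5
      exact hx1 (mul_eq_right.1 h5)

end Pool.Agent.H75.CP
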