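import Pool.Agent.H75.CP.VMa
import Pool.Agent.H75.CP.YFi
import Pool.Agent.H75.CP.QSe
import Pool.Agent.H75.CP.QAc
import Pool.Agent.H5.CP.NoTor
import Pool.Agent.H5.CP.VTop
import Pool.Agent.H75.CP.KilC

/-!
ROW InK (120 lines).  `E : CX H G`, `CD (ZMod p) H n`, `Y = E.Y0 p ⊕ G`.  `NoP p H` by `NoTor_main`.
`InK_Z`: for `B : Rep ℤ G` with `p^K B = 0`: `H^j(G; Fun(Y,B)/B) = 0` for `j ≥ 2n+3`, by induction on `K`.  `K = 0`: `B = 0`, so `QB Y B` is zero (subsingleton; `KilA_iff`).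
 Case `p B = 0`: `B` is a `ZMod p`-module (`AddCommGroup.zmodModule`), `B₁ : Rep (ZMod p) G` with the same action; `QAc_main` (`YFi_main`), `VMa_main` give the vanishing for `QB Y B₁`; `KilB_main` (identity on functions, passing to the quotients) for `QB Y B`.
 Step: `0 → pB → B → B/pB → 0` (subrepresentation and quotient, `SQ`-like; `p^K (pB) = 0`, `p (B/pB) = 0`); `QSe_ses` and `LesA_2`.
`InK_zero`: for `B : Rep (ZMod (p^K)) G`: `KilB_main` from `resZ B` (Defs of H5), `p^K` kills `B`.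
`InK_main`: `QSe_main`, `j = j' + 1`, `H^{j'}(QB) = 0`, so `H^j(B) → H^j(FunR Y B)` is injective: `KilC_1` with `a = 1`.
-/

namespace Pool.Agent.H75.CP

open CategoryTheory CategoryTheory.Abelian CategoryTheory.Limits Pool.Agent.H5.CP

theorem InK_pac {H G : Type} [Group H] [Group G] (E : CX H G) (p : ℕ) [Fact p.Prime] (n : ℕ)
    (hH : CD (ZMod p) H n) {k : Type} [CommRing k] (B : Rep.{0} k G) :
    PAc p (QB ((E.Y0 p) ⊕ G) B) :=
  QAc_main ((E.Y0 p) ⊕ G) p
    (fun x hx hx1 => YFi_main E p (fun y hy => NoTor_main p ⟨n, hH⟩ y hy) x hx hx1) B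

theorem InK_sub {k G : Type} [CommRing k] [Group G] (A : Rep.{0} k G) (hA : Subsingleton A.V)
    (j : ℕ) : IsZero (groupCohomology A (j + 1)) := by
  rw [CocA_iff]
  intro f _
  exact ⟨0, funext fun x => Subsingleton.elim (α := A.V) _ _⟩

theorem InK_qsub {k G : Type} [CommRing k] [Group G] (Y : Type) [MulAction G Y]
    (B : Rep.{0} k G) (hs : ∀ b : B.V, b = 0) : Subsingleton (QB Y B).V := by
  refine ⟨fun z w => ?_⟩
  obtain ⟨F, rfl⟩ := Submodule.Quotient.mk_surjective _ z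
  obtain ⟨F', rfl⟩ := Submodule.Quotient.mk_surjective _ w
  have h1 : F = F' := funext fun y => (hs (F y)).trans (hs (F' y)).symm
  rw [h1]

/-- the quotients by the constant functions do not depend on the ring -/
noncomputable def InK_e (k k' Y V : Type) [CommRing k] [CommRing k'] [AddCommGroup V]
    [Module k V] [Module k' V] : ((Y → V) ⧸ cst k Y V) ≃+ ((Y → V) ⧸ cst k' Y V) where
  toFun := Quotient.map' id (fun a b h => by
    rw [Submodule.quotientRel_def] at h ⊢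
    exact h)
  invFun := Quotient.map' id (fun a b h => by
    rw [Submodule.quotientRel_def] at h ⊢
    exact h)
  left_inv := by
    intro z
    obtain ⟨F, rfl⟩ := Submodule.Quotient.mk_surjective _ z
    rfl
  right_inv := by
    intro z
    obtain ⟨F, rfl⟩ := Submodule.Quotient.mk_surjective _ z
    rfl
  map_add' := by
    intro z w
    obtain ⟨F, rfl⟩ := Submodule.Quotient.mk_surjective _ z
    obtain ⟨F', rfl⟩ := Submodule.Quotient.mk_surjective _ w
    rfl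

theorem InK_tr {k k' G : Type} [CommRing k] [CommRing k'] [Group G] (Y V : Type)
    [MulAction G Y] [AddCommGroup V] [Module k V] [Module k' V]
    (ρ : Representation k G V) (ρ' : Representation k' G V) (h : ∀ g v, ρ g v = ρ' g v) (j : ℕ)
    (hz : IsZero (groupCohomology (QB Y (Rep.of ρ)) (j + 1))) :
    IsZero (groupCohomology (QB Y (Rep.of ρ')) (j + 1)) := by
  rw [← KilA_one] at hz ⊢
  refine KilB_main (MulEquiv.refl G) (QB Y (Rep.of ρ)) (QB Y (Rep.of ρ')) (InK_e k k' Y V) ?_ 1 j hz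
  intro g a
  obtain ⟨F, rfl⟩ := Submodule.Quotient.mk_surjective _ a
  refine congrArg (fun z : Y → V => (Submodule.Quotient.mk z : (Y → V) ⧸ cst k' Y V)) ?_
  funext y
  exact h g _

/-- an action on a module killed by `p` as a `ZMod p`-linear representation -/
noncomputable def InK_rho {k G V : Type} [CommRing k] [Group G] [AddCommGroup V] [Module k V]
    (ρ : Representation k G V) (p : ℕ) [Module (ZMod p) V] : Representation (ZMod p) G V where
  toFun g := (ρ g).toAddMonoidHom.toZModLinearMap p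
  map_one' := by
    apply LinearMap.ext
    intro x
    show ρ 1 x = x
    rw [map_one]
    rfl
  map_mul' := by
    intro g h
    apply LinearMap.ext
    intro x
    show ρ (g * h) x = ρ g (ρ h x)
    rw [map_mul]
    rfl

theorem InK_base {H G : Type} [Group H] [Group G] (E : CX H G) (p : ℕ) [Fact p.Prime] (n : ℕ)
    (hH : CD (ZMod p) H n) {k : Type} [CommRing k] (B : Rep.{0} k G) (hB : ∀ b : B.V, p • b = 0)
    (j : ℕ) (hj : 2 * n + 3 ≤ j) : IsZero (groupCohomology (QB ((E.Y0 p) ⊕ G) B) j) := by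
  obtain ⟨i, rfl⟩ : ∃ i, j = i + 1 := ⟨j - 1, by omega⟩
  let _ : Module (ZMod p) B.V := AddCommGroup.zmodModule hB
  have h1 : IsZero (groupCohomology (QB ((E.Y0 p) ⊕ G) (Rep.of (InK_rho B.ρ p))) (i + 1)) :=
    VMa_main E p n hH _ (InK_pac E p n hH _) (i + 1) hj
  exact InK_tr ((E.Y0 p) ⊕ G) B.V (InK_rho B.ρ p) B.ρ (fun _ _ => rfl) i h1

theorem InK_ses {k G : Type} [CommRing k] [Group G] (B : Rep.{0} k G) (p K : ℕ)
    (hB : ∀ b : B.V, (p ^ (K + 1)) • b = 0) :
    ∃ (A C : Rep.{0} k G) (f : A ⟶ B) (g : B ⟶ C) (w : f ≫ g = 0),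
      (ShortComplex.mk f g w).ShortExact ∧ (∀ a : A.V, (p ^ K) • a = 0) ∧
        (∀ c : C.V, p • c = 0) := by
  let U : Submodule k B.V := LinearMap.range (p • (LinearMap.id : B.V →ₗ[k] B.V))
  have hU : ∀ g, U ≤ U.comap (B.ρ g) := by
    rintro g _ ⟨b, rfl⟩
    refine ⟨B.ρ g b, ?_⟩
    show p • B.ρ g b = B.ρ g (p • b)
    rw [map_nsmul]
  have w : Rep.subtype B U hU ≫ Rep.mkQ B U hU = 0 := by
    ext x
    exact (Submodule.Quotient.mk_eq_zero _).2 x.2
  refine ⟨B.subrepresentation U hU, B.quotient U hU, Rep.subtype B U hU, Rep.mkQ B U hU, w,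
    ?_, ?_, ?_⟩
  · refine VTop_shortExact _ ?_ ?_ ?_
    · intro a b hab
      exact Subtype.ext hab
    · intro z
      obtain ⟨F, rfl⟩ := Submodule.Quotient.mk_surjective _ z
      exact ⟨F, rfl⟩
    · intro x hx
      have hx' : x ∈ U := (Submodule.Quotient.mk_eq_zero _).1 hx
      exact ⟨⟨x, hx'⟩, rfl⟩
  · rintro ⟨_, ⟨b, rfl⟩⟩
    apply Subtype.ext
    show (p ^ K) • (p • b) = 0
    rw [smul_smul, ← pow_succ]
    exact hB b
  · intro z
    obtain ⟨b, rfl⟩ := Submodule.Quotient.mk_surjective _ z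
    exact (Submodule.Quotient.mk_eq_zero U (x := p • b)).2 ⟨b, rfl⟩

theorem InK_Z {H G : Type} [Group H] [Group G] (E : CX H G) (p : ℕ) [Fact p.Prime] (n : ℕ)
    (hH : CD (ZMod p) H n) (K : ℕ) (B : Rep.{0} ℤ G) (hB : ∀ b : B.V, (p ^ K) • b = 0) (j : ℕ)
    (hj : 2 * n + 3 ≤ j) : IsZero (groupCohomology (QB ((E.Y0 p) ⊕ G) B) j) := by
  induction K generalizing B with
  | zero =>
    obtain ⟨i, rfl⟩ : ∃ i, j = i + 1 := ⟨j - 1, by omega⟩
    refine InK_sub _ (InK_qsub _ B ?_) i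
    intro b
    have h := hB b
    rw [pow_zero, one_smul] at h
    exact h
  | succ K ih =>
    obtain ⟨A, C, f, g, w, hS, hA, hC⟩ := InK_ses B p K hB
    have h1 := ih A hA
    have h3 := InK_base E p n hH C hC j hj
    have : Nonempty ((E.Y0 p) ⊕ G) := ⟨Sum.inr 1⟩
    exact LesA_2 (QSe_ses ((E.Y0 p) ⊕ G) (ShortComplex.mk f g w) hS) j h1 h3

theorem InK_zero {H G : Type} [Group H] [Group G] (E : CX H G) (p : ℕ) [Fact p.Prime] (n : ℕ)
    (hH : CD (ZMod p) H n) (K : ℕ) (B : Rep.{0} (ZMod (p ^ K)) G) (j : ℕ)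
    (hj : 2 * n + 3 ≤ j) : IsZero (groupCohomology (QB ((E.Y0 p) ⊕ G) B) j) := by
  obtain ⟨i, rfl⟩ : ∃ i, j = i + 1 := ⟨j - 1, by omega⟩
  have h1 : IsZero (groupCohomology (QB ((E.Y0 p) ⊕ G) (resZ B)) (i + 1)) := by
    refine InK_Z E p n hH K (resZ B) ?_ (i + 1) hj
    intro b
    have h2 : ∀ b : B.V, (p ^ K) • b = 0 := by
      intro b
      have h3 : ((p ^ K : ℕ) : ZMod (p ^ K)) • b = 0 := by
        rw [ZMod.natCast_self, zero_smul]
      rw [Nat.cast_smul_eq_nsmul] at h3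
      exact h3
    exact h2 b
  exact InK_tr ((E.Y0 p) ⊕ G) B.V (resZ B).ρ B.ρ (fun _ _ => rfl) i h1

theorem InK_main {H G : Type} [Group H] [Group G] (E : CX H G) (p : ℕ) [Fact p.Prime] (n : ℕ)
    (hH : CD (ZMod p) H n) (K : ℕ) (B : Rep.{0} (ZMod (p ^ K)) G) (m j : ℕ)
    (hj : 2 * n + 4 ≤ j) (h : Kill m (FunR ((E.Y0 p) ⊕ G) B) j) : Kill m B j := by
  obtain ⟨i, rfl⟩ : ∃ i, j = i + 1 := ⟨j - 1, by omega⟩
  have : Nonempty ((E.Y0 p) ⊕ G) := ⟨Sum.inr 1⟩
  have h1 := KilC_1 (QSe_main ((E.Y0 p) ⊕ G) B) i 1 m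
    ((KilA_one _ _).2 (InK_zero E p n hH K B i (by omega))) h
  rw [one_mul] at h1
  exact h1

end Pool.Agent.H75.CP
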