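import Pool.Agent.H75.CP.NumT

/-!
ROW AlgC (250 lines, algebra).  Choose isomorphisms `L₀ ≅ ℤ^ρ × T₀`, `L₁ ≅ ℤ^ρ' × T₁`, `T_i` finite (`AddCommGroup.equiv_free_prod_directSum_zmod`).  `δf, δg` induce integer matrices `Δf, Δg` (`ρ' × ρ`) on the free parts (torsion goes to torsion).
`hsur` gives `ρ' ≤ ρ` (`Δg` onto over `ℚ`), `hinj` for `(a,b) = (0,-1)` gives that `Δg` is injective over `ℚ`: `ρ = ρ'`, `det Δg ≠ 0`; `ρ ≥ 1` since `x₀` is not torsion.
`P = det (C Δf - X C Δg) ∈ ℤ[X]`: its evaluation at `r` (in any commutative ring) is `det (Δf - r Δg)`; the coefficient of `X^ρ` is `det(-Δg) ≠ 0`, so `natDegree P = ρ` (or: `P` is not constant because ... e.g. `Matrix.det` degree lemmas `Polynomial.natDegree_det_X_add_C_le`, `coeff_det_X_add_C_card`).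
`P` has no rational root: `P(a/b) = 0` gives `det (b Δf - a Δg) = 0`, so there is `w ∈ ℤ^ρ`, `w ≠ 0`, with `(bΔf - aΔg) w = 0`; `x = (w,0) ∈ L₀`: `b δf x - a δg x ∈ T₁` is torsion, so `x` is torsion by `hinj`, `w = 0`.
`NumT_main` with `N |T₁|`: `p, F, μ`: `det (Δf - μ Δg) = 0` in `F`, so there is `w ∈ F^ρ`, `w ≠ 0`, `(Δf - μΔg) w = 0` (`Matrix.exists_mulVec_eq_zero_iff`).  `v = Σ_i ε_i ⊗ w_i`, `ε_i ∈ L₀` the basis vectors.  `v ≠ 0`: apply `(coordinate i) ⊗ id : L₀ ⊗ F → ℤ ⊗ F = F`.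
`(δf ⊗ 1)v - (δg ⊗ μ)v = Σ_i (δf ε_i ⊗ w_i - δg ε_i ⊗ μ w_i)`: the components in `ℤ^ρ ⊗ F` cancel; the torsion components `τ ⊗ w` vanish: `τ ⊗ w = τ ⊗ |T₁| (|T₁|⁻¹ w) = 0` as `|T₁|` is invertible in `F`.
-/

namespace Pool.Agent.H75.CP

open Polynomial
open scoped TensorProduct

theorem AlgC_tor {L : Type} [AddCommGroup L] (x : L) :
    x ∈ Submodule.torsion ℤ L ↔ ∃ k : ℕ, 0 < k ∧ k • x = 0 := by
  rw [Submodule.mem_torsion_iff]
  constructor
  · rintro ⟨a, ha⟩
    have ha0 : (a : ℤ) ≠ 0 := nonZeroDivisors.ne_zero a.2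
    refine ⟨(a : ℤ).natAbs, Int.natAbs_pos.2 ha0, ?_⟩
    have ha' : (a : ℤ) • x = 0 := ha
    rcases Int.natAbs_eq (a : ℤ) with h1 | h1
    · rw [h1, natCast_zsmul] at ha'
      exact ha'
    · rw [h1, neg_smul, neg_eq_zero, natCast_zsmul] at ha'
      exact ha'
  · rintro ⟨k, hk, h⟩
    refine ⟨⟨(k : ℤ), mem_nonZeroDivisors_of_ne_zero (by exact_mod_cast hk.ne')⟩, ?_⟩
    change (k : ℤ) • x = 0
    rw [natCast_zsmul]
    exact h

theorem AlgC_kill {L : Type} [AddCommGroup L] (h : AddGroup.FG L) :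
    ∃ e : ℕ, 0 < e ∧ ∀ t ∈ Submodule.torsion ℤ L, e • t = 0 := by
  have hfin : Module.Finite ℤ L := Module.Finite.iff_addGroup_fg.2 h
  have hT : (Submodule.torsion ℤ L).FG := IsNoetherian.noetherian _
  obtain ⟨S, hS⟩ := hT
  have hex : ∀ x : L, ∃ k : ℕ, 0 < k ∧ (x ∈ S → k • x = 0) := by
    intro x
    by_cases hx : x ∈ S
    · have h1 : x ∈ Submodule.torsion ℤ L := by
        rw [← hS]
        exact Submodule.subset_span hx
      obtain ⟨k, hk, h2⟩ := (AlgC_tor x).1 h1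
      exact ⟨k, hk, fun _ => h2⟩
    · exact ⟨1, one_pos, fun h => absurd h hx⟩
  choose k hk hkx using hex
  refine ⟨∏ x ∈ S, k x, Finset.prod_pos fun x _ => hk x, fun t ht => ?_⟩
  rw [← hS] at ht
  induction ht using Submodule.span_induction with
  | mem x hx =>
    obtain ⟨c, hc⟩ := Finset.dvd_prod_of_mem k (Finset.mem_coe.1 hx)
    rw [hc, mul_comm, mul_smul, hkx x (Finset.mem_coe.1 hx), smul_zero]
  | zero => exact smul_zero _
  | add x y _ _ hx hy => rw [smul_add, hx, hy, add_zero]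
  | smul a x _ hx => rw [smul_comm, hx, smul_zero]

theorem AlgC_zero {L F : Type} [AddCommGroup L] [Field F] (e : ℕ) (he : (e : F) ≠ 0) (t : L)
    (ht : e • t = 0) (w : F) : t ⊗ₜ[ℤ] w = 0 := by
  have h1 : w = (e : ℤ) • ((e : F)⁻¹ * w) := by
    rw [natCast_zsmul, nsmul_eq_mul, ← mul_assoc, mul_inv_cancel₀ he, one_mul]
  have h2 : (e : ℤ) • t = 0 := by rw [natCast_zsmul, ht]
  rw [h1, ← TensorProduct.smul_tmul, h2, TensorProduct.zero_tmul]

theorem AlgC_exp {L₀ L₁ F : Type} [AddCommGroup L₀] [AddCommGroup L₁] [Field F] {n : ℕ}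
    (e : ℕ) (he : (e : F) ≠ 0) (hT : ∀ t ∈ Submodule.torsion ℤ L₁, e • t = 0)
    (ε : Fin n → L₀) (ε' : Fin n → L₁) (M : Matrix (Fin n) (Fin n) ℤ) (δ : L₀ →ₗ[ℤ] L₁)
    (h : ∀ i, δ (ε i) - ∑ j, M j i • ε' j ∈ Submodule.torsion ℤ L₁) (u : Fin n → F) :
    ∑ i, δ (ε i) ⊗ₜ[ℤ] u i = ∑ j, ε' j ⊗ₜ[ℤ] (∑ i, (M j i : F) * u i) := by
  have h1 : ∀ i, δ (ε i) ⊗ₜ[ℤ] u i = ∑ j, ε' j ⊗ₜ[ℤ] ((M j i : F) * u i) := by
    intro i
    have h2 := AlgC_zero e he _ (hT _ (h i)) (u i)
    rw [TensorProduct.sub_tmul, sub_eq_zero] at h2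
    rw [h2, TensorProduct.sum_tmul]
    refine Finset.sum_congr rfl fun j _ => ?_
    rw [TensorProduct.smul_tmul, zsmul_eq_mul]
  simp_rw [h1, TensorProduct.tmul_sum]
  exact Finset.sum_comm

theorem AlgC_coord {L₀ L₁ : Type} [AddCommGroup L₀] [AddCommGroup L₁] {n m : ℕ}
    (b : Module.Basis (Fin m) ℤ (L₁ ⧸ Submodule.torsion ℤ L₁)) (ε : Fin n → L₀) (δ : L₀ →ₗ[ℤ] L₁)
    (w : Fin n → ℤ) (j : Fin m) :
    b.repr ((Submodule.torsion ℤ L₁).mkQ (δ (∑ i, w i • ε i))) j =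
      ∑ i, b.repr ((Submodule.torsion ℤ L₁).mkQ (δ (ε i))) j * w i := by
  rw [map_sum, map_sum, map_sum, Finsupp.finsetSum_apply]
  refine Finset.sum_congr rfl fun i _ => ?_
  rw [map_smul, map_smul, map_smul, Finsupp.smul_apply, smul_eq_mul, mul_comm]

theorem AlgC_bas {L : Type} [AddCommGroup L] (h : AddGroup.FG L) :
    ∃ n : ℕ, Nonempty (Module.Basis (Fin n) ℤ (L ⧸ Submodule.torsion ℤ L)) := by
  have hfin : Module.Finite ℤ L := Module.Finite.iff_addGroup_fg.2 h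
  have hfree : Module.Free ℤ (L ⧸ Submodule.torsion ℤ L) := inferInstance
  exact ⟨_, ⟨Module.finBasis ℤ _⟩⟩

theorem AlgC_main {L₀ L₁ : Type} [AddCommGroup L₀] [AddCommGroup L₁] (h0 : AddGroup.FG L₀)
    (h1 : AddGroup.FG L₁) (δf δg : L₀ →+ L₁) (s : ℕ) (hs : 0 < s)
    (hsur : ∀ y : L₁, ∃ x : L₀, δg x = s • y)
    (hinj : ∀ a b : ℤ, (a ≠ 0 ∨ b ≠ 0) → ∀ x : L₀,
      (∃ k : ℕ, 0 < k ∧ k • (a • δf x - b • δg x) = 0) → ∃ k : ℕ, 0 < k ∧ k • x = 0)
    (x₀ : L₀) (hx₀ : ∀ k : ℕ, 0 < k → k • x₀ ≠ 0) (N : ℕ) (hN : 0 < N) :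
    ∃ (p : ℕ) (_ : Fact p.Prime) (F : Type) (_ : Field F) (_ : CharP F p) (_ : Finite F)
      (μ : F) (v : L₀ ⊗[ℤ] F), ¬ p ∣ N ∧ (∀ m : ℤ, μ ≠ (m : F)) ∧ v ≠ 0 ∧
        TensorProduct.map δf.toIntLinearMap LinearMap.id v =
          TensorProduct.map δg.toIntLinearMap (LinearMap.mulLeft ℤ μ) v := by
  obtain ⟨n, ⟨b₀⟩⟩ := AlgC_bas h0
  obtain ⟨m, ⟨b₁⟩⟩ := AlgC_bas h1
  obtain ⟨e, he, hT⟩ := AlgC_kill h1
  set f : L₀ →ₗ[ℤ] L₁ := δf.toIntLinearMap with hf
  set g : L₀ →ₗ[ℤ] L₁ := δg.toIntLinearMap with hg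
  have hex0 : ∀ i, ∃ x : L₀, (Submodule.torsion ℤ L₀).mkQ x = b₀ i := fun i =>
    Submodule.mkQ_surjective _ _
  have hex1 : ∀ j, ∃ y : L₁, (Submodule.torsion ℤ L₁).mkQ y = b₁ j := fun j =>
    Submodule.mkQ_surjective _ _
  choose ε hε using hex0
  choose ε' hε' using hex1
  -- the basic nondegeneracy
  have hmk0 : ∀ x : L₀, (Submodule.torsion ℤ L₀).mkQ x = 0 ↔ ∃ k : ℕ, 0 < k ∧ k • x = 0 := by
    intro x
    rw [Submodule.mkQ_apply, Submodule.Quotient.mk_eq_zero, AlgC_tor]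
  have hmk1 : ∀ x : L₁, (Submodule.torsion ℤ L₁).mkQ x = 0 ↔ ∃ k : ℕ, 0 < k ∧ k • x = 0 := by
    intro x
    rw [Submodule.mkQ_apply, Submodule.Quotient.mk_eq_zero, AlgC_tor]
  have hw0 : ∀ w : Fin n → ℤ, (∃ k : ℕ, 0 < k ∧ k • (∑ i, w i • ε i) = 0) → w = 0 := by
    intro w hw
    have h2 := (hmk0 _).2 hw
    rw [map_sum] at h2
    simp_rw [map_smul, hε] at h2
    have h3 := (Fintype.linearIndependent_iff.1 b₀.linearIndependent) w h2
    funext i
    exact h3 i
  have hdeg : ∀ a b : ℤ, (a ≠ 0 ∨ b ≠ 0) → ∀ w : Fin n → ℤ,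
      (Submodule.torsion ℤ L₁).mkQ (a • f (∑ i, w i • ε i) - b • g (∑ i, w i • ε i)) = 0 →
      w = 0 := by
    intro a b hab w h
    exact hw0 w (hinj a b hab _ ((hmk1 _).1 h))
  -- equality of the ranks
  have hnm : n ≤ m := by
    have hli : LinearIndependent ℤ (fun i => (Submodule.torsion ℤ L₁).mkQ (g (ε i))) := by
      rw [Fintype.linearIndependent_iff]
      intro w hw
      have h2 : (Submodule.torsion ℤ L₁).mkQ ((0 : ℤ) • f (∑ i, w i • ε i) -
          (-1 : ℤ) • g (∑ i, w i • ε i)) = 0 := by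
        rw [zero_smul, zero_sub, neg_smul, one_smul, neg_neg, map_sum, map_sum, ← hw]
        refine Finset.sum_congr rfl fun i _ => ?_
        rw [map_smul, map_smul]
      have h3 := hdeg 0 (-1) (Or.inr (by norm_num)) w h2
      intro i
      rw [h3]
      rfl
    have hfin : Module.Finite ℤ (L₁ ⧸ Submodule.torsion ℤ L₁) := Module.Finite.of_basis b₁
    have h4 := hli.fintype_card_le_finrank
    rw [Fintype.card_fin, Module.finrank_eq_card_basis b₁, Fintype.card_fin] at h4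
    exact h4
  have hmn : m ≤ n := by
    have hx : ∀ j, ∃ x : L₀, δg x = s • ε' j := fun j => hsur _
    choose x hx using hx
    have hli : LinearIndependent ℤ (fun j => (Submodule.torsion ℤ L₀).mkQ (x j)) := by
      rw [Fintype.linearIndependent_iff]
      intro c hc
      have h2 : (Submodule.torsion ℤ L₀).mkQ (∑ j, c j • x j) = 0 := by
        rw [map_sum, ← hc]
        refine Finset.sum_congr rfl fun i _ => ?_
        rw [map_smul]
      obtain ⟨k, hk, h3⟩ := (hmk0 _).1 h2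
      have h4 : (k * s) • (∑ j, c j • ε' j) = 0 := by
        have h5 := congrArg δg h3
        rw [map_zero, map_nsmul, map_sum] at h5
        simp_rw [map_zsmul, hx] at h5
        rw [← h5, mul_smul]
        congr 1
        rw [Finset.smul_sum]
        refine Finset.sum_congr rfl fun j _ => ?_
        rw [smul_comm]
      have h6 := (hmk1 _).2 ⟨k * s, Nat.mul_pos hk hs, h4⟩
      rw [map_sum] at h6
      simp_rw [map_smul, hε'] at h6
      exact (Fintype.linearIndependent_iff.1 b₁.linearIndependent) c h6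
    have hfin : Module.Finite ℤ (L₀ ⧸ Submodule.torsion ℤ L₀) := Module.Finite.of_basis b₀
    have h4 := hli.fintype_card_le_finrank
    rw [Fintype.card_fin, Module.finrank_eq_card_basis b₀, Fintype.card_fin] at h4
    exact h4
  obtain rfl : n = m := le_antisymm hnm hmn
  -- the matrices
  let A : Matrix (Fin n) (Fin n) ℤ := fun j i => b₁.repr ((Submodule.torsion ℤ L₁).mkQ (f (ε i))) j
  let B : Matrix (Fin n) (Fin n) ℤ := fun j i => b₁.repr ((Submodule.torsion ℤ L₁).mkQ (g (ε i))) j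
  have hdet : ∀ a b : ℤ, (a ≠ 0 ∨ b ≠ 0) → (a • A - b • B).det ≠ 0 := by
    intro a b hab h
    obtain ⟨w, hw, h2⟩ := Matrix.exists_mulVec_eq_zero_iff.2 h
    apply hw
    refine hdeg a b hab w ?_
    apply b₁.repr.injective
    rw [map_zero]
    ext j
    have h3 := congrFun h2 j
    rw [map_sub, map_sub, map_smul, map_smul, map_smul, map_smul, Finsupp.sub_apply,
      Finsupp.smul_apply, Finsupp.smul_apply, AlgC_coord, AlgC_coord, Finsupp.zero_apply]
    have h4 : ((a • A - b • B).mulVec w) j =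
        a • ∑ i, A j i * w i - b • ∑ i, B j i * w i := by
      simp only [Matrix.mulVec, dotProduct, Matrix.sub_apply, Matrix.smul_apply, smul_eq_mul,
        Finset.mul_sum]
      rw [← Finset.sum_sub_distrib]
      refine Finset.sum_congr rfl fun i _ => ?_
      ring
    rw [h4] at h3
    exact h3
  let P : ℤ[X] := ((X : ℤ[X]) • (-B).map C + A.map C).det
  have hn : 0 < n := by
    rcases Nat.eq_zero_or_pos n with h | h
    · exfalso
      subst h
      have h2 : (Submodule.torsion ℤ L₀).mkQ x₀ = 0 := by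
        apply b₀.repr.injective
        ext i
        exact i.elim0
      obtain ⟨k, hk, h3⟩ := (hmk0 _).1 h2
      exact hx₀ k hk h3
    · exact h
  have hPdeg : 0 < P.natDegree := by
    have h2 : P.coeff (Fintype.card (Fin n)) = (-B).det := coeff_det_X_add_C_card (-B) A
    have h3 : (-B).det ≠ 0 := by
      have h4 := hdet 0 1 (Or.inr one_ne_zero)
      rwa [zero_smul, one_smul, zero_sub] at h4
    have h5 := le_natDegree_of_ne_zero (p := P) (n := Fintype.card (Fin n)) (by rw [h2]; exact h3)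
    rw [Fintype.card_fin] at h5
    omega
  have hPeval : ∀ (R : Type) [CommRing R] (r : R), (P.map (Int.castRingHom R)).eval r =
      (A.map (Int.castRingHom R) - r • B.map (Int.castRingHom R)).det := by
    intro R _ r
    have h2 : (P.map (Int.castRingHom R)).eval r = eval₂RingHom (Int.castRingHom R) r P := by
      rw [eval_map]
      rfl
    rw [h2]
    change eval₂RingHom (Int.castRingHom R) r (Matrix.det _) = _
    rw [RingHom.map_det]
    congr 1
    ext i j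
    have e1 : eval₂ (Int.castRingHom R) r ((X : ℤ[X]) * C (-B i j) + C (A i j)) =
        r * -((B i j : ℤ) : R) + ((A i j : ℤ) : R) := by
      rw [eval₂_add, eval₂_mul, eval₂_X, eval₂_C, eval₂_C, eq_intCast, eq_intCast, Int.cast_neg]
    have e2 : (A.map (Int.castRingHom R) - r • B.map (Int.castRingHom R)) i j =
        ((A i j : ℤ) : R) - r * ((B i j : ℤ) : R) := rfl
    rw [e2]
    refine Eq.trans e1 ?_
    ring
  have hPr : ∀ r : ℚ, aeval r P ≠ 0 := by
    intro r h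
    have h2 : (P.map (Int.castRingHom ℚ)).eval r = 0 := by
      rw [eval_map, ← h]
      rfl
    rw [hPeval] at h2
    have h3 : ((r.den : ℤ) • A - r.num • B).det = 0 := by
      have h4 : (((r.den : ℤ) • A - r.num • B).map (Int.castRingHom ℚ)) =
          (r.den : ℚ) • (A.map (Int.castRingHom ℚ) - r • B.map (Int.castRingHom ℚ)) := by
        ext i j
        have h5 : (r.num : ℚ) = r.den * r := (Rat.den_mul_eq_num r).symm
        simp only [Matrix.map_apply, Matrix.sub_apply, Matrix.smul_apply, smul_eq_mul, map_sub,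
          map_mul, eq_intCast, Int.cast_natCast, h5]
        ring
      have h6 := congrArg Matrix.det h4
      rw [Matrix.det_smul, h2, mul_zero] at h6
      have h7 : (Int.castRingHom ℚ) ((r.den : ℤ) • A - r.num • B).det = 0 := by
        rw [RingHom.map_det]
        exact h6
      rw [eq_intCast] at h7
      exact_mod_cast h7
    exact hdet _ _ (Or.inl (by exact_mod_cast r.den_nz)) h3
  obtain ⟨p, hp, F, hF, hch, hfinF, μ, hpN, hμ, hμm⟩ := NumT_main P hPdeg hPr (N * e)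
    (Nat.mul_pos hN he)
  have heF : (e : F) ≠ 0 := by
    intro h
    rw [CharP.cast_eq_zero_iff F p] at h
    exact hpN (h.mul_left N)
  rw [hPeval] at hμ
  obtain ⟨w, hw, hw2⟩ := Matrix.exists_mulVec_eq_zero_iff.2 hμ
  refine ⟨p, hp, F, hF, hch, hfinF, μ, ∑ i, ε i ⊗ₜ[ℤ] w i, fun h => hpN (h.mul_right e), hμm,
    ?_, ?_⟩
  · intro hv
    apply hw
    funext i
    have h2 := congrArg (fun z => TensorProduct.lid ℤ F (TensorProduct.map
      ((b₀.coord i).comp (Submodule.torsion ℤ L₀).mkQ) LinearMap.id z)) hv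
    simp only [map_sum, TensorProduct.map_tmul, LinearMap.comp_apply, hε, LinearMap.id_apply,
      TensorProduct.lid_tmul, map_zero, Module.Basis.coord_apply, Module.Basis.repr_self] at h2
    rw [Finset.sum_eq_single i] at h2
    · rw [Finsupp.single_eq_same, one_smul] at h2
      exact h2
    · intro j _ hj
      rw [Finsupp.single_eq_of_ne (Ne.symm hj), zero_smul]
    · intro h
      exact absurd (Finset.mem_univ _) h
  · rw [map_sum, map_sum]
    simp only [TensorProduct.map_tmul, LinearMap.id_apply, LinearMap.mulLeft_apply]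
    have hres : ∀ (δ : L₀ →ₗ[ℤ] L₁) (i : Fin n), δ (ε i) -
        ∑ j, (b₁.repr ((Submodule.torsion ℤ L₁).mkQ (δ (ε i))) j) • ε' j ∈
          Submodule.torsion ℤ L₁ := by
      intro δ i
      rw [← Submodule.Quotient.mk_eq_zero, ← Submodule.mkQ_apply, map_sub, map_sum]
      simp_rw [map_smul, hε']
      rw [b₁.sum_repr, sub_self]
    rw [AlgC_exp e heF hT ε ε' A f (hres f) w, AlgC_exp e heF hT ε ε' B g (hres g)
      (fun i => μ * w i)]
    refine Finset.sum_congr rfl fun j _ => ?_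
    congr 1
    have h3 := congrFun hw2 j
    simp only [Matrix.mulVec, dotProduct, Matrix.sub_apply, Matrix.smul_apply, smul_eq_mul,
      Matrix.map_apply, eq_intCast, Pi.zero_apply, sub_mul, Finset.sum_sub_distrib] at h3
    rw [sub_eq_zero] at h3
    rw [h3]
    refine Finset.sum_congr rfl fun i _ => ?_
    ring

end Pool.Agent.H75.CP
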