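import Pool.Agent.H75.CP.KilB

/-!
ROW BEp (50 lines).  If `s` kills `H^j(H;A)` for all `A : Rep ℤ H`, `j ≥ n`, and `p ∤ s`, then `CD (ZMod p) H (n+1)`: for `A : Rep (ZMod p) H` and `j ≥ n+1`, `s` kills `H^j(H;A)` (`KilB_main` from `resZ A`) and so does `p` (`H^j` is a `ZMod p`-module); Bezout, `KilA_one`.
-/

namespace Pool.Agent.H75.CP

open CategoryTheory CategoryTheory.Abelian CategoryTheory.Limits Pool.Agent.H5.CP

theorem BEp_main {H : Type} [Group H] (s n : ℕ)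
    (h : ∀ (A : Rep.{0} ℤ H) (j : ℕ), n ≤ j → Kill s A j) (p : ℕ) [Fact p.Prime]
    (hp : ¬ p ∣ s) : CD (ZMod p) H (n + 1) := by
  intro A j hj
  obtain ⟨m, rfl⟩ : ∃ m, j = m + 1 := ⟨j - 1, by omega⟩
  have h1 : Kill s (resZ A) (m + 1) := h _ _ (by omega)
  have h2 : Kill s A (m + 1) :=
    KilB_main (MulEquiv.refl H) (resZ A) A (AddEquiv.refl _) (fun _ _ => rfl) s m h1
  have h3 : Kill p A (m + 1) := by
    intro x
    rw [← Nat.cast_smul_eq_nsmul (ZMod p) p x, ZMod.natCast_self, zero_smul]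
  rw [← KilA_one]
  intro x
  have e1 : addOrderOf x ∣ s := addOrderOf_dvd_of_nsmul_eq_zero (h2 x)
  have e2 : addOrderOf x ∣ p := addOrderOf_dvd_of_nsmul_eq_zero (h3 x)
  have e3 : Nat.Coprime s p := ((Nat.Prime.coprime_iff_not_dvd Fact.out).2 hp).symm
  have e5 : addOrderOf x = 1 := Nat.eq_one_of_dvd_coprimes e3 e1 e2
  rw [AddMonoid.addOrderOf_eq_one_iff] at e5
  rw [e5, smul_zero]

end Pool.Agent.H75.CP
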