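import Pool.Agent.H75.CP.DefsO

/-!
ROW CXK (60 lines, group theory).  `E : AX Γ G A`, `f(a₁) = 1`, `K = j(ker f)`: the central extension `⟨t⟩ → Γ/K → G`, `t = [j(a₁)]`.  `π [x] = q x` (`QuotientGroup.lift`, `K ≤ ker q`).  `π[x] = 1`: `x = j(a)`, `a - f(a) a₁ ∈ ker f`, so `[x] = t^{f(a)}` (this is `CXK_j`).
`t` central; `t^n = 1`: `j(n a₁) ∈ K`, so `n a₁ = a` with `f(a) = 0` (`E.inj`), `n = 0`.
-/

namespace Pool.Agent.H75.CP

open CategoryTheory CategoryTheory.Abelian CategoryTheory.Limits Pool.Agent.H5.CP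

theorem CXK_j {Γ G A : Type} [Group Γ] [Group G] [AddCommGroup A] (E : AX Γ G A) (f : A →+ ℤ)
    (a₁ : A) (hf : f a₁ = 1) (K : Subgroup Γ) [K.Normal]
    (hK : ∀ x, x ∈ K ↔ ∃ a, f a = 0 ∧ E.j (Multiplicative.ofAdd a) = x) (a : A) :
    (QuotientGroup.mk (E.j (Multiplicative.ofAdd a)) : Γ ⧸ K) =
      (QuotientGroup.mk (E.j (Multiplicative.ofAdd a₁)) : Γ ⧸ K) ^ (f a) := by
  rw [← QuotientGroup.mk_zpow, QuotientGroup.eq, hK]
  refine ⟨-a + f a • a₁, ?_, ?_⟩
  · rw [map_add, map_neg, map_zsmul, hf, smul_eq_mul, mul_one, neg_add_cancel]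
  · rw [ofAdd_add, map_mul, ofAdd_neg, map_inv, ofAdd_zsmul, map_zpow]

theorem CXK_main {Γ G A : Type} [Group Γ] [Group G] [AddCommGroup A] (E : AX Γ G A)
    (f : A →+ ℤ) (a₁ : A) (hf : f a₁ = 1) (K : Subgroup Γ) [K.Normal]
    (hK : ∀ x, x ∈ K ↔ ∃ a, f a = 0 ∧ E.j (Multiplicative.ofAdd a) = x) :
    ∃ E' : CX (Γ ⧸ K) G, (∀ x : Γ, E'.π (QuotientGroup.mk x) = E.q x) ∧
      E'.t = QuotientGroup.mk (E.j (Multiplicative.ofAdd a₁)) := by
  have hq : ∀ x ∈ K, E.q x = 1 := by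
    intro x hx
    obtain ⟨a, -, ha⟩ := (hK x).1 hx
    exact (E.ker x).2 ⟨a, ha⟩
  have hl : ∀ x : Γ, QuotientGroup.lift K E.q hq (QuotientGroup.mk x) = E.q x := fun x => rfl
  refine ⟨{ π := QuotientGroup.lift K E.q hq
            t := QuotientGroup.mk (E.j (Multiplicative.ofAdd a₁))
            surj := ?_
            ker := ?_
            cent := ?_
            inf := ?_ }, hl, rfl⟩
  · intro g
    obtain ⟨x, hx⟩ := E.surj g
    exact ⟨QuotientGroup.mk x, hx⟩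
  · intro x
    induction x using QuotientGroup.induction_on with
    | H x =>
      constructor
      · intro h
        obtain ⟨a, ha⟩ := (E.ker x).1 h
        refine ⟨f a, ?_⟩
        rw [← ha]
        exact CXK_j E f a₁ hf K hK a
      · rintro ⟨n, hn⟩
        rw [hn, map_zpow, hl, (E.ker _).2 ⟨a₁, rfl⟩, one_zpow]
  · rw [Subgroup.mem_center_iff]
    intro g
    induction g using QuotientGroup.induction_on with
    | H x =>
      rw [← QuotientGroup.mk_mul, ← QuotientGroup.mk_mul,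
        Subgroup.mem_center_iff.1 (E.cent a₁) x]
  · intro n hn
    rw [← QuotientGroup.mk_zpow, QuotientGroup.eq_one_iff, hK] at hn
    obtain ⟨a, h1, h2⟩ := hn
    rw [← map_zpow, ← ofAdd_zsmul] at h2
    have h3 : a = n • a₁ := Multiplicative.ofAdd.injective (E.inj h2)
    rw [h3, map_zsmul, hf, smul_eq_mul, mul_one] at h1
    exact h1

end Pool.Agent.H75.CP
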