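import Pool.Agent.H75.CP.DefsO
import Pool.Agent.H75.CP.FunA
import Pool.Agent.H75.CP.KilB

/-!
ROW CoA (200 lines).  `E : CX H G`; call an `H`-module `M` coregular if `ρ(t) - 1` is onto.  `H` acts on itself by left multiplication.
`CoA_fun`: `FunR H M` is coregular.  Given `F`, we need `F'` with `t F'(t⁻¹y) - F'(y) = F(y)`.  Put `F(y) = y ψ(y)`, `F'(y) = y φ(y)`: the equation is `φ(t⁻¹y) - φ(y) = ψ(y)`.  Choose representatives `r` of the cosets of `⟨t⟩` (e.g. `r(y) = E.s (E.π y)`), `y = t^n r` with a unique `n = n(y)`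
 (`E.inf`), `n(t⁻¹y) = n(y) - 1`, `r(t⁻¹y) = r(y)`; `φ(t^n r) = U(n)` with `U : ℤ → M`, `U(n-1) - U(n) = ψ(t^n r)`, `U(0) = 0` (`Int.induction`, or sums: `U(n) = -Σ_{i=1}^n ψ(t^i r)` for `n ≥ 0`, `U(n) = Σ_{i=n+1}^0 ψ(t^i r)` for `n ≤ 0`; existence of such a `U` for an arbitrary function on `ℤ` is a separate lemma).
`CoA_qb`: `QB H M` is coregular (quotient of `FunR H M`).
`CoA_seq`: for coregular `M` the sequence of `G`-modules `0 → M^t → (FunR H M)^t → (QB H M)^t → 0` is short exact (maps induced by `QBi`, `QBp`): onto: lift `z ∈ (QB H M)^t` to `F`, `tF - F` is a constant function `m'`, `m' = t m - m`, and `F - m` is an invariant lift.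
`CoA_ac`: `(FunR H M)^t` is acyclic: it is isomorphic to `FunR G (Rep.trivial k G M.V)` by `F ↦ (g ↦ y⁻¹ F(y))`, `y` any lift of `g` (independent of the lift because `t F(t⁻¹y) = F(y)`); equivariant: `(hF)` goes to `y⁻¹ h F(h⁻¹y)`.  `FunA_free` for the free `G`-set `G`, and `KilB_main` or `KilD_iso`.
-/

namespace Pool.Agent.H75.CP

open CategoryTheory CategoryTheory.Abelian CategoryTheory.Limits Pool.Agent.H5.CP

/-- solution of the difference equation on `ℤ` -/
theorem CoA_U {V : Type} [AddCommGroup V] (f : ℤ → V) :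
    ∃ U : ℤ → V, ∀ n : ℤ, U (n - 1) - U n = f n := by
  refine ⟨fun n => (∑ i ∈ Finset.range (-n).toNat, f (-(i : ℤ))) -
    ∑ i ∈ Finset.range n.toNat, f ((i : ℤ) + 1), ?_⟩
  intro n
  show (∑ i ∈ Finset.range (-(n - 1)).toNat, f (-(i : ℤ))) -
      (∑ i ∈ Finset.range (n - 1).toNat, f ((i : ℤ) + 1)) -
      ((∑ i ∈ Finset.range (-n).toNat, f (-(i : ℤ))) -
      ∑ i ∈ Finset.range n.toNat, f ((i : ℤ) + 1)) = f n
  rcases Int.lt_or_le 0 n with hn | hn
  · obtain ⟨m, rfl⟩ : ∃ m : ℕ, n = (m : ℤ) + 1 := ⟨(n - 1).toNat, by omega⟩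
    have h1 : (-((m : ℤ) + 1 - 1)).toNat = 0 := by omega
    have h2 : (((m : ℤ) + 1 - 1)).toNat = m := by omega
    have h3 : (-((m : ℤ) + 1)).toNat = 0 := by omega
    have h4 : ((m : ℤ) + 1).toNat = m + 1 := by omega
    rw [h1, h2, h3, h4, Finset.sum_range_succ]
    abel
  · obtain ⟨m, rfl⟩ : ∃ m : ℕ, n = -(m : ℤ) := ⟨(-n).toNat, by omega⟩
    have h1 : (-(-(m : ℤ) - 1)).toNat = m + 1 := by omega
    have h2 : ((-(m : ℤ) - 1)).toNat = 0 := by omega
    have h3 : (-(-(m : ℤ))).toNat = m := by omega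
    have h4 : (-(m : ℤ)).toNat = 0 := by omega
    rw [h1, h2, h3, h4, Finset.sum_range_succ]
    abel

/-- the exponent of `t` -/
theorem CoA_n {H G : Type} [Group H] [Group G] (E : CX H G) :
    ∃ u : H → ℤ, (∀ y, y = E.t ^ (u y) * E.s (E.π y)) ∧ ∀ y, u (E.t⁻¹ * y) = u y - 1 := by
  have h1 : ∀ y : H, ∃ n : ℤ, y = E.t ^ n * E.s (E.π y) := by
    intro y
    have h2 : E.π (y * (E.s (E.π y))⁻¹) = 1 := by
      rw [map_mul, map_inv, E.π_s, mul_inv_cancel]
    obtain ⟨n, hn⟩ := (E.ker _).1 h2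
    exact ⟨n, by rw [← hn, inv_mul_cancel_right]⟩
  choose u hu using h1
  refine ⟨u, hu, fun y => ?_⟩
  have hπ : E.π (E.t⁻¹ * y) = E.π y := by
    have h3 : E.π E.t = 1 := (E.ker _).2 ⟨1, by rw [zpow_one]⟩
    rw [map_mul, map_inv, h3, inv_one, one_mul]
  have h4 := hu (E.t⁻¹ * y)
  rw [hπ] at h4
  have h5 : E.t⁻¹ * (E.t ^ (u y) * E.s (E.π y)) = E.t ^ (u (E.t⁻¹ * y)) * E.s (E.π y) := by
    rw [← hu y]
    exact h4
  rw [← mul_assoc] at h5
  have h6 : E.t⁻¹ * E.t ^ (u y) = E.t ^ (u (E.t⁻¹ * y)) := mul_right_cancel h5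
  have h7 : E.t ^ (u (E.t⁻¹ * y) - (u y - 1)) = 1 := by
    rw [zpow_sub, ← h6, zpow_sub_one]
    group
  have h8 := E.inf _ h7
  omega

/-- the inverse action -/
theorem CoA_inv {k G : Type} [CommRing k] [Group G] (B : Rep.{0} k G) (g : G) (x : B.V) :
    B.ρ g (B.ρ g⁻¹ x) = x := by
  have h := FunA_inv B g⁻¹ x
  rwa [inv_inv] at h

theorem CoA_fun {k H G : Type} [CommRing k] [Group H] [Group G] (E : CX H G) (M : Rep.{0} k H)
    (y : (FunR H M).V) : ∃ x : (FunR H M).V, (FunR H M).ρ E.t x - x = y := by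
  obtain ⟨F, hF⟩ : ∃ F : H → M.V, F = y := ⟨y, rfl⟩
  obtain ⟨u, hu1, hu2⟩ := CoA_n E
  choose U hU using fun g : G => CoA_U (fun n : ℤ =>
    M.ρ (E.t ^ n * E.s g)⁻¹ (F (E.t ^ n * E.s g)))
  have hπ : ∀ y : H, E.π (E.t⁻¹ * y) = E.π y := by
    intro y
    have h3 : E.π E.t = 1 := (E.ker _).2 ⟨1, by rw [zpow_one]⟩
    rw [map_mul, map_inv, h3, inv_one, one_mul]
  have key : ∀ z : H, M.ρ E.t (M.ρ (E.t⁻¹ * z) (U (E.π (E.t⁻¹ * z)) (u (E.t⁻¹ * z)))) -
      M.ρ z (U (E.π z) (u z)) = F z := by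
    intro z
    have h1 : ∀ x : M.V, M.ρ E.t (M.ρ (E.t⁻¹ * z) x) = M.ρ z x := by
      intro x
      rw [← Module.End.mul_apply, ← map_mul, mul_inv_cancel_left]
    rw [h1, hπ, hu2, ← map_sub, hU, ← hu1 z]
    exact CoA_inv M z (F z)
  refine ⟨(fun z : H => M.ρ z (U (E.π z) (u z)) : H → M.V), ?_⟩
  rw [← hF]
  funext z
  exact key z

theorem CoA_qb {k H G : Type} [CommRing k] [Group H] [Group G] (E : CX H G) (M : Rep.{0} k H)
    (y : (QB H M).V) : ∃ x : (QB H M).V, (QB H M).ρ E.t x - x = y := by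
  obtain ⟨F, rfl⟩ := Submodule.Quotient.mk_surjective _ y
  obtain ⟨F', hF'⟩ := CoA_fun E M F
  exact ⟨(Submodule.Quotient.mk F' : (H → M.V) ⧸ cst k H M.V),
    congrArg (fun z : H → M.V => (Submodule.Quotient.mk z : (H → M.V) ⧸ cst k H M.V)) hF'⟩

/-- functoriality of the invariants of `t` -/
noncomputable def CoA_m {k H G : Type} [CommRing k] [Group H] [Group G] (E : CX H G)
    {M N : Rep.{0} k H} (f : M ⟶ N) : InvR E M ⟶ InvR E N :=
  Rep.ofHom ⟨{ toFun := fun m => (show (InvR E N).V from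
                (⟨f.hom (Inv E M m), by
                  exact (Rep.hom_comm_apply f E.t (Inv E M m)).symm.trans
                    (congrArg f.hom (Inv_mem E M m))⟩ : Invs E N))
               map_add' := by
                intro a b
                apply Subtype.ext
                exact map_add f.hom _ _
               map_smul' := by
                intro r a
                apply Subtype.ext
                exact map_smul f.hom _ _ }, by
    intro g
    apply LinearMap.ext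
    intro m
    apply Subtype.ext
    exact Rep.hom_comm_apply f (E.s g) (Inv E M m)⟩

theorem CoA_m_inv {k H G : Type} [CommRing k] [Group H] [Group G] (E : CX H G)
    {M N : Rep.{0} k H} (f : M ⟶ N) (m : (InvR E M).V) :
    Inv E N ((CoA_m E f).hom m) = f.hom (Inv E M m) := rfl

/-- the element of the invariants -/
def CoA_mk {k H G : Type} [CommRing k] [Group H] [Group G] (E : CX H G) {M : Rep.{0} k H}
    (m : M.V) (hm : M.ρ E.t m = m) : (InvR E M).V := (⟨m, hm⟩ : Invs E M)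

theorem CoA_mk_inv {k H G : Type} [CommRing k] [Group H] [Group G] (E : CX H G)
    {M : Rep.{0} k H} (m : M.V) (hm : M.ρ E.t m = m) : Inv E M (CoA_mk E m hm) = m := rfl

theorem CoA_seq {k H G : Type} [CommRing k] [Group H] [Group G] (E : CX H G) (M : Rep.{0} k H)
    (hM : ∀ y : M.V, ∃ x : M.V, M.ρ E.t x - x = y) :
    ∃ S : ShortComplex (Rep.{0} k G), S.ShortExact ∧ Nonempty (S.X₁ ≅ InvR E M) ∧
      Nonempty (S.X₂ ≅ InvR E (FunR H M)) ∧ Nonempty (S.X₃ ≅ InvR E (QB H M)) := by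
  refine ⟨ShortComplex.mk (CoA_m E (QBi H M)) (CoA_m E (QBp H M)) ?_, ?_, ⟨Iso.refl _⟩,
    ⟨Iso.refl _⟩, ⟨Iso.refl _⟩⟩
  · ext m
    apply Subtype.ext
    exact (Submodule.Quotient.mk_eq_zero _).2 ⟨Inv E M m, rfl⟩
  · refine VTop_shortExact _ ?_ ?_ ?_
    · intro b b' h
      apply Inv_inj E M
      have h1 : (fun _ : H => Inv E M b) = (fun _ : H => Inv E M b') :=
        congrArg (fun z : (InvR E (FunR H M)).V => Inv E (FunR H M) z) h
      exact congrFun h1 1
    · intro z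
      obtain ⟨F, hF⟩ := Submodule.Quotient.mk_surjective _ (Inv E (QB H M) z)
      have hF1 : ((QB H M).ρ E.t (Inv E (QB H M) z)) = Inv E (QB H M) z := Inv_mem E (QB H M) z
      have hF2 : (Submodule.Quotient.mk ((FunR H M).ρ E.t F : H → M.V) :
          (H → M.V) ⧸ cst k H M.V) = Submodule.Quotient.mk F := by
        have h0 : ((QB H M).ρ E.t (Submodule.Quotient.mk F : (H → M.V) ⧸ cst k H M.V)) =
            (Submodule.Quotient.mk ((FunR H M).ρ E.t F : H → M.V) :
          (H → M.V) ⧸ cst k H M.V) := rfl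
        exact h0.symm.trans ((congrArg ((QB H M).ρ E.t) hF).trans (hF1.trans hF.symm))
      obtain ⟨m', hm'⟩ := (Submodule.Quotient.eq (cst k H M.V)).1 hF2
      obtain ⟨m, hm⟩ := hM m'
      have h1 : ∀ y : H, M.ρ E.t (F (E.t⁻¹ * y)) - F y = m' := fun y => congrFun hm' y
      have h2 : (FunR H M).ρ E.t (fun y => F y - m : H → M.V) = (fun y => F y - m : H → M.V) := by
        funext y
        show M.ρ E.t (F (E.t⁻¹ * y) - m) = F y - m
        have h3 := h1 y
        rw [← hm] at h3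
        rw [map_sub]
        have h4 : M.ρ E.t (F (E.t⁻¹ * y)) = M.ρ E.t m - m + F y := by rw [← h3]; abel
        rw [h4]
        abel
      refine ⟨CoA_mk E (M := FunR H M) (fun y => F y - m : H → M.V) h2, ?_⟩
      apply Inv_inj E (QB H M)
      refine Eq.trans ?_ hF
      show (Submodule.Quotient.mk (fun y => F y - m : H → M.V) : (H → M.V) ⧸ cst k H M.V) =
        Submodule.Quotient.mk F
      refine (Submodule.Quotient.eq (cst k H M.V)).2 ⟨-m, ?_⟩
      funext y
      show F y - m - F y = -m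
      abel
    · intro F hF
      have h0 : (Submodule.Quotient.mk (Inv E (FunR H M) F : H → M.V) :
          (H → M.V) ⧸ cst k H M.V) = 0 :=
        congrArg (fun z : (InvR E (QB H M)).V => Inv E (QB H M) z) hF
      obtain ⟨b, hb⟩ := (Submodule.Quotient.mk_eq_zero (cst k H M.V)).1 h0
      have h1 := Inv_mem E (FunR H M) F
      have h2 : M.ρ E.t b = b := by
        have h3 : (FunR H M).ρ E.t (fun _ : H => b : H → M.V) = (fun _ : H => b : H → M.V) := by
          rw [← hb]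
          exact h1
        exact congrFun h3 1
      refine ⟨CoA_mk E b h2, ?_⟩
      apply Inv_inj E (FunR H M)
      exact hb.symm

theorem CoA_ac {k H G : Type} [CommRing k] [Group H] [Group G] (E : CX H G) (M : Rep.{0} k H)
    (j : ℕ) : IsZero (groupCohomology (InvR E (FunR H M)) (j + 1)) := by
  have h0 : Kill 1 (FunR G (Rep.trivial k G M.V)) (j + 1) := by
    rw [KilA_one]
    refine FunA_free G (Rep.trivial k G M.V) j fun g y hgy => ?_
    exact mul_eq_right.1 hgy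
  rw [← KilA_one]
  have hsm : ∀ Φ : G → M.V, (FunR H M).ρ E.t (fun y => M.ρ y (Φ (E.π y)) : H → M.V) =
      (fun y => M.ρ y (Φ (E.π y)) : H → M.V) := by
    intro Φ
    funext y
    show M.ρ E.t (M.ρ (E.t⁻¹ * y) (Φ (E.π (E.t⁻¹ * y)))) = M.ρ y (Φ (E.π y))
    have h3 : E.π E.t = 1 := (E.ker _).2 ⟨1, by rw [zpow_one]⟩
    rw [← Module.End.mul_apply, ← map_mul, mul_inv_cancel_left, map_mul, map_inv, h3, inv_one,
      one_mul]
  let a : (G → M.V) →+ (InvR E (FunR H M)).V :=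
    { toFun := fun Φ => CoA_mk E (M := FunR H M) (fun y => M.ρ y (Φ (E.π y)) : H → M.V) (hsm Φ)
      map_zero' := by
        apply Inv_inj E (FunR H M)
        funext y
        exact map_zero (M.ρ y)
      map_add' := by
        intro Φ Φ'
        apply Inv_inj E (FunR H M)
        funext y
        exact map_add (M.ρ y) _ _ }
  have ha : ∀ (Φ : G → M.V) (y : H), (Inv E (FunR H M) (a Φ) : H → M.V) y = M.ρ y (Φ (E.π y)) :=
    fun _ _ => rfl
  have hinj : Function.Injective a := by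
    intro Φ Φ' h
    funext g
    have h1 : (Inv E (FunR H M) (a Φ) : H → M.V) (E.s g) =
        (Inv E (FunR H M) (a Φ') : H → M.V) (E.s g) := by rw [h]
    rw [ha, ha, E.π_s] at h1
    have h2 := congrArg (M.ρ (E.s g)⁻¹) h1
    rwa [FunA_inv, FunA_inv] at h2
  have hsurj : Function.Surjective a := by
    intro F
    have h1 := Inv_mem E (FunR H M) F
    obtain ⟨F', hF'⟩ : ∃ F' : H → M.V, F' = Inv E (FunR H M) F := ⟨_, rfl⟩
    have h2 : ∀ (n : ℤ) (y : H), M.ρ (E.t ^ n) (F' ((E.t ^ n)⁻¹ * y)) = F' y := by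
      intro n y
      have h3 := Invs_zpow E (FunR H M) n (Inv E (FunR H M) F) h1
      rw [← hF'] at h3
      exact congrFun h3 y
    refine ⟨fun g => M.ρ (E.s g)⁻¹ (F' (E.s g)), ?_⟩
    apply Inv_inj E (FunR H M)
    rw [← hF']
    funext y
    refine (ha _ y).trans ?_
    obtain ⟨u, hu1, hu2⟩ := CoA_n E
    have h4 := h2 (u y) y
    have h5 : (E.t ^ (u y))⁻¹ * y = E.s (E.π y) := by
      have h6 := hu1 y
      calc (E.t ^ (u y))⁻¹ * y = (E.t ^ (u y))⁻¹ * (E.t ^ (u y) * E.s (E.π y)) := by rw [← h6]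
        _ = E.s (E.π y) := inv_mul_cancel_left _ _
    rw [h5] at h4
    have h7 : y * (E.s (E.π y))⁻¹ = E.t ^ (u y) := by
      have h6 := hu1 y
      calc y * (E.s (E.π y))⁻¹ = (E.t ^ (u y) * E.s (E.π y)) * (E.s (E.π y))⁻¹ := by rw [← h6]
        _ = E.t ^ (u y) := mul_inv_cancel_right _ _
    show M.ρ y (M.ρ (E.s (E.π y))⁻¹ (F' (E.s (E.π y)))) = F' y
    rw [← Module.End.mul_apply, ← map_mul, h7]
    exact h4
  refine KilB_main (MulEquiv.refl G) (FunR G (Rep.trivial k G M.V)) (InvR E (FunR H M))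
    (AddEquiv.ofBijective a ⟨hinj, hsurj⟩) ?_ 1 j h0
  intro g Φ
  apply Inv_inj E (FunR H M)
  have h1 := InvR_ρ E (FunR H M) (E.s g) (a Φ)
  rw [E.π_s] at h1
  refine Eq.trans ?_ h1.symm
  funext y
  show M.ρ y (Φ (g⁻¹ * E.π y)) = M.ρ (E.s g) (M.ρ ((E.s g)⁻¹ * y) (Φ (E.π ((E.s g)⁻¹ * y))))
  rw [← Module.End.mul_apply, ← map_mul, mul_inv_cancel_left, map_mul, map_inv, E.π_s]

end Pool.Agent.H75.CP
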