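import Pool.Agent.H75.CP.KilA
import Pool.Agent.H5.CP.LesA

/-!
ROW KilD (80 lines).  `KilD_pi`: a cochain with values in a product is a family of cochains; `dd` is computed componentwise; use `KilA_iff` and choice.
`KilD_coind`: Shapiro (`groupCohomology.coindIso`, see `LesA_coind`); `KilD_iso`: functoriality (`LesA_iso`).
-/

namespace Pool.Agent.H75.CP

open CategoryTheory CategoryTheory.Abelian CategoryTheory.Limits Pool.Agent.H5.CP

theorem KilD_ofIso {k : Type} [CommRing k] {X Y : ModuleCat.{0} k} (e : X ≅ Y) (m : ℕ)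
    (h : ∀ y : Y, m • y = 0) (x : X) : m • x = 0 := by
  have h1 : e.inv.hom (e.hom.hom (m • x)) = m • x := by
    have h2 := congrArg (fun f => f.hom (m • x)) e.hom_inv_id
    exact h2
  rw [← h1, map_nsmul, h, map_zero]

theorem KilD_dd {k G : Type} [CommRing k] [Group G] {ι : Type} (A : ι → Rep.{0} k G) (n : ℕ)
    (f : (Fin n → G) → PiR A) (y : Fin (n + 1) → G) (i : ι) :
    (dd (PiR A) n f y : ∀ i, (A i).V) i = dd (A i) n (fun x => (f x : ∀ i, (A i).V) i) y := by
  let ev : (PiR A) →+ (A i) := Pi.evalAddMonoidHom (fun i => (A i).V) i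
  have hev : ∀ z : PiR A, ev z = (z : ∀ i, (A i).V) i := fun _ => rfl
  have h0 : ev (dd (PiR A) n f y) = dd (A i) n (fun x => (f x : ∀ i, (A i).V) i) y := by
    unfold dd
    rw [map_add, map_sum]
    congr 1
  exact h0

theorem KilD_pi {k G : Type} [CommRing k] [Group G] {ι : Type} (A : ι → Rep.{0} k G) (m n : ℕ)
    (h : ∀ i, Kill m (A i) (n + 1)) : Kill m (PiR A) (n + 1) := by
  rw [KilA_iff]
  intro f hf
  have h1 : ∀ i, ∃ g : (Fin n → G) → A i, dd (A i) n g = m • fun x => (f x : ∀ i, (A i).V) i := by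
    intro i
    refine (KilA_iff m (A i) n).1 (h i) (fun x => (f x : ∀ i, (A i).V) i) ?_
    funext y
    rw [← KilD_dd, hf]
    rfl
  choose g hg using h1
  refine ⟨fun x i => g i x, ?_⟩
  funext y
  have h2 : ∀ i, (dd (PiR A) n (fun x i => g i x) y : ∀ i, (A i).V) i =
      ((m • f) y : ∀ i, (A i).V) i := by
    intro i
    refine (KilD_dd A n (fun x i => g i x) y i).trans ?_
    exact congrFun (hg i) y
  exact funext h2

theorem KilD_coind {k G : Type} [CommRing k] [Group G] (S : Subgroup G) (A : Rep.{0} k S)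
    (m j : ℕ) : Kill m (Rep.coind S.subtype A) j ↔ Kill m A j := by
  exact ⟨fun h => KilD_ofIso (groupCohomology.coindIso A j).symm m h,
    fun h => KilD_ofIso (groupCohomology.coindIso A j) m h⟩

theorem KilD_iso {k G : Type} [CommRing k] [Group G] {A B : Rep.{0} k G}
    (e : Nonempty (A ≅ B)) (m j : ℕ) (h : Kill m B j) : Kill m A j := by
  exact KilD_ofIso ((groupCohomology.functor k G j).mapIso e.some) m h

end Pool.Agent.H75.CP
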