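import Pool.Agent.H75.CP.CoA
import Pool.Agent.H75.CP.KilC
import Pool.Agent.H75.CP.KilD

/-!
ROW CoB (100 lines).  For a coregular `H`-module `M` (`ρ(t) - 1` onto): if `s` kills `H^{j+1}(H;M)` then `s` kills `H^{j+1}(G;M^t)`.  Induction on `j`, for all `M`.
`j = 0` (`KilA_iff`, cochains of degree 1): `f : G → M^t` a cocycle, `f'(h) = f(π h)` is a cocycle of `H` in `M`, so `s f'(h) = h m - m` for some `m ∈ M`.  For `h = t`: `f(1) = 0`, so `t m = m`: `m ∈ M^t` and `s f(g) = g m - m`.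
`j + 1`: `QSe_main H M` and `KilC_3` (`FunR H M` acyclic: `FunA_free` for the free `H`-set `H`): `s` kills `H^{j+1}(H; QB H M)`; `QB H M` is coregular (`CoA_qb`), so by induction `s` kills `H^{j+1}(G;(QB H M)^t)`; `CoA_seq`, `CoA_ac`, `KilC_1` (`KilD_iso`): `s` kills `H^{j+2}(G;M^t)`.
(`H` is non-empty; products `1 * s`.)
-/

namespace Pool.Agent.H75.CP

open CategoryTheory CategoryTheory.Abelian CategoryTheory.Limits Pool.Agent.H5.CP

/-- the inclusion of the invariants as an additive map -/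
def CoB_i {k H G : Type} [CommRing k] [Group H] [Group G] (E : CX H G) (M : Rep.{0} k H) :
    (InvR E M).V →+ M.V where
  toFun := Inv E M
  map_zero' := rfl
  map_add' := fun _ _ => rfl

theorem CoB_dd {k H G : Type} [CommRing k] [Group H] [Group G] (E : CX H G) (M : Rep.{0} k H)
    (n : ℕ) (f : (Fin n → G) → InvR E M) (x : Fin (n + 1) → H) :
    Inv E M (dd (InvR E M) n f (fun i => E.π (x i))) =
      dd M n (fun y => Inv E M (f fun i => E.π (y i))) x := by
  have h2 : ∀ j : Fin (n + 1), (fun i => E.π (Fin.contractNth j (· * ·) x i))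
      = Fin.contractNth j (· * ·) (fun i => E.π (x i)) := fun j =>
    Fin.comp_contractNth (· * ·) (· * ·) (f := E.π) (fun x y => map_mul E.π x y) j x
  have h3 : ∀ z, Inv E M z = CoB_i E M z := fun _ => rfl
  have h4 : CoB_i E M ((InvR E M).ρ (E.π (x 0)) (f fun i => E.π (x i.succ))) =
      M.ρ (x 0) (CoB_i E M (f fun i => E.π (x i.succ))) := InvR_ρ E M (x 0) _
  simp only [h3]
  unfold dd
  rw [map_add, map_sum]
  refine congrArg₂ (· + ·) h4 (Finset.sum_congr rfl fun j _ => ?_)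
  rw [map_zsmul, ← h2]

theorem CoB_0 {k H G : Type} [CommRing k] [Group H] [Group G] (E : CX H G) (s : ℕ)
    (M : Rep.{0} k H) (h : Kill s M (0 + 1)) : Kill s (InvR E M) (0 + 1) := by
  rw [KilA_iff] at h ⊢
  intro f hf
  obtain ⟨g, hg⟩ := h (fun y => Inv E M (f fun i => E.π (y i))) (by
    funext x
    have h1 := CoB_dd E M 1 f x
    rw [hf] at h1
    exact h1.symm)
  have hsub : ∀ a b : Fin 0 → H, a = b := fun a b => Subsingleton.elim a b
  have hπ : E.π E.t = 1 := (E.ker _).2 ⟨1, by rw [zpow_one]⟩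
  -- value at 1
  have hf1 : f (fun _ => 1) = 0 := by
    have h1 := congrFun hf (fun _ => 1)
    unfold dd at h1
    rw [Fin.sum_univ_two] at h1
    have e0 : Fin.contractNth (0 : Fin 2) (· * ·) (fun _ : Fin 2 => (1 : G)) = fun _ => 1 := by
      funext i
      simp [Fin.contractNth]
    have e1 : Fin.contractNth (1 : Fin 2) (· * ·) (fun _ : Fin 2 => (1 : G)) = fun _ => 1 := by
      funext i
      simp [Fin.contractNth]
    rw [e0, e1, map_one] at h1
    simpa using h1
  have hm : ∀ y : Fin 1 → H, M.ρ (y 0) (g Fin.elim0) - g Fin.elim0 =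
      s • Inv E M (f fun i => E.π (y i)) := by
    intro y
    have h1 := congrFun hg y
    unfold dd at h1
    rw [Fin.sum_univ_one] at h1
    rw [hsub (fun i : Fin 0 => y i.succ) Fin.elim0,
      hsub (Fin.contractNth 0 (· * ·) y) Fin.elim0] at h1
    refine Eq.trans ?_ h1
    simp [sub_eq_add_neg]
  have hmt : M.ρ E.t (g Fin.elim0) = g Fin.elim0 := by
    have h1 := hm (fun _ => E.t)
    rw [hπ] at h1
    have h2 : Inv E M (f fun _ => 1) = 0 := by rw [hf1]; rfl
    rw [h2, smul_zero] at h1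
    exact sub_eq_zero.1 h1
  refine ⟨fun _ => CoA_mk E (g Fin.elim0) hmt, ?_⟩
  funext x
  apply Inv_inj E M
  have hx : x = fun i => E.π (E.s (x i)) := by
    funext i
    rw [E.π_s]
  have h5 := CoB_dd E M 0 (fun _ => CoA_mk E (g Fin.elim0) hmt) (fun i => E.s (x i))
  rw [← hx] at h5
  refine h5.trans ?_
  have h6 := hm (fun i => E.s (x i))
  rw [← hx] at h6
  have h7 : Inv E M ((s • f) x) = s • Inv E M (f x) := map_nsmul (CoB_i E M) s (f x)
  rw [h7, ← h6]
  unfold dd
  rw [Fin.sum_univ_one]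
  show M.ρ (E.s (x 0)) (g Fin.elim0) + ((-1 : ℤ) ^ (((0 : Fin 1) : ℕ) + 1)) • (g Fin.elim0) =
    M.ρ (E.s (x 0)) (g Fin.elim0) - g Fin.elim0
  simp [sub_eq_add_neg]

theorem CoB_main {k H G : Type} [CommRing k] [Group H] [Group G] (E : CX H G) (s j : ℕ)
    (M : Rep.{0} k H) (hM : ∀ y : M.V, ∃ x : M.V, M.ρ E.t x - x = y)
    (h : Kill s M (j + 1)) : Kill s (InvR E M) (j + 1) := by
  induction j generalizing M with
  | zero => exact CoB_0 E s M h
  | succ j ih =>
    have h2 : Kill 1 (FunR H M) (j + 1) := by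
      rw [KilA_one]
      exact FunA_free H M j fun g y hgy => mul_eq_right.1 hgy
    have h3 : Kill (1 * s) (QB H M) (j + 1) := KilC_3 (QSe_main H M) (j + 1) 1 s h2 h
    rw [one_mul] at h3
    have h4 := ih (QB H M) (CoA_qb E M) h3
    obtain ⟨S, hS, ⟨i1⟩, i2, i3⟩ := CoA_seq E M hM
    have h5 : Kill s S.X₃ (j + 1) := KilD_iso i3 s (j + 1) h4
    have h6 : Kill 1 S.X₂ (j + 1 + 1) :=
      KilD_iso i2 1 (j + 1 + 1) ((KilA_one _ _).2 (CoA_ac E M (j + 1)))
    have h7 := KilC_1 hS (j + 1) s 1 h5 h6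
    rw [mul_one] at h7
    exact KilD_iso ⟨i1.symm⟩ s (j + 1 + 1) h7

end Pool.Agent.H75.CP
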