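import Pool.Agent.H5.CP.GDef
import Pool.Agent.H5.CP.WFree
import Pool.Agent.H5.CP.EDef

/-!
MP_37b730_gt, strong form (helper75): definitions.
-/

namespace Pool.Agent.H75.CP

open CategoryTheory CategoryTheory.Abelian CategoryTheory.Limits Pool.Agent.H5.CP

/-- `m` kills `H^j(G;A)` -/
def Kill {k G : Type} [CommRing k] [Group G] (m : ℕ) (A : Rep.{0} k G) (j : ℕ) : Prop :=
  ∀ x : groupCohomology A j, m • x = 0

/-- The module of functions `Y → B` with `(gF)(y) = g F(g⁻¹ y)`. -/
noncomputable def FunR {k G : Type} [CommRing k] [Group G] (Y : Type) [MulAction G Y]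
    (B : Rep.{0} k G) : Rep.{0} k G :=
  Rep.of (X := Y → B.V)
    ({ toFun := fun g =>
        { toFun := fun F y => B.ρ g (F (g⁻¹ • y))
          map_add' := by intro F F'; funext y; simp
          map_smul' := by intro r F; funext y; simp }
       map_one' := by ext F y; simp
       map_mul' := by
        intro g h
        apply LinearMap.ext
        intro F
        funext y
        simp [mul_smul] } : Representation k G (Y → B.V))

lemma FunR_ρ {k G : Type} [CommRing k] [Group G] (Y : Type) [MulAction G Y]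
    (B : Rep.{0} k G) (g : G) (F : Y → B.V) (y : Y) :
    ((FunR Y B).ρ g F : Y → B.V) y = B.ρ g (F (g⁻¹ • y)) := rfl

/-- product of a family of representations -/
noncomputable def PiR {k G : Type} [CommRing k] [Group G] {ι : Type} (A : ι → Rep.{0} k G) :
    Rep.{0} k G :=
  Rep.of (X := ∀ i, (A i).V)
    ({ toFun := fun g =>
        { toFun := fun x i => (A i).ρ g (x i)
          map_add' := by intro F F'; funext y; simp
          map_smul' := by intro r F; funext y; simp }
       map_one' := by ext F y; simp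
       map_mul' := by
        intro g h
        apply LinearMap.ext
        intro F
        funext y
        simp } : Representation k G (∀ i, (A i).V))

/-- `B` is acyclic on all subgroups of order `p` -/
def PAc {k G : Type} [CommRing k] [Group G] (p : ℕ) (B : Rep.{0} k G) : Prop :=
  ∀ x : G, x ^ p = 1 → x ≠ 1 → ∀ j : ℕ,
    IsZero (groupCohomology (Rep.res (Subgroup.zpowers x).subtype B) (j + 1))

/-- the constant functions `B → Fun(Y,B)` -/
noncomputable def QBi {k G : Type} [CommRing k] [Group G] (Y : Type) [MulAction G Y]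
    (B : Rep.{0} k G) : B ⟶ FunR Y B :=
  Rep.ofHom ⟨{ toFun := fun b _ => b
               map_add' := fun _ _ => rfl
               map_smul' := fun _ _ => rfl }, fun _ => rfl⟩

/-- the submodule of constant functions -/
def cst (k Y V : Type) [CommRing k] [AddCommGroup V] [Module k V] : Submodule k (Y → V) where
  carrier := {F | ∃ b, F = fun _ => b}
  zero_mem' := ⟨0, rfl⟩
  add_mem' := by
    rintro _ _ ⟨a, rfl⟩ ⟨b, rfl⟩
    exact ⟨a + b, rfl⟩
  smul_mem' := by
    rintro r _ ⟨a, rfl⟩
    exact ⟨r • a, rfl⟩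

lemma cst_stable {k G : Type} [CommRing k] [Group G] (Y : Type) [MulAction G Y]
    (B : Rep.{0} k G) (g : G) : cst k Y B.V ≤ (cst k Y B.V).comap ((FunR Y B).ρ g) := by
  rintro _ ⟨b, rfl⟩
  exact ⟨B.ρ g b, rfl⟩

/-- `Fun(Y,B)/B` -/
noncomputable def QB {k G : Type} [CommRing k] [Group G] (Y : Type) [MulAction G Y]
    (B : Rep.{0} k G) : Rep.{0} k G :=
  (FunR Y B).quotient (cst k Y B.V) (cst_stable Y B)

/-- the projection `Fun(Y,B) → Fun(Y,B)/B` -/
noncomputable def QBp {k G : Type} [CommRing k] [Group G] (Y : Type) [MulAction G Y]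
    (B : Rep.{0} k G) : FunR Y B ⟶ QB Y B :=
  Rep.mkQ (FunR Y B) (cst k Y B.V) (cst_stable Y B)

/-- the short complex `B → Fun(Y,B) → Fun(Y,B)/B` -/
noncomputable def QBS {k G : Type} [CommRing k] [Group G] (Y : Type) [MulAction G Y]
    (B : Rep.{0} k G) : ShortComplex (Rep.{0} k G) :=
  ShortComplex.mk (QBi Y B) (QBp Y B) (by
    ext b
    exact (Submodule.Quotient.mk_eq_zero _).2 ⟨b, rfl⟩)

/-- a central extension of `G` by an infinite cyclic group -/
structure CX (H G : Type) [Group H] [Group G] where
  π : H →* G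
  t : H
  surj : Function.Surjective π
  ker : ∀ x, π x = 1 ↔ ∃ n : ℤ, x = t ^ n
  cent : t ∈ Subgroup.center H
  inf : ∀ n : ℤ, t ^ n = 1 → n = 0

end Pool.Agent.H75.CP
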