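import Pool.Agent.H75.CP.Defs

/-!
MP_37b730_gt, strong form (helper75): the modules `NC` attached to a central extension
`A → Γ → G` and an additive map `c : A → Hom(W,W')`, and the classes `omg c ∈ Ext²(W,W')`.
-/

namespace Pool.Agent.H75.CP

open CategoryTheory CategoryTheory.Abelian CategoryTheory.Limits Pool.Agent.H5.CP

/-- a central extension of `G` by the abelian group `A` -/
structure AX (Γ G A : Type) [Group Γ] [Group G] [AddCommGroup A] where
  q : Γ →* G
  j : Multiplicative A →* Γ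
  surj : Function.Surjective q
  ker : ∀ x, q x = 1 ↔ ∃ a : A, j (Multiplicative.ofAdd a) = x
  cent : ∀ a : A, j (Multiplicative.ofAdd a) ∈ Subgroup.center Γ
  inj : Function.Injective j

namespace AX

variable {Γ G A : Type} [Group Γ] [Group G] [AddCommGroup A] (E : AX Γ G A)

/-- a lift of `g` -/
noncomputable def s (g : G) : Γ := Function.surjInv E.surj g

lemma q_s (g : G) : E.q (E.s g) = g := Function.surjInv_eq E.surj g

lemma exj {x y : Γ} (h : E.q x = E.q y) : ∃ a : A, x = E.j (Multiplicative.ofAdd a) * y := by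
  have h1 : E.q (x * y⁻¹) = 1 := by rw [map_mul, map_inv, h, mul_inv_cancel]
  obtain ⟨a, ha⟩ := (E.ker _).1 h1
  exact ⟨a, by rw [ha, inv_mul_cancel_right]⟩

lemma jc (a : A) (x : Γ) : x * E.j (Multiplicative.ofAdd a) = E.j (Multiplicative.ofAdd a) * x :=
  Subgroup.mem_center_iff.1 (E.cent a) x

end AX

section

variable {k Γ G A : Type} [CommRing k] [Group Γ] [Group G] [AddCommGroup A] (E : AX Γ G A)
  {W W' : Type} [AddCommGroup W] [Module k W] [AddCommGroup W'] [Module k W']
  (c : A →+ (W →ₗ[k] W'))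

/-- the pairs `(F,b)` with `F(1) = 0`, `F(j(a)x) = c(a)b + F(x)` -/
def NCs : Submodule k ((Γ → W') × W) where
  carrier := {P | P.1 1 = 0 ∧ ∀ (a : A) (x : Γ),
    P.1 (E.j (Multiplicative.ofAdd a) * x) = c a P.2 + P.1 x}
  zero_mem' := ⟨rfl, fun a x => by simp⟩
  add_mem' := by
    rintro ⟨F, b⟩ ⟨F', b'⟩ ⟨h1, h2⟩ ⟨h1', h2'⟩
    dsimp only at h1 h1'
    refine ⟨?_, fun a x => ?_⟩
    · show F 1 + F' 1 = 0
      rw [h1, h1', add_zero]
    · have e1 := h2 a x
      have e2 := h2' a x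
      dsimp only at e1 e2
      show F (E.j (Multiplicative.ofAdd a) * x) + F' (E.j (Multiplicative.ofAdd a) * x) =
        c a (b + b') + (F x + F' x)
      rw [e1, e2, map_add]
      abel
  smul_mem' := by
    rintro r ⟨F, b⟩ ⟨h1, h2⟩
    dsimp only at h1
    refine ⟨?_, fun a x => ?_⟩
    · show r • F 1 = 0
      rw [h1, smul_zero]
    · have e1 := h2 a x
      dsimp only at e1
      show r • F (E.j (Multiplicative.ofAdd a) * x) = c a (r • b) + r • F x
      rw [e1, map_smul, smul_add]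

/-- left translation on the pairs -/
def NCt (y : Γ) : ((Γ → W') × W) →ₗ[k] ((Γ → W') × W) where
  toFun := fun P => (fun x => P.1 (y⁻¹ * x) - P.1 y⁻¹, P.2)
  map_add' := by
    rintro ⟨F, b⟩ ⟨F', b'⟩
    refine Prod.ext ?_ rfl
    funext x
    show (F (y⁻¹ * x) + F' (y⁻¹ * x)) - (F y⁻¹ + F' y⁻¹) =
      (F (y⁻¹ * x) - F y⁻¹) + (F' (y⁻¹ * x) - F' y⁻¹)
    abel
  map_smul' := by
    rintro r ⟨F, b⟩
    refine Prod.ext ?_ rfl
    funext x
    show r • F (y⁻¹ * x) - r • F y⁻¹ = r • (F (y⁻¹ * x) - F y⁻¹)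
    rw [smul_sub]

lemma NCt_mem (y : Γ) (P : (Γ → W') × W) (hP : P ∈ NCs E c) : NCt (k := k) y P ∈ NCs E c := by
  obtain ⟨F, b⟩ := P
  obtain ⟨h1, h2⟩ := hP
  refine ⟨?_, fun a x => ?_⟩
  · show F (y⁻¹ * 1) - F y⁻¹ = 0
    rw [mul_one, sub_self]
  · have e1 := h2 a (y⁻¹ * x)
    dsimp only at e1
    show F (y⁻¹ * (E.j (Multiplicative.ofAdd a) * x)) - F y⁻¹ =
      c a b + (F (y⁻¹ * x) - F y⁻¹)
    rw [← mul_assoc, E.jc, mul_assoc, e1]
    abel

lemma NCt_eq {y z : Γ} (h : E.q y = E.q z) (P : (Γ → W') × W) (hP : P ∈ NCs E c) :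
    NCt (k := k) y P = NCt (k := k) z P := by
  obtain ⟨F, b⟩ := P
  obtain ⟨h1, h2⟩ := hP
  obtain ⟨a, ha⟩ := E.exj (x := y⁻¹) (y := z⁻¹) (by rw [map_inv, map_inv, h])
  refine Prod.ext ?_ rfl
  funext x
  show F (y⁻¹ * x) - F y⁻¹ = F (z⁻¹ * x) - F z⁻¹
  have e1 := h2 a (z⁻¹ * x)
  have e2 := h2 a z⁻¹
  dsimp only at e1 e2
  rw [ha, mul_assoc, e1, e2]
  abel

/-- the `k[G]`-module of the pairs `(F,b)` -/
noncomputable def NC : Rep.{0} k G :=
  Rep.of (X := NCs E c)
    ({ toFun := fun g => (NCt (k := k) (E.s g)).restrict (NCt_mem E c (E.s g))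
       map_one' := by
        apply LinearMap.ext
        rintro ⟨⟨F, b⟩, hP⟩
        apply Subtype.ext
        have h := NCt_eq E c (y := E.s 1) (z := 1) (by rw [E.q_s, map_one]) (F, b) hP
        refine h.trans (Prod.ext ?_ rfl)
        funext x
        show F (1⁻¹ * x) - F 1⁻¹ = F x
        have h0 : F 1 = 0 := hP.1
        rw [inv_one, one_mul, h0, sub_zero]
       map_mul' := by
        intro g h
        apply LinearMap.ext
        rintro ⟨⟨F, b⟩, hP⟩
        apply Subtype.ext
        have h1 := NCt_eq E c (y := E.s (g * h)) (z := E.s g * E.s h)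
          (by rw [E.q_s, map_mul, E.q_s, E.q_s]) (F, b) hP
        refine h1.trans (Prod.ext ?_ rfl)
        funext x
        show F ((E.s g * E.s h)⁻¹ * x) - F (E.s g * E.s h)⁻¹ =
          (F ((E.s h)⁻¹ * ((E.s g)⁻¹ * x)) - F (E.s h)⁻¹) -
            (F ((E.s h)⁻¹ * (E.s g)⁻¹) - F (E.s h)⁻¹)
        rw [mul_inv_rev, mul_assoc]
        abel } : Representation k G (NCs E c))

/-- the pair `(F,b)` underlying an element of `NC` -/
def NCv (P : (NC E c).V) : (Γ → W') × W := (show NCs E c from P).1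

lemma NCv_mem (P : (NC E c).V) : NCv E c P ∈ NCs E c := (show NCs E c from P).2

lemma NCv_inj {P P' : (NC E c).V} (h : NCv E c P = NCv E c P') : P = P' := Subtype.ext h

lemma NC_ρ (y : Γ) (P : (NC E c).V) :
    NCv E c ((NC E c).ρ (E.q y) P) = NCt (k := k) y (NCv E c P) :=
  NCt_eq E c (by rw [E.q_s]) (NCv E c P) (NCv_mem E c P)

/-- the map `Fun(G,W')/W' → NC` -/
noncomputable def NCi : QB G (Rep.trivial k G W') ⟶ NC E c :=
  Rep.ofHom
    ⟨(cst k G W').liftQ
      ({ toFun := fun F => ⟨(fun x => F (E.q x) - F 1, 0), by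
          refine ⟨?_, fun a x => ?_⟩
          · show F (E.q 1) - F 1 = 0
            rw [map_one, sub_self]
          · show F (E.q (E.j (Multiplicative.ofAdd a) * x)) - F 1 = c a 0 + (F (E.q x) - F 1)
            rw [map_mul, (E.ker _).2 ⟨a, rfl⟩, one_mul, map_zero, zero_add]⟩
         map_add' := by
          intro F F'
          apply Subtype.ext
          refine Prod.ext ?_ (add_zero _).symm
          funext x
          show (F (E.q x) + F' (E.q x)) - (F 1 + F' 1) = (F (E.q x) - F 1) + (F' (E.q x) - F' 1)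
          abel
         map_smul' := by
          intro r F
          apply Subtype.ext
          refine Prod.ext ?_ (smul_zero _).symm
          funext x
          show r • F (E.q x) - r • F 1 = r • (F (E.q x) - F 1)
          rw [smul_sub] } : (G → W') →ₗ[k] NCs E c)
      (by
        rintro _ ⟨b, rfl⟩
        apply Subtype.ext
        refine Prod.ext ?_ rfl
        funext x
        exact sub_self b), by
      intro g
      apply LinearMap.ext
      intro z
      obtain ⟨F, rfl⟩ := Submodule.Quotient.mk_surjective _ z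
      obtain ⟨y, rfl⟩ := E.surj g
      apply Subtype.ext
      refine Eq.trans ?_ (NC_ρ E c y _).symm
      refine Prod.ext ?_ rfl
      funext x
      show F ((E.q y)⁻¹ * E.q x) - F ((E.q y)⁻¹ * 1) =
        (F (E.q (y⁻¹ * x)) - F 1) - (F (E.q y⁻¹) - F 1)
      rw [map_mul, map_inv, mul_one]
      abel⟩

/-- the projection `NC → W` -/
noncomputable def NCp : NC E c ⟶ Rep.trivial k G W :=
  Rep.ofHom ⟨(LinearMap.snd k (Γ → W') W).comp (NCs E c).subtype, fun _ => rfl⟩

/-- the short complex `Fun(G,W')/W' → NC → W` -/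
noncomputable def NCS : ShortComplex (Rep.{0} k G) :=
  ShortComplex.mk (NCi E c) (NCp E c) (by
    ext z
    obtain ⟨F, rfl⟩ := Submodule.Quotient.mk_surjective _ z
    rfl)

end

end Pool.Agent.H75.CP
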