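import Pool.Agent.H75.CP.NSe
import Pool.Agent.H75.CP.QSe

/-!
MP_37b730_gt, strong form (helper75): the classes `omg c ∈ Ext²(W,W')`, special families `c`, invariants.
-/

namespace Pool.Agent.H75.CP

open CategoryTheory CategoryTheory.Abelian CategoryTheory.Limits Pool.Agent.H5.CP

section

variable {k A : Type} [CommRing k] [AddCommGroup A]
  {W W' W₁ : Type} [AddCommGroup W] [Module k W] [AddCommGroup W'] [Module k W']
  [AddCommGroup W₁] [Module k W₁]

/-- precomposition of `c` with a linear map -/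
def cl (c : A →+ (W →ₗ[k] W')) (ρ : W₁ →ₗ[k] W) : A →+ (W₁ →ₗ[k] W') where
  toFun := fun a => (c a) ∘ₗ ρ
  map_zero' := by rw [map_zero, LinearMap.zero_comp]
  map_add' := fun a b => by rw [map_add, LinearMap.add_comp]

/-- postcomposition of `c` with a linear map -/
def cr (c : A →+ (W →ₗ[k] W')) (σ : W' →ₗ[k] W₁) : A →+ (W →ₗ[k] W₁) where
  toFun := fun a => σ ∘ₗ (c a)
  map_zero' := by rw [map_zero, LinearMap.comp_zero]
  map_add' := fun a b => by rw [map_add, LinearMap.comp_add]

end

/-- the class in `Ext²(W,W')` attached to `c` -/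
noncomputable def omg {Γ G A : Type} [Group Γ] [Group G] [AddCommGroup A] (E : AX Γ G A)
    {W W' : Type} [AddCommGroup W] [AddCommGroup W'] (c : A →+ (W →ₗ[ℤ] W')) :
    Ext (Rep.trivial ℤ G W) (Rep.trivial ℤ G W') 2 :=
  (NSe_main E c).extClass.comp (QSe_main G (Rep.trivial ℤ G W')).extClass (rfl : 1 + 1 = 2)

/-- `c(a) = ` multiplication by `f(a)` on `ℤ` -/
def cz {A : Type} [AddCommGroup A] (f : A →+ ℤ) : A →+ (ℤ →ₗ[ℤ] ℤ) where
  toFun := fun a => f a • LinearMap.id
  map_zero' := by rw [map_zero, zero_smul]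
  map_add' := fun a b => by rw [map_add, add_smul]

/-- `c(a) = ` multiplication by `f(a) - μ g(a)` on the field `F` -/
def cF {A F : Type} [AddCommGroup A] [Field F] (f g : A →+ ℤ) (μ : F) : A →+ (F →ₗ[ℤ] F) where
  toFun := fun a => LinearMap.mulLeft ℤ ((f a : F) - μ * (g a : F))
  map_zero' := by
    apply LinearMap.ext
    intro x
    simp
  map_add' := fun a b => by
    apply LinearMap.ext
    intro x
    simp only [map_add, Int.cast_add, LinearMap.mulLeft_apply, LinearMap.add_apply]
    ring

/-- the map `ℤ → F`, `n ↦ n β` -/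
def rb {F : Type} [AddCommGroup F] (β : F) : ℤ →ₗ[ℤ] F := LinearMap.toSpanSingleton ℤ F β

section

variable {k H G : Type} [CommRing k] [Group H] [Group G] (E : CX H G) (M : Rep.{0} k H)

/-- the elements fixed by `t` -/
def Invs : Submodule k M.V where
  carrier := {m | M.ρ E.t m = m}
  zero_mem' := map_zero _
  add_mem' := by
    intro a b ha hb
    show M.ρ E.t (a + b) = a + b
    have ha' : M.ρ E.t a = a := ha
    have hb' : M.ρ E.t b = b := hb
    rw [map_add, ha', hb']
  smul_mem' := by
    intro r a ha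
    have ha' : M.ρ E.t a = a := ha
    show M.ρ E.t (r • a) = r • a
    rw [map_smul, ha']

lemma Invs_zpow (n : ℤ) (m : M.V) (hm : m ∈ Invs E M) : M.ρ (E.t ^ n) m = m := by
  have hm' : M.ρ E.t m = m := hm
  have h1 : ∀ i : ℕ, M.ρ (E.t ^ i) m = m := by
    intro i
    induction i with
    | zero => simp
    | succ i ih =>
      rw [pow_succ, map_mul, Module.End.mul_apply, hm', ih]
  obtain ⟨i, rfl | rfl⟩ := n.eq_nat_or_neg
  · rw [zpow_natCast]; exact h1 i
  · have h2 : M.ρ (E.t ^ (-(i : ℤ))) (M.ρ (E.t ^ i) m) = m := by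
      rw [← Module.End.mul_apply, ← map_mul, zpow_neg, zpow_natCast, inv_mul_cancel, map_one,
        Module.End.one_apply]
    rwa [h1] at h2

lemma Invs_mem (y : H) (m : M.V) (hm : m ∈ Invs E M) : M.ρ y m ∈ Invs E M := by
  have hm' : M.ρ E.t m = m := hm
  show M.ρ E.t (M.ρ y m) = M.ρ y m
  rw [← Module.End.mul_apply, ← map_mul, ← Subgroup.mem_center_iff.1 E.cent y, map_mul,
    Module.End.mul_apply, hm']

lemma Invs_eq {y z : H} (h : E.π y = E.π z) (m : M.V) (hm : m ∈ Invs E M) :
    M.ρ y m = M.ρ z m := by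
  have h1 : E.π (z⁻¹ * y) = 1 := by rw [map_mul, map_inv, h, inv_mul_cancel]
  obtain ⟨n, hn⟩ := (E.ker _).1 h1
  have h2 : y = z * E.t ^ n := by rw [← hn, mul_inv_cancel_left]
  rw [h2, map_mul, Module.End.mul_apply, Invs_zpow E M n m hm]

/-- The `G`-module of the elements of the `H`-module `M` fixed by `t`. -/
noncomputable def InvR : Rep.{0} k G :=
  Rep.of (X := Invs E M)
    ({ toFun := fun g => (M.ρ (E.s g)).restrict (Invs_mem E M (E.s g))
       map_one' := by
        apply LinearMap.ext
        rintro ⟨m, hm⟩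
        apply Subtype.ext
        have h := Invs_eq E M (y := E.s 1) (z := 1) (by rw [E.π_s, map_one]) m hm
        rw [map_one] at h
        exact h
       map_mul' := by
        intro g h
        apply LinearMap.ext
        rintro ⟨m, hm⟩
        apply Subtype.ext
        have h1 := Invs_eq E M (y := E.s (g * h)) (z := E.s g * E.s h)
          (by rw [E.π_s, map_mul, E.π_s, E.π_s]) m hm
        rw [map_mul] at h1
        exact h1 } : Representation k G (Invs E M))

/-- the element of `M` underlying an element of `InvR` -/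
def Inv (m : (InvR E M).V) : M.V := (show Invs E M from m).1

lemma Inv_mem (m : (InvR E M).V) : M.ρ E.t (Inv E M m) = Inv E M m := (show Invs E M from m).2

lemma Inv_inj {m m' : (InvR E M).V} (h : Inv E M m = Inv E M m') : m = m' := Subtype.ext h

lemma InvR_ρ (y : H) (m : (InvR E M).V) :
    Inv E M ((InvR E M).ρ (E.π y) m) = M.ρ y (Inv E M m) :=
  Invs_eq E M (by rw [E.π_s]) (Inv E M m) (Inv_mem E M m)

end

end Pool.Agent.H75.CP
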