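import Pool.Agent.H75.CP.DefsY

/-!
MP_37b730_gt, strong form (helper75): functoriality of `Fun(Y,B)`, `Fun(Y,B)/B`, trivial modules.
-/

namespace Pool.Agent.H75.CP

open CategoryTheory CategoryTheory.Abelian CategoryTheory.Limits Pool.Agent.H5.CP

section

variable {k G : Type} [CommRing k] [Group G]

/-- a linear map as a morphism of trivial modules -/
noncomputable def trm (G : Type) [Group G] {V V' : Type} [AddCommGroup V] [Module k V]
    [AddCommGroup V'] [Module k V'] (σ : V →ₗ[k] V') :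
    Rep.trivial k G V ⟶ Rep.trivial k G V' :=
  Rep.ofHom ⟨σ, fun _ => rfl⟩

variable (Y : Type) [MulAction G Y]

/-- functoriality of `Fun(Y,B)` -/
noncomputable def FunRm {A B : Rep.{0} k G} (f : A ⟶ B) : FunR Y A ⟶ FunR Y B :=
  Rep.ofHom ⟨{ toFun := fun F y => f.hom (F y)
               map_add' := by intro F F'; funext y; exact map_add f.hom _ _
               map_smul' := by intro r F; funext y; exact map_smul f.hom _ _ }, by
    intro g
    apply LinearMap.ext
    intro F
    funext y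
    exact Rep.hom_comm_apply f g _⟩

/-- functoriality of `Fun(Y,B)/B` -/
noncomputable def QBm {A B : Rep.{0} k G} (f : A ⟶ B) : QB Y A ⟶ QB Y B :=
  Rep.ofHom ⟨(cst k Y A.V).mapQ (cst k Y B.V) (FunRm Y f).hom.toLinearMap (by
      rintro _ ⟨b, rfl⟩
      exact ⟨f.hom b, rfl⟩), by
    intro g
    apply LinearMap.ext
    intro z
    obtain ⟨F, rfl⟩ := Submodule.Quotient.mk_surjective _ z
    refine congrArg (fun z : Y → B.V => (Submodule.Quotient.mk z : (Y → B.V) ⧸ cst k Y B.V)) ?_
    funext y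
    exact Rep.hom_comm_apply f g _⟩

lemma QBm_mk {A B : Rep.{0} k G} (f : A ⟶ B) (F : Y → A.V) :
    (QBm Y f).hom (Submodule.Quotient.mk F : (Y → A.V) ⧸ cst k Y A.V) =
      (Submodule.Quotient.mk (fun y => f.hom (F y)) : (Y → B.V) ⧸ cst k Y B.V) := rfl

lemma FunRm_comp_zero {S : ShortComplex (Rep.{0} k G)} : FunRm Y S.f ≫ FunRm Y S.g = 0 := by
  ext F
  funext y
  have h := congrArg (fun f => f.hom (F y)) S.zero
  exact h

lemma QBm_comp_zero {S : ShortComplex (Rep.{0} k G)} : QBm Y S.f ≫ QBm Y S.g = 0 := by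
  ext z
  obtain ⟨F, rfl⟩ := Submodule.Quotient.mk_surjective _ z
  refine (Submodule.Quotient.mk_eq_zero _).2 ⟨0, ?_⟩
  funext y
  have h := congrArg (fun f => f.hom (F y)) S.zero
  exact h

end

end Pool.Agent.H75.CP
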