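import Pool.Agent.H75.CP.Defs

/-!
MP_37b730_gt, strong form (helper75): the sets `TY` (tuples) and `Y0` (p-th roots of the central
element).
-/

namespace Pool.Agent.H75.CP

open CategoryTheory CategoryTheory.Abelian CategoryTheory.Limits Pool.Agent.H5.CP

/-- tuples of elements of the free `N`-set `α × N` -/
def TY {G : Type} [Group G] {p : ℕ} (D : PData G p) (α : Type) : Type :=
  ZMod p → (Σ _ : α, D.π.ker)

instance {G : Type} [Group G] {p : ℕ} [Fact p.Prime] (D : PData G p) (α : Type) :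
    MulAction G (TY D α) where
  smul := fun g y => WFree_act D (X := Σ _ : α, D.π.ker) (fun n x => ⟨x.1, n * x.2⟩) g y
  one_smul := fun y => WFree_act_one D _ (fun x => by simp) y
  mul_smul := fun g h y => WFree_act_mul D _ (fun n m x => by simp [mul_assoc]) g h y

lemma TY_smul {G : Type} [Group G] {p : ℕ} [Fact p.Prime] (D : PData G p) (α : Type) (g : G)
    (y : TY D α) (i : ZMod p) : (g • y : TY D α) i = ⟨(y (i + D.deg g)).1, D.c i g * (y (i + D.deg g)).2⟩ :=
  rfl

namespace CX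

variable {H G : Type} [Group H] [Group G] (E : CX H G)

lemma conj {a b : H} (h : E.π a = E.π b) (u : H) : a * u * a⁻¹ = b * u * b⁻¹ := by
  have h1 : E.π (b⁻¹ * a) = 1 := by rw [map_mul, map_inv, h, inv_mul_cancel]
  obtain ⟨n, hn⟩ := (E.ker _).1 h1
  have h2 : a = b * E.t ^ n := by rw [← hn, mul_inv_cancel_left]
  have h3 : E.t ^ n * u = u * E.t ^ n :=
    ((Subgroup.mem_center_iff.1 ((Subgroup.center H).zpow_mem E.cent n)) u).symm
  rw [h2, mul_inv_rev, mul_assoc b, h3]
  group

lemma conjp (p : ℕ) (a u : H) (h : u ^ p = E.t) : (a * u * a⁻¹) ^ p = E.t := by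
  rw [conj_pow, h, Subgroup.mem_center_iff.1 E.cent a, mul_inv_cancel_right]

/-- the `p`-th roots of `t` -/
def Y0 (p : ℕ) : Type := {u : H // u ^ p = E.t}

/-- a lift of `g` -/
noncomputable def s (g : G) : H := Function.surjInv E.surj g

lemma π_s (g : G) : E.π (E.s g) = g := Function.surjInv_eq E.surj g

noncomputable instance (p : ℕ) : MulAction G (E.Y0 p) where
  smul := fun g u => ⟨E.s g * u.1 * (E.s g)⁻¹, E.conjp p _ _ u.2⟩
  one_smul := fun u => Subtype.ext (by
    have h := E.conj (a := E.s 1) (b := 1) (by rw [E.π_s, map_one]) u.1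
    rw [one_mul, inv_one, mul_one] at h
    exact h)
  mul_smul := fun g h u => Subtype.ext (by
    have h1 := E.conj (a := E.s (g * h)) (b := E.s g * E.s h)
      (by rw [E.π_s, map_mul, E.π_s, E.π_s]) u.1
    refine h1.trans ?_
    show E.s g * E.s h * u.1 * (E.s g * E.s h)⁻¹ =
      E.s g * (E.s h * u.1 * (E.s h)⁻¹) * (E.s g)⁻¹
    group)

lemma Y0_smul (p : ℕ) (x : H) (u : E.Y0 p) : (E.π x • u : E.Y0 p).1 = x * u.1 * x⁻¹ :=
  E.conj (by rw [E.π_s]) u.1

end CX

end Pool.Agent.H75.CP
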