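import Pool.Agent.H75.CP.KilA
import Pool.Agent.H5.CP.ExB

/-!
ROW ExC (200 lines).  EXPONENTS FOR AN EXTENSION BY A GROUP OF ORDER `p`.  `ρ : C → L` onto with kernel of order `p`; `F = Rep.resFunctor ρ : Rep k L ⥤ Rep k C` (exact, additive).
(1) `ExC_proj`: for `Q : Rep k L` projective, `p` kills `Ext^j_C(F Q, B)`, `j ≥ 1`: `p • 𝟙` on `F Q` factors through a projective module.  For `Q = Rep.free k L α`: `N : F(free k L α) → free k C α`,
 `single a (single l r) ↦ single a (Σ_{c ∈ ρ⁻¹(l)} single c r)` (finite fibres of cardinality `p`; equivariant: `c ↦ c₀c` is a bijection `ρ⁻¹(l) → ρ⁻¹(ρ(c₀) l)`), `M : free k C α → F(free k L α)`, `single a (single c r) ↦ single a (single (ρ c) r)`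
 (`Rep.freeLift`), `N ≫ M = p • 𝟙`.  A projective `Q` is a retract of `Rep.free k L Q.V` (`Rep.freeLift`, `Projective.factorThru`).  Then `p • e = (mk₀ (p • 𝟙)).comp e = (mk₀ N).comp ((mk₀ M).comp e)` and `(mk₀ M).comp e ∈ Ext^j(projective, B) = 0`
 (`Ext.eq_zero_of_projective`).
(2) `ExC_core`, by induction on `i`, for all `M : Rep k L`: if `f` kills `Ext^{i+1}_L(M,B')` for all `B'` then `p^{i+1} f` kills `Ext^j_C(F M,B)` for all `B` and `j ≥ i+1`.
 Let `0 → K → Q → M → 0` be exact with `Q` projective (`Projective.over M`, `Projective.π M`, kernel), class `δ ∈ Ext¹(M,K)`; `0 → F K → F Q → F M → 0` exact.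
 `i = 0`: `f • δ = 0`, so `f • 𝟙_M` factors through `Q → M` (`Ext.covariant_sequence_exact₃`: `(mk₀ (f • 𝟙)).comp δ = 0`): `f • 𝟙 = s ≫ π`.  So for `e ∈ Ext^j_C(F M,B)`, `j ≥ 1`: `f • e = (mk₀ F(s)).comp ((mk₀ F(π)).comp e)` and `p` kills
 `(mk₀ F(π)).comp e ∈ Ext^j(F Q,B)`.
 `i + 1`: `f` kills `Ext^{i+1}_L(K,B')` for all `B'` (composition with `δ`: `Ext^{i+1}(K,B') → Ext^{i+2}(M,B')` is injective since `Ext^{i+1}_L(Q,B') = 0`: `Ext.contravariant_sequence_exact₁`), so by induction `p^{i+1} f` kills `Ext^{j'}_C(F K,B)`, `j' ≥ i+1`.  For `j ≥ i+2` and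
 `e ∈ Ext^j_C(F M,B)`: `p • e` restricts to `0` on `F Q` ((1)), so `p • e = F(δ).comp e'` with `e' ∈ Ext^{j-1}_C(F K,B)` (`Ext.contravariant_sequence_exact₃`), and `p^{i+1} f • p • e = 0`.
(3) `ExC_main`: `M = Rep.trivial k L k`, `F M = Rep.trivial k C k` (rfl), `KilA_ext`.
-/

namespace Pool.Agent.H75.CP

open CategoryTheory CategoryTheory.Abelian CategoryTheory.Limits Pool.Agent.H5.CP

/-- the norm map on the regular module -/
noncomputable def ExC_N0 (k : Type) {C L : Type} [CommRing k] [Group C] [Group L] (ρ : C →* L)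
    [Fintype ρ.ker] (σ : L → C) : MonoidAlgebra k L →ₗ[k] MonoidAlgebra k C :=
  ∑ z : ρ.ker, (MonoidAlgebra.coeffLinearEquiv k).symm.toLinearMap ∘ₗ
    Finsupp.lmapDomain k k (fun l => σ l * z.1) ∘ₗ
      (MonoidAlgebra.coeffLinearEquiv k).toLinearMap

theorem ExC_N0_single (k : Type) {C L : Type} [CommRing k] [Group C] [Group L] (ρ : C →* L)
    [Fintype ρ.ker] (σ : L → C) (l : L) (r : k) :
    ExC_N0 k ρ σ (MonoidAlgebra.single l r) =
      ∑ z : ρ.ker, MonoidAlgebra.single (σ l * z.1) r := by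
  unfold ExC_N0
  rw [LinearMap.sum_apply]
  refine Finset.sum_congr rfl fun z _ => ?_
  simp [Finsupp.lmapDomain_apply]

theorem ExC_N0_equiv (k : Type) {C L : Type} [CommRing k] [Group C] [Group L] (ρ : C →* L)
    [Fintype ρ.ker] (σ : L → C) (hσ : ∀ l, ρ (σ l) = l) (c : C) (x : MonoidAlgebra k L) :
    ExC_N0 k ρ σ (Representation.leftRegular k L (ρ c) x) =
      Representation.leftRegular k C c (ExC_N0 k ρ σ x) := by
  induction x using MonoidAlgebra.induction_linear with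
  | zero => simp
  | add x y hx hy => rw [map_add, map_add, map_add, map_add, hx, hy]
  | single l r =>
    rw [Representation.ofMulAction_single, ExC_N0_single, ExC_N0_single, map_sum]
    have hz : (σ (ρ c * l))⁻¹ * c * σ l ∈ ρ.ker := by
      rw [MonoidHom.mem_ker, map_mul, map_mul, map_inv, hσ, hσ]
      group
    refine (Fintype.sum_equiv (Equiv.mulLeft (⟨_, hz⟩ : ρ.ker)) _ _ fun z => ?_).symm
    rw [Representation.ofMulAction_single]
    congr 1
    change c * (σ l * z.1) = σ (ρ c * l) * ((σ (ρ c * l))⁻¹ * c * σ l * z.1)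
    group

/-- the norm map on free modules -/
noncomputable def ExC_N (k : Type) {C L : Type} [CommRing k] [Group C] [Group L] (ρ : C →* L)
    [Fintype ρ.ker] (σ : L → C) (hσ : ∀ l, ρ (σ l) = l) (α : Type) :
    (Rep.resFunctor ρ).obj (Rep.free k L α) ⟶ Rep.free k C α :=
  Rep.ofHom ⟨Finsupp.mapRange.linearMap (ExC_N0 k ρ σ), by
    intro c
    refine Finsupp.lhom_ext' fun a => LinearMap.ext fun x => ?_
    change Finsupp.mapRange.linearMap (ExC_N0 k ρ σ)
      (Representation.free k L α (ρ c) (Finsupp.single a x)) =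
        Representation.free k C α c
          (Finsupp.mapRange.linearMap (ExC_N0 k ρ σ) (Finsupp.single a x))
    rw [Representation.finsupp_single, Finsupp.mapRange.linearMap_apply,
      Finsupp.mapRange.linearMap_apply, Finsupp.mapRange_single, Finsupp.mapRange_single,
      Representation.finsupp_single, ExC_N0_equiv k ρ σ hσ]⟩

theorem ExC_N_apply (k : Type) {C L : Type} [CommRing k] [Group C] [Group L] (ρ : C →* L)
    [Fintype ρ.ker] (σ : L → C) (hσ : ∀ l, ρ (σ l) = l) (α : Type) (a : α) (l : L) (r : k) :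
    (ExC_N k ρ σ hσ α).hom (Finsupp.single a (MonoidAlgebra.single l r)) =
      ∑ z : ρ.ker, Finsupp.single a (MonoidAlgebra.single (σ l * z.1) r) := by
  change Finsupp.mapRange.linearMap (ExC_N0 k ρ σ)
    (Finsupp.single a (MonoidAlgebra.single l r)) = _
  rw [Finsupp.mapRange.linearMap_apply, Finsupp.mapRange_single, ExC_N0_single]
  exact map_sum (Finsupp.singleAddHom a) _ _

/-- the projection between free modules -/
noncomputable def ExC_M (k : Type) {C L : Type} [CommRing k] [Group C] [Group L] (ρ : C →* L)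
    (α : Type) : Rep.free k C α ⟶ (Rep.resFunctor ρ).obj (Rep.free k L α) :=
  Rep.freeLift k C (A := (Rep.resFunctor ρ).obj (Rep.free k L α))
    (fun a : α => (Finsupp.single a (MonoidAlgebra.single 1 1) : α →₀ MonoidAlgebra k L))

theorem ExC_M_apply (k : Type) {C L : Type} [CommRing k] [Group C] [Group L] (ρ : C →* L)
    (α : Type) (a : α) (c : C) (r : k) :
    (ExC_M k ρ α).hom (Finsupp.single a (MonoidAlgebra.single c r)) =
      Finsupp.single a (MonoidAlgebra.single (ρ c) r) := by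
  have h := Representation.freeLift_single_single
    (σ := ((Rep.resFunctor ρ).obj (Rep.free k L α)).ρ) (i := a) (g := c) (r := r)
    (f := fun a : α => (Finsupp.single a (MonoidAlgebra.single 1 1) : α →₀ MonoidAlgebra k L))
  refine Eq.trans h ?_
  change r • Representation.free k L α (ρ c) (Finsupp.single a (MonoidAlgebra.single 1 1)) = _
  rw [Representation.free_single_single, Finsupp.smul_single, MonoidAlgebra.smul_single]
  simp

theorem ExC_nsmul {k G : Type} [CommRing k] [Group G] {K Y : Rep.{0} k G} (f : K ⟶ Y) (n : ℕ)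
    (x : K.V) : (n • f).hom x = n • f.hom x := by
  induction n with
  | zero =>
    rw [zero_smul, zero_smul]
    rfl
  | succ n ih =>
    rw [succ_nsmul, succ_nsmul, ← ih]
    rfl

theorem ExC_NM (k : Type) {C L : Type} [CommRing k] [Group C] [Group L] (ρ : C →* L)
    [Fintype ρ.ker] (σ : L → C) (hσ : ∀ l, ρ (σ l) = l) (α : Type) :
    ExC_N k ρ σ hσ α ≫ ExC_M k ρ α = (Fintype.card ρ.ker) • 𝟙 _ := by
  apply Rep.hom_ext
  apply Representation.IntertwiningMap.ext
  refine Finsupp.lhom_ext' fun a => LinearMap.ext fun x => ?_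
  change (ExC_M k ρ α).hom ((ExC_N k ρ σ hσ α).hom (Finsupp.single a x)) =
    ((Fintype.card ρ.ker) • 𝟙 ((Rep.resFunctor ρ).obj (Rep.free k L α))).hom
      (Finsupp.single a x : α →₀ MonoidAlgebra k L)
  rw [ExC_nsmul]
  change (ExC_M k ρ α).hom ((ExC_N k ρ σ hσ α).hom (Finsupp.single a x)) =
    (Fintype.card ρ.ker) • (Finsupp.single a x : α →₀ MonoidAlgebra k L)
  induction x using MonoidAlgebra.induction_linear with
  | zero =>
    rw [Finsupp.single_zero, smul_zero]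
    exact (congrArg _ (map_zero (ExC_N k ρ σ hσ α).hom)).trans (map_zero (ExC_M k ρ α).hom)
  | add x y hx hy =>
    rw [Finsupp.single_add, smul_add, ← hx, ← hy]
    exact (congrArg _ (map_add (ExC_N k ρ σ hσ α).hom _ _)).trans (map_add (ExC_M k ρ α).hom _ _)
  | single l r =>
    rw [ExC_N_apply, map_sum]
    rw [Finset.sum_congr rfl fun z _ => ExC_M_apply k ρ α a (σ l * z.1) r]
    have h1 : ∀ z : ρ.ker, ρ (σ l * z.1) = l := by
      intro z
      rw [map_mul, hσ, MonoidHom.mem_ker.1 z.2, mul_one]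
    simp only [h1, Finset.sum_const, Finset.card_univ]

theorem ExC_proj {k C L : Type} [CommRing k] [Group C] [Group L] (ρ : C →* L)
    (hρ : Function.Surjective ρ) (p : ℕ) (hp : 0 < p) (hk : Nat.card ρ.ker = p)
    (Q : Rep.{0} k L) [Projective Q] (B : Rep.{0} k C) (j : ℕ)
    (e : Ext ((Rep.resFunctor ρ).obj Q) B (j + 1)) : p • e = 0 := by
  have hfin : Finite ρ.ker := Nat.finite_of_card_ne_zero (by rw [hk]; exact hp.ne')
  have : Fintype ρ.ker := Fintype.ofFinite _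
  have hk' : Fintype.card ρ.ker = p := by rw [← Nat.card_eq_fintype_card, hk]
  obtain ⟨σ, hσ⟩ := hρ.hasRightInverse
  let f : Rep.free k L Q.V ⟶ Q := Rep.freeLift k L (A := Q) (fun x : Q.V => x)
  haveI : Epi f := by
    rw [Rep.epi_iff_surjective]
    intro x
    refine ⟨Finsupp.single x (MonoidAlgebra.single 1 1), ?_⟩
    change Representation.freeLift Q.ρ (fun x : Q.V => x) _ = x
    rw [Representation.freeLift_single_single]
    simp
  let s : Q ⟶ Rep.free k L Q.V := Projective.factorThru (𝟙 Q) f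
  have hs : s ≫ f = 𝟙 Q := Projective.factorThru_comp _ _
  have hid : p • 𝟙 ((Rep.resFunctor ρ).obj Q) =
      ((Rep.resFunctor ρ).map s ≫ ExC_N k ρ σ hσ Q.V) ≫ (ExC_M k ρ Q.V ≫
        (Rep.resFunctor ρ).map f) := by
    rw [Category.assoc, ← Category.assoc (ExC_N k ρ σ hσ Q.V), ExC_NM, hk',
      Preadditive.nsmul_comp, Category.id_comp, Preadditive.comp_nsmul, ← Functor.map_comp, hs,
      (Rep.resFunctor ρ).map_id]
  have h1 : p • e = (p • Ext.mk₀ (𝟙 ((Rep.resFunctor ρ).obj Q))).comp e (zero_add _) := by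
    have h2 : (Ext.mk₀ (𝟙 ((Rep.resFunctor ρ).obj Q))).comp e (zero_add _) = e :=
      Ext.mk₀_id_comp e
    conv_lhs => rw [← h2]
    exact (map_nsmul ((Ext.bilinearComp _ _ _ 0 (j + 1) (j + 1) (zero_add _)).flip e) p _).symm
  have h3 : p • Ext.mk₀ (𝟙 ((Rep.resFunctor ρ).obj Q)) =
      Ext.mk₀ (p • 𝟙 ((Rep.resFunctor ρ).obj Q)) :=
    (map_nsmul (Ext.addEquiv₀ (X := (Rep.resFunctor ρ).obj Q)
      (Y := (Rep.resFunctor ρ).obj Q)).symm p _).symm
  have hz : (Ext.mk₀ (ExC_M k ρ Q.V ≫ (Rep.resFunctor ρ).map f)).comp e (zero_add _) = 0 :=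
    Ext.eq_zero_of_projective (P := Rep.free k C Q.V) _
  rw [h1, h3, hid, ← Ext.mk₀_comp_mk₀_assoc, hz, Ext.comp_zero]

theorem ExC_comp_nsmul {k G : Type} [CommRing k] [Group G] {X Y Z : Rep.{0} k G} {a b c : ℕ}
    (α : Ext X Y a) (β : Ext Y Z b) (h : a + b = c) (m : ℕ) :
    α.comp (m • β) h = m • α.comp β h :=
  map_nsmul (Ext.bilinearComp X Y Z a b c h α) m β

theorem ExC_nsmul_comp {k G : Type} [CommRing k] [Group G] {X Y Z : Rep.{0} k G} {a b c : ℕ}
    (α : Ext X Y a) (β : Ext Y Z b) (h : a + b = c) (m : ℕ) :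
    (m • α).comp β h = m • α.comp β h :=
  map_nsmul ((Ext.bilinearComp X Y Z a b c h).flip β) m α

theorem ExC_mk_nsmul {k G : Type} [CommRing k] [Group G] {X Y : Rep.{0} k G} (f : X ⟶ Y) (m : ℕ) :
    Ext.mk₀ (m • f) = m • Ext.mk₀ f :=
  map_nsmul (Ext.addEquiv₀ (X := X) (Y := Y)).symm m f

theorem ExC_step0 {k C L : Type} [CommRing k] [Group C] [Group L] (ρ : C →* L)
    (hρ : Function.Surjective ρ) (p : ℕ) (hp : 0 < p) (hk : Nat.card ρ.ker = p) (f : ℕ)
    {X Q M : Rep.{0} k L} (ι : X ⟶ Q) (π : Q ⟶ M) (w : ι ≫ π = 0)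
    (hS : (ShortComplex.mk ι π w).ShortExact) [Projective Q]
    (h : ∀ (B' : Rep.{0} k L) (e : Ext M B' 1), f • e = 0)
    (B : Rep.{0} k C) (j : ℕ) (e : Ext ((Rep.resFunctor ρ).obj M) B (j + 1)) :
    (p * f) • e = 0 := by
  let δ : Ext M X 1 := hS.extClass
  have h0 : (Ext.mk₀ (f • 𝟙 M)).comp δ (zero_add 1) = 0 := by
    rw [ExC_mk_nsmul, ExC_nsmul_comp, Ext.mk₀_id_comp]
    exact h _ _
  obtain ⟨x2, hx2⟩ := Ext.covariant_sequence_exact₃ M hS (Ext.mk₀ (f • 𝟙 M)) (zero_add 1) h0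
  obtain ⟨s, rfl⟩ := (Ext.mk₀_bijective _ _).2 x2
  have hx3 : (Ext.mk₀ s).comp (Ext.mk₀ π) (zero_add 0) = Ext.mk₀ (f • 𝟙 M) := hx2
  rw [Ext.mk₀_comp_mk₀] at hx3
  have hs : s ≫ π = f • 𝟙 M := (Ext.mk₀_bijective _ _).1 hx3
  have hsF : (Rep.resFunctor ρ).map s ≫ (Rep.resFunctor ρ).map π =
      f • 𝟙 ((Rep.resFunctor ρ).obj M) := by
    rw [← (Rep.resFunctor ρ).map_comp, hs, (Rep.resFunctor ρ).map_nsmul,
      (Rep.resFunctor ρ).map_id]
  have h3 : f • e = (Ext.mk₀ ((Rep.resFunctor ρ).map s)).comp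
      ((Ext.mk₀ ((Rep.resFunctor ρ).map π)).comp e (zero_add _)) (zero_add _) := by
    rw [Ext.mk₀_comp_mk₀_assoc, hsF, ExC_mk_nsmul, ExC_nsmul_comp, Ext.mk₀_id_comp]
  have h4 := ExC_proj ρ hρ p hp hk Q B j
    ((Ext.mk₀ ((Rep.resFunctor ρ).map π)).comp e (zero_add _))
  rw [mul_smul, h3, ← ExC_comp_nsmul, h4, Ext.comp_zero]

theorem ExC_step1 {k L : Type} [CommRing k] [Group L] (f i : ℕ)
    {X Q M : Rep.{0} k L} (ι : X ⟶ Q) (π : Q ⟶ M) (w : ι ≫ π = 0)
    (hS : (ShortComplex.mk ι π w).ShortExact) [Projective Q]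
    (h : ∀ (B' : Rep.{0} k L) (e : Ext M B' (i + 1 + 1)), f • e = 0)
    (B' : Rep.{0} k L) (e' : Ext X B' (i + 1)) : f • e' = 0 := by
  let δ : Ext M X 1 := hS.extClass
  have h1 : δ.comp (f • e') (add_comm 1 (i + 1)) = 0 := by
    rw [ExC_comp_nsmul]
    exact h _ _
  obtain ⟨x2, hx2⟩ := Ext.contravariant_sequence_exact₁ hS B' (f • e') (add_comm 1 (i + 1)) h1
  have h2 : x2 = 0 := Ext.eq_zero_of_projective (P := Q) _
  have hx3 : (Ext.mk₀ ι).comp x2 (zero_add _) = f • e' := hx2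
  rw [← hx3, h2, Ext.comp_zero]

theorem ExC_step2 {k C L : Type} [CommRing k] [Group C] [Group L] (ρ : C →* L)
    (hρ : Function.Surjective ρ) (p : ℕ) (hp : 0 < p) (hk : Nat.card ρ.ker = p) (g : ℕ)
    {X Q M : Rep.{0} k L} (ι : X ⟶ Q) (π : Q ⟶ M) (w : ι ≫ π = 0)
    (hS : (ShortComplex.mk ι π w).ShortExact) [Projective Q] (B : Rep.{0} k C) (j : ℕ)
    (h : ∀ e' : Ext ((Rep.resFunctor ρ).obj X) B j, g • e' = 0)
    (e : Ext ((Rep.resFunctor ρ).obj M) B (j + 1)) : (g * p) • e = 0 := by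
  have hF := hS.map_of_exact (Rep.resFunctor ρ)
  let δ : Ext ((Rep.resFunctor ρ).obj M) ((Rep.resFunctor ρ).obj X) 1 := hF.extClass
  have h1 : (Ext.mk₀ ((Rep.resFunctor ρ).map π)).comp (p • e) (zero_add _) = 0 := by
    rw [ExC_comp_nsmul]
    exact ExC_proj ρ hρ p hp hk Q B j _
  obtain ⟨e', he'⟩ := Ext.contravariant_sequence_exact₃ hF B (p • e) h1 (add_comm 1 j)
  have he2 : δ.comp e' (add_comm 1 j) = p • e := he'
  rw [mul_smul, ← he2, ← ExC_comp_nsmul]
  have h2 : g • e' = 0 := h e'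
  exact (congrArg (fun u => δ.comp u (add_comm 1 j)) h2).trans (Ext.comp_zero _ _ _ _ _)

theorem ExC_core {k C L : Type} [CommRing k] [Group C] [Group L] (ρ : C →* L)
    (hρ : Function.Surjective ρ) (p : ℕ) (hp : 0 < p) (hk : Nat.card ρ.ker = p) (f i : ℕ)
    (M : Rep.{0} k L) (h : ∀ (B' : Rep.{0} k L) (e : Ext M B' (i + 1)), f • e = 0)
    (B : Rep.{0} k C) (j : ℕ) (hj : i + 1 ≤ j) (e : Ext ((Rep.resFunctor ρ).obj M) B j) :
    (p ^ (i + 1) * f) • e = 0 := by
  have hS : ∀ M : Rep.{0} k L, (ShortComplex.mk (kernel.ι (Projective.π M)) (Projective.π M)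
      (kernel.condition _)).ShortExact := fun M =>
    { exact := ShortComplex.exact_kernel (Projective.π M)
      mono_f := inferInstanceAs (Mono (kernel.ι (Projective.π M)))
      epi_g := inferInstanceAs (Epi (Projective.π M)) }
  induction i generalizing M j with
  | zero =>
    obtain ⟨j', rfl⟩ : ∃ j', j = j' + 1 := ⟨j - 1, by omega⟩
    rw [zero_add, pow_one]
    exact ExC_step0 ρ hρ p hp hk f _ _ _ (hS M) h B j' e
  | succ i ih =>
    obtain ⟨j', rfl⟩ : ∃ j', j = j' + 1 := ⟨j - 1, by omega⟩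
    have hK := ExC_step1 f i _ _ _ (hS M) h
    have h2 := ExC_step2 ρ hρ p hp hk (p ^ (i + 1) * f) _ _ _ (hS M) B j'
      (fun e' => ih _ hK j' (by omega) e') e
    have h3 : p ^ (i + 1 + 1) * f = p ^ (i + 1) * f * p := by ring
    rw [h3]
    exact h2

theorem ExC_main {k C L : Type} [CommRing k] [Group C] [Group L] (ρ : C →* L)
    (hρ : Function.Surjective ρ) (p : ℕ) (hp : 0 < p) (hk : Nat.card ρ.ker = p) (f i : ℕ)
    (h : ∀ B' : Rep.{0} k L, Kill f B' (i + 1)) (B : Rep.{0} k C) (j : ℕ) (hj : i + 1 ≤ j) :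
    Kill (p ^ (i + 1) * f) B j := by
  rw [KilA_ext]
  intro e
  exact ExC_core ρ hρ p hp hk f i (Rep.trivial k L k)
    (fun B' e' => (KilA_ext f B' (i + 1)).1 (h B') e') B j hj e

end Pool.Agent.H75.CP
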