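import Pool.Agent.H75.CP.DefsY

/-!
ROW StC (120 lines, pure group theory).  `E : CX H G`, `u^p = t`.  `H₁ = Subgroup.centralizer {u}` in `H`, `u₁ = ⟨u,_⟩ ∈ H₁` is central in `H₁`, `S₁ = zpowers u₁`, `L = H₁ ⧸ S₁`.
`E₁`: `π = mk' S₁`, `t = u₁`; infinite order: `u^n = 1` gives `t^n = u^{pn} = 1`, `n = 0`.
`ρ : stabilizer G u → L`, `g ↦ [E.s g]`: `E.s g` centralises `u` (`CX.Y0_smul` with `E.π (E.s g) = g`); a homomorphism and independent of the lift, since two lifts differ by `t^m = u^{pm} ∈ S₁`.  Onto: `h ∈ H₁`: `g = π h` fixes `u` and `ρ g = [h]`.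
Kernel: `ρ g = 1` iff `g ∈ zpowers (π u)` (`E.s g = u^i` implies `g = π(u)^i`; conversely a lift of `π(u)^i` is `u^i t^m = u^{i+pm}`).  `π(u)^p = π(t) = 1` and `π(u) ≠ 1` (`u = t^n` gives `t = u^p = t^{np}`, `np = 1`, impossible), so `zpowers (π u)` has order `p` (`orderOf_eq_prime`,
`Nat.card_zpowers`).
-/

namespace Pool.Agent.H75.CP

open CategoryTheory CategoryTheory.Abelian CategoryTheory.Limits Pool.Agent.H5.CP

theorem StC_main {H G : Type} [Group H] [Group G] (E : CX H G) (p : ℕ) [Fact p.Prime]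
    (u : E.Y0 p) :
    ∃ (L : Type) (_ : Group L) (E₁ : CX (Subgroup.centralizer {u.1}) L)
      (ρ : MulAction.stabilizer G u →* L),
      (E₁.t : H) = u.1 ∧ Function.Surjective ρ ∧ Nat.card ρ.ker = p := by
  classical
  have hp : p.Prime := Fact.out
  have hut : u.1 ^ p = E.t := u.2
  have hmem : ∀ x : H, x ∈ Subgroup.centralizer {u.1} ↔ u.1 * x = x * u.1 := fun x =>
    Subgroup.mem_centralizer_singleton_iff.trans eq_comm
  have humem : u.1 ∈ Subgroup.centralizer {u.1} := (hmem _).2 rfl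
  let H₁ : Subgroup H := Subgroup.centralizer {u.1}
  let u₁ : H₁ := ⟨u.1, humem⟩
  have hu1c : u₁ ∈ Subgroup.center H₁ := by
    rw [Subgroup.mem_center_iff]
    intro g
    exact Subtype.ext ((hmem g.1).1 g.2).symm
  let S₁ : Subgroup H₁ := Subgroup.zpowers u₁
  have hS₁c : S₁ ≤ Subgroup.center H₁ := by
    rw [Subgroup.zpowers_le]
    exact hu1c
  have hN : S₁.Normal := by
    constructor
    intro n hn g
    have h1 := Subgroup.mem_center_iff.1 (hS₁c hn) g
    rw [h1, mul_inv_cancel_right]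
    exact hn
  let mk : H₁ →* H₁ ⧸ S₁ := QuotientGroup.mk' S₁
  have hmk1 : ∀ x : H₁, mk x = 1 ↔ x ∈ S₁ := fun x => QuotientGroup.eq_one_iff x
  have hinf : ∀ n : ℤ, u₁ ^ n = 1 → n = 0 := by
    intro n hn
    have h1 : u.1 ^ n = 1 := by
      have := congrArg Subtype.val hn
      simpa using this
    apply E.inf
    rw [← hut, ← zpow_natCast, ← zpow_mul, mul_comm, zpow_mul, h1, one_zpow]
  let E₁ : CX H₁ (H₁ ⧸ S₁) :=
    { π := mk
      t := u₁
      surj := QuotientGroup.mk'_surjective S₁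
      ker := fun x => by
        rw [hmk1, Subgroup.mem_zpowers_iff]
        exact ⟨fun ⟨n, hn⟩ => ⟨n, hn.symm⟩, fun ⟨n, hn⟩ => ⟨n, hn.symm⟩⟩
      cent := hu1c
      inf := hinf }
  have hmk : ∀ a b : H₁, E.π a.1 = E.π b.1 → mk a = mk b := by
    intro a b h
    have h1 : E.π (b.1⁻¹ * a.1) = 1 := by rw [map_mul, map_inv, h, inv_mul_cancel]
    obtain ⟨n, hn⟩ := (E.ker _).1 h1
    have h2 : b⁻¹ * a ∈ S₁ := by
      rw [Subgroup.mem_zpowers_iff]
      refine ⟨(p : ℤ) * n, Subtype.ext ?_⟩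
      have h3 : ((u₁ ^ ((p : ℤ) * n) : H₁) : H) = u.1 ^ ((p : ℤ) * n) := by simp [u₁]
      rw [h3, zpow_mul, zpow_natCast, hut, ← hn]
      rfl
    have h4 := (hmk1 _).2 h2
    rw [map_mul, map_inv] at h4
    exact (inv_mul_eq_one.1 h4).symm
  have hstab : ∀ g : MulAction.stabilizer G u, E.s g.1 ∈ Subgroup.centralizer {u.1} := by
    intro g
    have h1 : g.1 • u = u := g.2
    have h2 : (E.π (E.s g.1) • u : E.Y0 p).1 = E.s g.1 * u.1 * (E.s g.1)⁻¹ := E.Y0_smul p _ u
    rw [E.π_s, h1] at h2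
    rw [hmem]
    calc u.1 * E.s g.1 = E.s g.1 * u.1 * (E.s g.1)⁻¹ * E.s g.1 := by rw [← h2]
      _ = E.s g.1 * u.1 := by group
  have hstab' : ∀ h : H₁, E.π h.1 • u = u := by
    intro h
    apply Subtype.ext
    rw [E.Y0_smul, ← (hmem h.1).1 h.2]
    group
  let f : MulAction.stabilizer G u → H₁ := fun g => ⟨E.s g.1, hstab g⟩
  have hf : ∀ g, E.π (f g).1 = g.1 := fun g => E.π_s g.1
  let ρ : MulAction.stabilizer G u →* H₁ ⧸ S₁ :=
    { toFun := fun g => mk (f g)
      map_one' := by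
        have h1 : mk (f 1) = mk 1 := hmk _ _ (by
          rw [hf]
          exact (map_one E.π).symm)
        rw [h1, map_one]
      map_mul' := fun a b => by
        have h1 : mk (f (a * b)) = mk (f a * f b) := hmk _ _ (by
          rw [hf]
          have h2 : ((f a * f b : H₁) : H) = (f a).1 * (f b).1 := rfl
          rw [h2, map_mul, hf, hf]
          rfl)
        rw [h1, map_mul] }
  have hρ : ∀ (g : MulAction.stabilizer G u) (h : H₁), E.π h.1 = g.1 → ρ g = mk h := by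
    intro g h hgh
    exact hmk _ _ (by rw [hf, hgh])
  refine ⟨H₁ ⧸ S₁, inferInstance, E₁, ρ, rfl, ?_, ?_⟩
  · intro y
    obtain ⟨h, rfl⟩ := QuotientGroup.mk'_surjective S₁ y
    exact ⟨⟨E.π h.1, hstab' h⟩, hρ _ _ rfl⟩
  · have hqp : E.π u.1 ^ p = 1 := by
      rw [← map_pow, hut]
      exact (E.ker _).2 ⟨1, by rw [zpow_one]⟩
    have hq1 : E.π u.1 ≠ 1 := by
      intro h
      obtain ⟨n, hn⟩ := (E.ker _).1 h
      have h1 : E.t ^ ((n * p : ℤ) - 1) = 1 := by
        rw [zpow_sub, zpow_mul, ← hn, zpow_natCast, hut, zpow_one, mul_inv_cancel]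
      have h2 := E.inf _ h1
      have h3 : (p : ℤ) ∣ 1 := ⟨n, by linarith⟩
      have h4 : p ∣ 1 := by exact_mod_cast h3
      exact hp.one_lt.ne' (Nat.dvd_one.1 h4)
    have hord : orderOf (E.π u.1) = p := orderOf_eq_prime hqp hq1
    have hK : ρ.ker.map (MulAction.stabilizer G u).subtype = Subgroup.zpowers (E.π u.1) := by
      ext g
      rw [Subgroup.mem_map, Subgroup.mem_zpowers_iff]
      constructor
      · rintro ⟨k, hk, rfl⟩
        have hk1 : mk (f k) = 1 := hk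
        rw [hmk1, Subgroup.mem_zpowers_iff] at hk1
        obtain ⟨i, hi⟩ := hk1
        refine ⟨i, ?_⟩
        have h1 : u.1 ^ i = E.s k.1 := by
          have := congrArg Subtype.val hi
          simpa [u₁, f] using this
        rw [← map_zpow, h1, E.π_s]
        rfl
      · rintro ⟨i, rfl⟩
        have h0 : E.π ((u₁ ^ i : H₁) : H) = E.π u.1 ^ i := by
          rw [← map_zpow]
          congr 1
        have h1 : E.π u.1 ^ i ∈ MulAction.stabilizer G u := by
          rw [← h0]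
          exact hstab' (u₁ ^ i)
        refine ⟨⟨E.π u.1 ^ i, h1⟩, ?_, rfl⟩
        rw [MonoidHom.mem_ker, hρ _ (u₁ ^ i) h0, hmk1, Subgroup.mem_zpowers_iff]
        exact ⟨i, rfl⟩
    have hc : Nat.card (ρ.ker.map (MulAction.stabilizer G u).subtype) = Nat.card ρ.ker :=
      (Nat.card_congr (Subgroup.equivMapOfInjective ρ.ker _ (Subgroup.subtype_injective _)).toEquiv).symm
    rw [← hc, hK, Nat.card_zpowers, hord]

end Pool.Agent.H75.CP
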