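import Pool.Agent.H75.CP.InK
import Pool.Agent.H75.CP.ExC
import Pool.Agent.H75.CP.StC
import Pool.Agent.H5.CP.SubC

/-!
ROW FLe (120 lines).  THE EXPONENT LEMMA, by induction on `k`.  `k = 0`: vacuous (`u = t` satisfies `u^1 = t`), `f = J = 0`.
`k + 1`: let `(f', J')` be given by induction for the same `n`; `f = J' + 1 + f'`, `J = max (2n+4) (J'+1)`.  Let `Y = E.Y0 p ⊕ G`, `j ≥ J`.  For every `y ∈ Y`: `Kill (p^f) (res B) j` on the stabilizer:
 `y = inr g`: the stabilizer is trivial (`isZero_groupCohomology_succ_of_subsingleton`, `KilA_one`, `KilA_dvd`).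
 `y = inl u`: the stabilizer is that of `u` (`Sum.smul_inl`; `KilB_main` with `MulEquiv.subgroupCongr` if necessary).  `StC_main`: `L, E₁, ρ`.  No `v ∈ H₁` has `v^(p^k) = E₁.t`, since then `v^(p^(k+1)) = u^p = t`.  `SubC_main`: `CD (ZMod p) H₁ n`.
 By induction `Kill (p^f') B' (J'+1)` for all `B' : Rep (ZMod (p^K)) L`; `ExC_main` with `i = J'`: `Kill (p^(J'+1) * p^f') (res B) j` for `j ≥ J'+1`.
`FunA_main`, then `InK_main`.
-/

namespace Pool.Agent.H75.CP

open CategoryTheory CategoryTheory.Abelian CategoryTheory.Limits Pool.Agent.H5.CP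

theorem FLe_inl {H G : Type} [Group H] [Group G] (E : CX H G) (p : ℕ) [Fact p.Prime] (u : E.Y0 p) :
    MulAction.stabilizer G u = MulAction.stabilizer G (Sum.inl u : (E.Y0 p) ⊕ G) := by
  ext g
  rw [MulAction.mem_stabilizer_iff, MulAction.mem_stabilizer_iff, Sum.smul_inl]
  exact ⟨fun h => congrArg Sum.inl h, fun h => Sum.inl_injective h⟩

theorem FLe_inr {H G : Type} [Group H] [Group G] (E : CX H G) (p : ℕ) [Fact p.Prime] (g : G) :
    Subsingleton (MulAction.stabilizer G (Sum.inr g : (E.Y0 p) ⊕ G)) := by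
  have h1 : ∀ a : MulAction.stabilizer G (Sum.inr g : (E.Y0 p) ⊕ G), a.1 = 1 := by
    intro a
    have h2 := MulAction.mem_stabilizer_iff.1 a.2
    rw [Sum.smul_inr] at h2
    have h3 : a.1 * g = g := Sum.inr_injective h2
    exact mul_eq_right.1 h3
  refine ⟨fun a b => ?_⟩
  apply Subtype.ext
  rw [h1 a, h1 b]

theorem FLe_main (p : ℕ) [Fact p.Prime] (k n : ℕ) :
    ∃ f J : ℕ, ∀ (H G : Type) [Group H] [Group G] (E : CX H G), CD (ZMod p) H n →
      (¬ ∃ u : H, u ^ (p ^ k) = E.t) → ∀ (K : ℕ) (B : Rep.{0} (ZMod (p ^ K)) G) (j : ℕ),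
        J ≤ j → Kill (p ^ f) B j := by
  induction k with
  | zero =>
    refine ⟨0, 0, ?_⟩
    intro H G _ _ E _ hno
    exact absurd ⟨E.t, by rw [pow_zero, pow_one]⟩ hno
  | succ k ih =>
    obtain ⟨f', J', ih⟩ := ih
    refine ⟨J' + 1 + f', max (2 * n + 4) (J' + 1), ?_⟩
    intro H G _ _ E hH hno K B j hj
    have hj1 : 2 * n + 4 ≤ j := (le_max_left _ _).trans hj
    have hj2 : J' + 1 ≤ j := (le_max_right _ _).trans hj
    refine InK_main E p n hH K B (p ^ (J' + 1 + f')) j hj1 ?_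
    obtain ⟨i, rfl⟩ : ∃ i, j = i + 1 := ⟨j - 1, by omega⟩
    refine FunA_main _ B _ i fun y => ?_
    rcases y with u | g
    · refine KilB_main (MulEquiv.subgroupCongr (FLe_inl E p u))
        (Rep.res (MulAction.stabilizer G u).subtype B) _ (AddEquiv.refl _) (fun g a => rfl) _ i ?_
      obtain ⟨L, hL, E₁, ρ, ht, hρ, hcard⟩ := StC_main E p u
      have hno1 : ¬ ∃ v : Subgroup.centralizer {u.1}, v ^ (p ^ k) = E₁.t := by
        rintro ⟨v, hv⟩
        apply hno
        refine ⟨v.1, ?_⟩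
        have h1 : (v.1 : H) ^ (p ^ k) = u.1 := (congrArg Subtype.val hv).trans ht
        rw [pow_succ, pow_mul, h1]
        exact u.2
      have hCD : CD (ZMod p) (Subgroup.centralizer {u.1}) n := SubC_main n hH _
      have hk : ∀ B' : Rep.{0} (ZMod (p ^ K)) L, Kill (p ^ f') B' (J' + 1) := fun B' =>
        ih _ L E₁ hCD hno1 K B' (J' + 1) (by omega)
      rw [pow_add]
      exact ExC_main ρ hρ p (Nat.Prime.pos Fact.out) hcard (p ^ f') J' hk _ (i + 1) hj2
    · refine KilA_dvd (one_dvd _) _ _ ((KilA_one _ _).2 ?_)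
      have := FLe_inr E p g
      exact isZero_groupCohomology_succ_of_subsingleton _ _

end Pool.Agent.H75.CP
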