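import Pool.Agent.H5.CP.FinC
import Pool.Agent.H5.CP.FinD
import Pool.Agent.H5.CP.DivA

/-!
ROW FiK (100 lines).  `M` of type `FP_{n+1}`, `p^f` kills `Ext^{n+1}(M, ℤ/p^K)` for all `K` ⟹ `X = Ext^{n+1}(M,ℤ)` is a torsion group.  `X` is finitely generated (`FinD_main`).  From `0 → ℤ → ℤ → ℤ/p^K → 0` (multiplication by `p^K`, trivial modules; see the end of H5/CP/DivH.lean or DivA.lean for
the short exact sequence and `Ext.covariant_sequence_exact₂`): `(p^f • x).comp (mk₀ π) = 0`, so `p^f • x = p^K • y`.  So the image `v` of `p^f • x` in `X/torsion ≅ ℤ^r` is divisible by `p^K` for all `K`, `v = 0`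
(e.g. `AlgV_main`-like, or `Module.Finite`/`Module.Free` of `X ⧸ torsion`, coordinates), so `p^f • x` is torsion, and so is `x`.
-/

namespace Pool.Agent.H75.CP

open CategoryTheory CategoryTheory.Abelian CategoryTheory.Limits Pool.Agent.H5.CP

/-- An element of a finitely generated abelian group which is divisible by all powers of `p` is
a torsion element. -/
theorem FiK_div {X : Type} [AddCommGroup X] (hX : AddGroup.FG X) (p : ℕ) (hp : 2 ≤ p) (z : X)
    (h : ∀ K : ℕ, ∃ y : X, z = (p ^ K) • y) : ∃ s : ℕ, 0 < s ∧ s • z = 0 := by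
  have hfin : Module.Finite ℤ X := Module.Finite.iff_addGroup_fg.2 hX
  let T := Submodule.torsion ℤ X
  have hfree : Module.Free ℤ (X ⧸ T) := inferInstance
  let b := Module.Free.chooseBasis ℤ (X ⧸ T)
  have hv : T.mkQ z = 0 := by
    apply b.repr.injective
    rw [map_zero]
    ext i
    rw [Finsupp.zero_apply]
    set c := b.repr (T.mkQ z) i with hc
    obtain ⟨y, hy⟩ := h c.natAbs
    have h1 : c = (p : ℤ) ^ c.natAbs * b.repr (T.mkQ y) i := by
      conv_lhs => rw [hc, hy]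
      rw [map_nsmul, map_nsmul, Finsupp.smul_apply, nsmul_eq_mul]
      push_cast
      rfl
    refine Int.eq_zero_of_abs_lt_dvd ⟨_, h1⟩ ?_
    rw [Int.abs_eq_natAbs]
    have h2 : c.natAbs < p ^ c.natAbs := Nat.lt_pow_self (by omega)
    exact_mod_cast h2
  rw [Submodule.mkQ_apply, Submodule.Quotient.mk_eq_zero] at hv
  obtain ⟨a, ha⟩ := hv
  have ha0 : (a : ℤ) ≠ 0 := nonZeroDivisors.ne_zero a.2
  refine ⟨(a : ℤ).natAbs, Int.natAbs_pos.2 ha0, ?_⟩
  have ha' : (a : ℤ) • z = 0 := ha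
  rcases Int.natAbs_eq (a : ℤ) with h1 | h1
  · rw [h1, natCast_zsmul] at ha'
    exact ha'
  · rw [h1, neg_smul, neg_eq_zero, natCast_zsmul] at ha'
    exact ha'

theorem FiK_nsmul_comp {C : Type*} [Category* C] [Abelian C] [HasExt.{0} C] {X Y Z : C} {a b c : ℕ}
    (α : Ext X Y a) (β : Ext Y Z b) (h : a + b = c) (r : ℕ) :
    (r • α).comp β h = r • α.comp β h :=
  map_nsmul (Ext.postcomp β X h) r α

theorem FiK_main {G : Type} [Group G] (M : Rep.{0} ℤ G) (n : ℕ) (hM : FPm ℤ G (n + 1) M)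
    (p : ℕ) [Fact p.Prime] (f : ℕ)
    (h : ∀ (K : ℕ) (e : Ext M (Rep.trivial ℤ G (ZMod (p ^ K))) (n + 1)), (p ^ f) • e = 0)
    (x : Ext M (Rep.trivial ℤ G ℤ) (n + 1)) : ∃ s : ℕ, 0 < s ∧ s • x = 0 := by
  have hp : 2 ≤ p := (Fact.out : p.Prime).two_le
  obtain ⟨s, hs, h1⟩ := FiK_div (FinD_main (n + 1) M hM) p hp ((p ^ f) • x) (by
    intro K
    obtain ⟨w, hS⟩ := divA_seq G (p ^ K) (by positivity)
    obtain ⟨y, hy⟩ := Ext.covariant_sequence_exact₂ M hS ((p ^ f) • x) (by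
      rw [FiK_nsmul_comp]
      exact h K _)
    refine ⟨y, ?_⟩
    rw [← divA_nsmul y (p ^ K), ← hy]
    exact congrArg (fun z => Ext.comp y (Ext.mk₀ z) (add_zero (n + 1))) (divA_mul G (p ^ K)))
  refine ⟨s * p ^ f, by positivity, ?_⟩
  rw [mul_smul]
  exact h1

end Pool.Agent.H75.CP
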