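import Pool.Agent.H75.CP.Defs
import Pool.Agent.H5.CP.CocA
import Pool.Agent.H5.CP.ExB

/-!
ROW KilA (60 lines).  Elementary facts on `Kill`.
`KilA_iff`: same proof as `CocA_iff` (H5/CP/CocA.lean), with multiples: `groupCohomology A (n+1)` is cocycles modulo
coboundaries; `m • [f] = 0` iff `m • f` is a coboundary (`groupCohomology.π_eq_zero_iff`-like lemmas, or work with
`HomologicalComplex.homologyπ`, `toCycles`, as in `ExA_equiv`; every class is represented by a cocycle).
`KilA_one`: `ModuleCat.isZero_iff_subsingleton`.  `KilA_ext` is `ExB_smul`.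
-/

namespace Pool.Agent.H75.CP

open CategoryTheory CategoryTheory.Abelian CategoryTheory.Limits Pool.Agent.H5.CP

theorem KilA_pi {k G : Type} [CommRing k] [Group G] (A : Rep.{0} k G) (n : ℕ)
    (z : groupCohomology.cocycles A (n + 1)) :
    groupCohomology.π A (n + 1) z = 0 ↔
      ∃ x : (groupCohomology.inhomogeneousCochains A).X n,
        groupCohomology.toCocycles A n (n + 1) x = z := by
  let K := groupCohomology.inhomogeneousCochains A
  let S : ShortComplex (ModuleCat k) :=
    ShortComplex.mk (K.toCycles n (n + 1)) (K.homologyπ (n + 1)) (K.toCycles_comp_homologyπ n (n + 1))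
  have hS : S.Exact := S.exact_of_g_is_cokernel (K.homologyIsCokernel n (n + 1) (by simp))
  constructor
  · intro h
    exact (ShortComplex.moduleCat_exact_iff S).1 hS z h
  · rintro ⟨x, rfl⟩
    have h := K.toCycles_comp_homologyπ n (n + 1)
    have h2 := congrArg (fun t => t.hom x) h
    exact h2

theorem KilA_iCo {k G : Type} [CommRing k] [Group G] (A : Rep.{0} k G) (n : ℕ)
    (x : (groupCohomology.inhomogeneousCochains A).X n) :
    groupCohomology.iCocycles A (n + 1) (groupCohomology.toCocycles A n (n + 1) x) = dd A n x := by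
  have h := (groupCohomology.inhomogeneousCochains A).toCycles_i n (n + 1)
  have h2 := congrArg (fun t => t.hom x) h
  refine Eq.trans h2 ?_
  rw [groupCohomology.inhomogeneousCochains.d_def A n]
  exact CocA_dd A n x

theorem KilA_iff {k G : Type} [CommRing k] [Group G] (m : ℕ) (A : Rep.{0} k G) (n : ℕ) :
    Kill m A (n + 1) ↔
      ∀ f : (Fin (n + 1) → G) → A, dd A (n + 1) f = 0 →
        ∃ g : (Fin n → G) → A, dd A n g = m • f := by
  have hinj : Function.Injective (groupCohomology.iCocycles A (n + 1)) :=
    (ModuleCat.mono_iff_injective _).1 inferInstance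
  constructor
  · intro h f hf
    have hf' : inhomogeneousCochains.d A (n + 1) f = 0 := (CocA_dd A (n + 1) f).trans hf
    have h1 := h (groupCohomology.π A (n + 1) (groupCohomology.cocyclesMk f hf'))
    rw [← map_nsmul, KilA_pi] at h1
    obtain ⟨x, hx⟩ := h1
    refine ⟨x, ?_⟩
    rw [← KilA_iCo, hx, map_nsmul, groupCohomology.iCocycles_mk]
  · intro h x
    induction x using groupCohomology_induction_on with
    | h z =>
      rw [← map_nsmul, KilA_pi]
      have hz : dd A (n + 1) (groupCohomology.iCocycles A (n + 1) z) = 0 := by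
        have h1 := (groupCohomology.inhomogeneousCochains A).iCycles_d (n + 1) (n + 2)
        have h2 := congrArg (fun t => t.hom z) h1
        rw [groupCohomology.inhomogeneousCochains.d_def A (n + 1)] at h2
        exact (CocA_dd A (n + 1) _).symm.trans h2
      obtain ⟨g, hg⟩ := h _ hz
      refine ⟨g, hinj ?_⟩
      rw [KilA_iCo, map_nsmul]
      exact hg

theorem KilA_one {k G : Type} [CommRing k] [Group G] (A : Rep.{0} k G) (j : ℕ) :
    Kill 1 A j ↔ IsZero (groupCohomology A j) := by
  rw [ModuleCat.isZero_iff_subsingleton]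
  unfold Kill
  constructor
  · intro h
    refine ⟨fun x y => ?_⟩
    have hx := h x
    have hy := h y
    rw [one_smul] at hx hy
    rw [hx, hy]
  · intro h x
    exact Subsingleton.elim _ _

theorem KilA_dvd {k G : Type} [CommRing k] [Group G] {m m' : ℕ} (h : m ∣ m') (A : Rep.{0} k G)
    (j : ℕ) (hk : Kill m A j) : Kill m' A j := by
  obtain ⟨c, rfl⟩ := h
  intro x
  rw [mul_comm, mul_smul, hk x, smul_zero]

theorem KilA_ext {k G : Type} [CommRing k] [Group G] (m : ℕ) (A : Rep.{0} k G) (j : ℕ) :
    Kill m A j ↔ ∀ e : Ext (Rep.trivial k G k) A j, m • e = 0 := by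
  exact ExB_smul A j m

end Pool.Agent.H75.CP
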