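import Pool.Agent.H75.CP.Defs
import Pool.Agent.H5.CP.RGys
import Pool.Agent.H5.CP.ROne

/-!
ROW RetL (60 lines).  `t` central of infinite order in `H`, `χ(t) = 1`, `N` a module over `H/⟨t⟩`: `H^{j+2}(H;N) = 0` implies `H^{j+1}(H/⟨t⟩;N) = 0`.
`ExB_zero`; `rgys_down` (H5/CP/RGys.lean): `Ext^{j+1}_H(I, Infl N) = 0`; `QRes_main` with `s = 1` (class `TRegC_main`, `AugE_ker`): `Ext^{j+1}(E, N) = 0`, `E = (QF k S).obj I`;
`RetB_main`: `k` is a retract of `E` over `H/⟨t⟩`, so `Ext^{j+1}(k,N) = 0` (for `e ∈ Ext(k,N)`: `e = (mk₀ i).comp ((mk₀ r).comp e)` and `(mk₀ r).comp e ∈ Ext(E,N)` is zero).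
-/

namespace Pool.Agent.H75.CP

open CategoryTheory CategoryTheory.Abelian CategoryTheory.Limits Pool.Agent.H5.CP

theorem RetL_main {k H : Type} [CommRing k] [Group H] (t : H) (hc : t ∈ Subgroup.center H)
    (ht : ∀ n : ℤ, t ^ n = 1 → n = 0) [(Subgroup.zpowers t).Normal] (χ : H →* Multiplicative k)
    (hχ : χ t = Multiplicative.ofAdd 1) (N : Rep.{0} k (H ⧸ Subgroup.zpowers t)) (j : ℕ)
    (h : IsZero (groupCohomology ((Infl k (Subgroup.zpowers t)).obj N) (j + 2))) :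
    IsZero (groupCohomology N (j + 1)) := by
  obtain ⟨C, hC⟩ := TRegC_main k t hc ht
  have hI : C.P (kernel (aug k H)) := (hC _).2 (AugE_ker t ht)
  have h1 : ∀ e : Ext (kernel (aug k H)) ((Infl k (Subgroup.zpowers t)).obj N) (j + 1), e = 0 :=
    fun e => rgys_down _ j ((ExB_zero _ (j + 2)).1 h) e
  have h2 := (QRes_main C (kernel (aug k H)) hI N (j + 1) 1).1 (fun e => by rw [one_smul, h1 e])
  obtain ⟨r⟩ := RetB_main t hc χ hχ
  rw [ExB_zero]
  intro e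
  have h3 : (Ext.mk₀ r.r).comp e (zero_add (j + 1)) = 0 := by
    have h4 := h2 ((Ext.mk₀ r.r).comp e (zero_add (j + 1)))
    rwa [one_smul] at h4
  have h5 : (Ext.mk₀ r.i).comp ((Ext.mk₀ r.r).comp e (zero_add (j + 1))) (zero_add (j + 1)) = e := by
    rw [Ext.mk₀_comp_mk₀_assoc, r.retract, Ext.mk₀_id_comp]
  rw [← h5, h3, Ext.comp_zero]

end Pool.Agent.H75.CP
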