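import Pool.Agent.H75.CP.Defs
import Pool.Agent.H5.CP.Root

/-!
ROW RooX (120 lines).  The explicit root group (pure group theory; adapt H5/CP/Root.lean).  `E : CX H G`.  `H' = (H × Multiplicative ℤ) ⧸ ⟨(t, ofAdd (-p))⟩` (`Root_c p t`, central), `t' = [(1, ofAdd 1)]`,
`π' [(h,n)] = π h` (well defined: `π t = 1`), `χ [(h,n)] = n mod p` (`Root_chi0`).
 * `π'` onto.  `π'[(h,n)] = 1` iff `h = t^a`, iff `[(h,n)] = [(t^a,-pa)(1,n+pa)] = t'^(n+pa)`; conversely `π'(t') = 1`.
 * `t'` is central; `t'^n = 1` means `(1,n) = (t^a,-pa)`: `a = 0` (`E.inf`), `n = 0`.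
 * `χ(t') = 1`.  `H ≃ ker χ`, `h ↦ [(h,0)]` (see `Root_main`).
-/

namespace Pool.Agent.H75.CP

open CategoryTheory CategoryTheory.Abelian CategoryTheory.Limits Pool.Agent.H5.CP

/-- the central element -/
def roox_c {G : Type} [Group G] (p : ℕ) (z : G) : G × Multiplicative ℤ :=
  (z, Multiplicative.ofAdd (-(p : ℤ)))

theorem roox_c_zpow {G : Type} [Group G] (p : ℕ) (z : G) (a : ℤ) :
    roox_c p z ^ a = (z ^ a, Multiplicative.ofAdd (-(p : ℤ) * a)) := by
  unfold roox_c
  rw [Prod.pow_mk]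
  congr 1
  rw [← ofAdd_zsmul, smul_eq_mul, mul_comm]

theorem roox_c_center {G : Type} [Group G] (p : ℕ) (z : G) (hc : z ∈ Subgroup.center G) :
    roox_c p z ∈ Subgroup.center (G × Multiplicative ℤ) := by
  rw [Subgroup.mem_center_iff] at hc ⊢
  intro g
  exact Prod.ext (hc g.1) (mul_comm _ _)

theorem roox_mk {G : Type} [Group G] (p : ℕ) (z : G)
    [(Subgroup.zpowers (roox_c p z)).Normal] (g : G) (n : ℤ) :
    (QuotientGroup.mk (g, Multiplicative.ofAdd n) :
      (G × Multiplicative ℤ) ⧸ Subgroup.zpowers (roox_c p z)) = 1 ↔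
      ∃ a : ℤ, z ^ a = g ∧ -(p : ℤ) * a = n := by
  rw [QuotientGroup.eq_one_iff, Subgroup.mem_zpowers_iff]
  constructor
  · rintro ⟨a, ha⟩
    rw [roox_c_zpow] at ha
    have h1 := congrArg Prod.fst ha
    have h2 := congrArg Prod.snd ha
    exact ⟨a, h1, Multiplicative.ofAdd.injective h2⟩
  · rintro ⟨a, h1, h2⟩
    refine ⟨a, ?_⟩
    rw [roox_c_zpow, h1, h2]

/-- the character on the product -/
def roox_chi (p : ℕ) (G : Type) [Group G] : G × Multiplicative ℤ →* Multiplicative (ZMod p) :=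
  (AddMonoidHom.toMultiplicative (Int.castAddHom (ZMod p))).comp
    (MonoidHom.snd G (Multiplicative ℤ))

theorem roox_chi_apply (p : ℕ) (G : Type) [Group G] (g : G) (n : ℤ) :
    roox_chi p G (g, Multiplicative.ofAdd n) = Multiplicative.ofAdd (n : ZMod p) := rfl

theorem RooX_main {H G : Type} [Group H] [Group G] (E : CX H G) (p : ℕ) [Fact p.Prime] :
    ∃ (H' : Type) (_ : Group H') (E' : CX H' G) (χ : H' →* Multiplicative (ZMod p)),
      χ E'.t = Multiplicative.ofAdd 1 ∧ Nonempty (χ.ker ≃* H) := by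
  have hp0 : (p : ℤ) ≠ 0 := by
    exact_mod_cast (Fact.out : p.Prime).ne_zero
  have hπt : ∀ a : ℤ, E.π (E.t ^ a) = 1 := fun a => (E.ker _).2 ⟨a, rfl⟩
  have hN : (Subgroup.zpowers (roox_c p E.t)).Normal :=
    zpowers_normal _ (roox_c_center p E.t E.cent)
  have hker : ∀ x ∈ Subgroup.zpowers (roox_c p E.t), roox_chi p H x = 1 := by
    intro x hx
    rw [Subgroup.mem_zpowers_iff] at hx
    obtain ⟨a, rfl⟩ := hx
    rw [roox_c_zpow, roox_chi_apply]
    push_cast
    simp
  have hker2 : ∀ x ∈ Subgroup.zpowers (roox_c p E.t),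
      (E.π.comp (MonoidHom.fst H (Multiplicative ℤ))) x = 1 := by
    intro x hx
    rw [Subgroup.mem_zpowers_iff] at hx
    obtain ⟨a, rfl⟩ := hx
    rw [roox_c_zpow]
    simp only [MonoidHom.comp_apply, MonoidHom.coe_fst]
    exact hπt a
  let χ : ((H × Multiplicative ℤ) ⧸ Subgroup.zpowers (roox_c p E.t)) →*
      Multiplicative (ZMod p) := QuotientGroup.lift _ (roox_chi p H) hker
  let ψ : ((H × Multiplicative ℤ) ⧸ Subgroup.zpowers (roox_c p E.t)) →* G :=
    QuotientGroup.lift _ _ hker2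
  let t : (H × Multiplicative ℤ) ⧸ Subgroup.zpowers (roox_c p E.t) :=
    QuotientGroup.mk (1, Multiplicative.ofAdd (1 : ℤ))
  have htz : ∀ n : ℤ, t ^ n = QuotientGroup.mk (1, Multiplicative.ofAdd n) := by
    intro n
    have h1 : t ^ n = QuotientGroup.mk ((1, Multiplicative.ofAdd (1 : ℤ)) ^ n) :=
      (QuotientGroup.mk_zpow _ _ _).symm
    rw [h1, Prod.pow_mk, one_zpow]
    congr 2
    rw [← ofAdd_zsmul, smul_eq_mul, mul_one]
  have hsurj : ∀ x : (H × Multiplicative ℤ) ⧸ Subgroup.zpowers (roox_c p E.t),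
      ∃ (g : H) (n : ℤ), x = QuotientGroup.mk (g, Multiplicative.ofAdd n) := by
    intro x
    obtain ⟨y, rfl⟩ := QuotientGroup.mk_surjective x
    exact ⟨y.1, Multiplicative.toAdd y.2, rfl⟩
  have hχ : ∀ (g : H) (n : ℤ), χ (QuotientGroup.mk (g, Multiplicative.ofAdd n)) =
      Multiplicative.ofAdd (n : ZMod p) := fun g n => rfl
  have hψ : ∀ (g : H) (n : ℤ), ψ (QuotientGroup.mk (g, Multiplicative.ofAdd n)) = E.π g :=
    fun g n => rfl
  refine ⟨(H × Multiplicative ℤ) ⧸ Subgroup.zpowers (roox_c p E.t), inferInstance,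
    ⟨ψ, t, ?_, ?_, ?_, ?_⟩, χ, ?_, ?_⟩
  · intro y
    obtain ⟨g, rfl⟩ := E.surj y
    exact ⟨QuotientGroup.mk (g, Multiplicative.ofAdd (0 : ℤ)), rfl⟩
  · intro x
    obtain ⟨g, n, rfl⟩ := hsurj x
    rw [hψ, E.ker]
    constructor
    · rintro ⟨a, ha⟩
      refine ⟨n + p * a, ?_⟩
      rw [htz, eq_comm, ← mul_inv_eq_one]
      change (QuotientGroup.mk ((1, Multiplicative.ofAdd (n + p * a)) *
        (g, Multiplicative.ofAdd n)⁻¹) : _ ⧸ Subgroup.zpowers (roox_c p E.t)) = 1
      have h1 : ((1 : H), Multiplicative.ofAdd (n + p * a)) *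
          (g, Multiplicative.ofAdd n)⁻¹ = (E.t ^ (-a), Multiplicative.ofAdd ((p : ℤ) * a)) := by
        refine Prod.ext ?_ ?_
        · change 1 * g⁻¹ = E.t ^ (-a)
          rw [one_mul, zpow_neg, ha]
        · change Multiplicative.ofAdd (n + p * a) * (Multiplicative.ofAdd n)⁻¹ = _
          rw [← ofAdd_neg, ← ofAdd_add]
          congr 1
          ring
      rw [h1, roox_mk]
      exact ⟨-a, rfl, by ring⟩
    · rintro ⟨a, ha⟩
      rw [htz] at ha
      have h2 := congrArg ψ ha
      rw [hψ, hψ, map_one] at h2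
      exact (E.ker g).1 h2
  · rw [Subgroup.mem_center_iff]
    intro x
    obtain ⟨g, n, rfl⟩ := hsurj x
    change (QuotientGroup.mk _ : _ ⧸ Subgroup.zpowers (roox_c p E.t)) = QuotientGroup.mk _
    congr 1
    refine Prod.ext ?_ (mul_comm _ _)
    change g * 1 = 1 * g
    rw [mul_one, one_mul]
  · intro n hn
    rw [htz, roox_mk] at hn
    obtain ⟨a, h1, h2⟩ := hn
    rw [E.inf a h1] at h2
    linarith
  · change χ (QuotientGroup.mk (1, Multiplicative.ofAdd (1 : ℤ))) = _
    rw [hχ]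
    simp
  · let i0 : H →* (H × Multiplicative ℤ) ⧸ Subgroup.zpowers (roox_c p E.t) :=
      (QuotientGroup.mk' _).comp (MonoidHom.inl H (Multiplicative ℤ))
    have hi0 : ∀ g, i0 g = QuotientGroup.mk (g, Multiplicative.ofAdd (0 : ℤ)) := fun g => rfl
    have hmem : ∀ g, i0 g ∈ χ.ker := by
      intro g
      rw [MonoidHom.mem_ker, hi0, hχ]
      simp
    let i1 : H →* χ.ker := i0.codRestrict χ.ker hmem
    have hi1 : ∀ g, ((i1 g : χ.ker) :
        (H × Multiplicative ℤ) ⧸ Subgroup.zpowers (roox_c p E.t)) =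
        QuotientGroup.mk (g, Multiplicative.ofAdd (0 : ℤ)) := fun g => rfl
    have hbij : Function.Bijective i1 := by
      constructor
      · rw [injective_iff_map_eq_one]
        intro g hg
        have h1 : (QuotientGroup.mk (g, Multiplicative.ofAdd (0 : ℤ)) :
          (H × Multiplicative ℤ) ⧸ Subgroup.zpowers (roox_c p E.t)) = 1 := by
          rw [← hi1, hg]
          rfl
        rw [roox_mk] at h1
        obtain ⟨a, ha1, ha2⟩ := h1
        have ha : a = 0 := by
          rcases mul_eq_zero.1 ha2 with h | h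
          · exact absurd (neg_eq_zero.1 h) hp0
          · exact h
        rw [← ha1, ha, zpow_zero]
      · rintro ⟨x, hx⟩
        obtain ⟨g, n, rfl⟩ := hsurj x
        rw [MonoidHom.mem_ker, hχ] at hx
        have h1 : ((n : ℤ) : ZMod p) = 0 := by
          have := congrArg Multiplicative.toAdd hx
          simpa using this
        rw [ZMod.intCast_zmod_eq_zero_iff_dvd] at h1
        obtain ⟨m, hm⟩ := h1
        refine ⟨g * E.t ^ m, ?_⟩
        apply Subtype.ext
        rw [hi1]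
        have h2 : (QuotientGroup.mk (E.t ^ (-m), Multiplicative.ofAdd ((p : ℤ) * m)) :
          (H × Multiplicative ℤ) ⧸ Subgroup.zpowers (roox_c p E.t)) = 1 := by
          rw [roox_mk]
          exact ⟨-m, rfl, by ring⟩
        have h3 : (QuotientGroup.mk (g, Multiplicative.ofAdd n) :
            (H × Multiplicative ℤ) ⧸ Subgroup.zpowers (roox_c p E.t)) =
            QuotientGroup.mk (g * E.t ^ m, Multiplicative.ofAdd (0 : ℤ)) *
              QuotientGroup.mk (E.t ^ (-m), Multiplicative.ofAdd ((p : ℤ) * m)) := by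
          rw [← QuotientGroup.mk_mul]
          congr 1
          refine Prod.ext ?_ ?_
          · change g = g * E.t ^ m * E.t ^ (-m)
            rw [mul_assoc, ← zpow_add, add_neg_cancel, zpow_zero, mul_one]
          · change Multiplicative.ofAdd n =
              Multiplicative.ofAdd (0 : ℤ) * Multiplicative.ofAdd ((p : ℤ) * m)
            rw [← ofAdd_add, zero_add, hm]
        change _ = (QuotientGroup.mk (g, Multiplicative.ofAdd n) :
            (H × Multiplicative ℤ) ⧸ Subgroup.zpowers (roox_c p E.t))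
        rw [h3, h2, mul_one]
    exact ⟨(MulEquiv.ofBijective i1 hbij).symm⟩

end Pool.Agent.H75.CP
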