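import Pool.Agent.H75.CP.SerL
import Pool.Agent.H75.CP.RetL
import Pool.Agent.H75.CP.RooX
import Pool.Agent.H75.CP.KilB
import Pool.Agent.H5.CP.CocC

/-!
ROW VMa (120 lines).  THE VANISHING THEOREM.  `E : CX H G`, `CD (ZMod p) H n`, `B : Rep (ZMod p) G` acyclic on all subgroups of order `p` of `G`.  Then `H^j(G;B) = 0` for `j ≥ 2n+3`.
Let `H', E', χ` be as in `RooX_main`, `B' = Rep.res E'.π B`.
(1) `PAc p B'`: let `x ∈ H'`, `x^p = 1`, `x ≠ 1`, `y = E'.π x`.  `y^p = 1`.  If a power `x^i` has `E'.π (x^i) = 1` then `x^i = t'^m` and `t'^(mp) = 1`, so `m = 0` (`E'.inf`), `x^i = 1`.  In particular `y ≠ 1` and `E'.π` restricts to an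
 isomorphism `zpowers x ≃* zpowers y` (`MonoidHom.subgroupMap`, `MulEquiv.ofBijective`).  `KilB_main` (with `e` the identity, `KilA_one`) transports the vanishing from `Rep.res (zpowers y).subtype B` to `Rep.res (zpowers x).subtype B'`.
(2) `D : PData H' p` with `π = χ`, `σ c = t' ^ c.val` (see StepP.lean).  `CD (ZMod p) χ.ker (n+1)` by `CocC_CD`.  `SerL_main`: `H^i(H';B') = 0` for `i ≥ 2n+3`.
(3) `S = zpowers t'` (normal: `zpowers_normal`), `θ : H' ⧸ S ≃* G` induced by `E'.π` (`QuotientGroup.quotientKerEquivOfSurjective` with `ker = S`).  `N = Rep.res θ B`; `(Infl k S).obj N` is `B'` (underlying module and action agree; `KilB_main` with identities).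
 `RetL_main` (with `k = ZMod p`, `χ`) : `H^j(H'/S;N) = 0` for `j ≥ 2n+2`; `KilB_main` gives `H^j(G;B) = 0`.
-/

namespace Pool.Agent.H75.CP

open CategoryTheory CategoryTheory.Abelian CategoryTheory.Limits Pool.Agent.H5.CP

theorem VMa_pac {H G : Type} [Group H] [Group G] (E : CX H G) {k : Type} [CommRing k] (p : ℕ)
    (hp : p ≠ 0) (B : Rep.{0} k G) (hB : PAc p B) : PAc p (Rep.res E.π B) := by
  intro x hxp hx1 j
  have hker : ∀ a : H, a ^ p = 1 → E.π a = 1 → a = 1 := by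
    intro a hap ha
    obtain ⟨m, rfl⟩ := (E.ker a).1 ha
    have h1 : E.t ^ (m * (p : ℤ)) = 1 := by
      rw [zpow_mul, zpow_natCast]
      exact hap
    have h2 := E.inf _ h1
    have h3 : m = 0 := by
      rcases mul_eq_zero.1 h2 with h | h
      · exact h
      · exact absurd (by exact_mod_cast h) hp
    rw [h3, zpow_zero]
  set y : G := E.π x with hy
  have hyp : y ^ p = 1 := by rw [hy, ← map_pow, hxp, map_one]
  have hy1 : y ≠ 1 := fun h => hx1 (hker x hxp h)
  have hmem : ∀ a : Subgroup.zpowers x, E.π (a : H) ∈ Subgroup.zpowers y := by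
    intro a
    obtain ⟨n, hn⟩ := Subgroup.mem_zpowers_iff.1 a.2
    rw [← hn, map_zpow]
    exact Subgroup.zpow_mem _ (Subgroup.mem_zpowers y) n
  have hpow : ∀ a : Subgroup.zpowers x, (a : H) ^ p = 1 := by
    intro a
    obtain ⟨n, hn⟩ := Subgroup.mem_zpowers_iff.1 a.2
    rw [← hn, ← zpow_natCast, ← zpow_mul, mul_comm, zpow_mul, zpow_natCast, hxp, one_zpow]
  let ψ : Subgroup.zpowers x →* Subgroup.zpowers y :=
    (E.π.comp (Subgroup.zpowers x).subtype).codRestrict (Subgroup.zpowers y) hmem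
  have hψ : Function.Bijective ψ := by
    constructor
    · rw [injective_iff_map_eq_one]
      intro a ha
      have h1 : E.π (a : H) = 1 := congrArg Subtype.val ha
      exact Subtype.ext (hker _ (hpow a) h1)
    · intro b
      obtain ⟨n, hn⟩ := Subgroup.mem_zpowers_iff.1 b.2
      refine ⟨⟨x ^ n, Subgroup.zpow_mem _ (Subgroup.mem_zpowers x) n⟩, Subtype.ext ?_⟩
      show E.π (x ^ n) = (b : G)
      rw [map_zpow, hn]
  let φ : Subgroup.zpowers x ≃* Subgroup.zpowers y := MulEquiv.ofBijective ψ hψ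
  rw [← KilA_one]
  refine KilB_main φ.symm (Rep.res (Subgroup.zpowers y).subtype B)
    (Rep.res (Subgroup.zpowers x).subtype (Rep.res E.π B)) (AddEquiv.refl B.V) ?_ 1 j
    ((KilA_one _ _).2 (hB y hyp hy1 j))
  intro g a
  have h1 : (g : G) = E.π ((φ.symm g : Subgroup.zpowers x) : H) := by
    have h2 : ψ (φ.symm g) = g := φ.apply_symm_apply g
    exact (congrArg Subtype.val h2).symm
  show B.ρ (g : G) a = B.ρ (E.π ((φ.symm g : Subgroup.zpowers x) : H)) a
  rw [← h1]

theorem VMa_main {H G : Type} [Group H] [Group G] (E : CX H G) (p : ℕ) [Fact p.Prime] (n : ℕ)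
    (hH : CD (ZMod p) H n) (B : Rep.{0} (ZMod p) G) (hB : PAc p B) (j : ℕ)
    (hj : 2 * n + 3 ≤ j) : IsZero (groupCohomology B j) := by
  obtain ⟨H', iH', E', χ, hχ, ⟨e⟩⟩ := RooX_main E p
  have hp0 : p ≠ 0 := (Fact.out : p.Prime).ne_zero
  have hB' : PAc p (Rep.res E'.π B) := VMa_pac E' p hp0 B hB
  have hker : CD (ZMod p) χ.ker (n + 1) := CocC_CD e n hH
  let D : PData H' p :=
    { π := χ
      σ := fun c => E'.t ^ (c.val)
      hσ := fun c => by
        rw [map_pow, hχ, ← ofAdd_nsmul]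
        congr 1
        rw [nsmul_eq_mul, mul_one, ZMod.natCast_zmod_val] }
  have hvan : ∀ i, 2 * n + 3 ≤ i → IsZero (groupCohomology (Rep.res E'.π B) i) := fun i hi =>
    SerL_main D (n + 1) hker (Rep.res E'.π B) hB' i (by omega)
  haveI hN : (Subgroup.zpowers E'.t).Normal := zpowers_normal E'.t E'.cent
  have hkereq : Subgroup.zpowers E'.t = E'.π.ker := by
    ext x
    rw [MonoidHom.mem_ker, E'.ker, Subgroup.mem_zpowers_iff]
    exact ⟨fun ⟨m, hm⟩ => ⟨m, hm.symm⟩, fun ⟨m, hm⟩ => ⟨m, hm.symm⟩⟩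
  let θ : H' ⧸ Subgroup.zpowers E'.t ≃* G :=
    (QuotientGroup.quotientMulEquivOfEq hkereq).trans
      (QuotientGroup.quotientKerEquivOfSurjective E'.π E'.surj)
  have hθ : ∀ x : H', θ (QuotientGroup.mk x) = E'.π x := fun x => rfl
  let N : Rep.{0} (ZMod p) (H' ⧸ Subgroup.zpowers E'.t) := Rep.res θ.toMonoidHom B
  obtain ⟨i, rfl⟩ : ∃ i, j = i + 1 := ⟨j - 1, by omega⟩
  have h1 : IsZero (groupCohomology ((Infl (ZMod p) (Subgroup.zpowers E'.t)).obj N) (i + 2)) := by
    rw [← KilA_one]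
    refine KilB_main (MulEquiv.refl H') (Rep.res E'.π B)
      ((Infl (ZMod p) (Subgroup.zpowers E'.t)).obj N) (AddEquiv.refl B.V) ?_ 1 (i + 1)
      ((KilA_one _ _).2 (hvan _ (by omega)))
    intro g a
    rfl
  have h2 := RetL_main E'.t E'.cent E'.inf χ hχ N i h1
  rw [← KilA_one] at h2 ⊢
  refine KilB_main θ N B (AddEquiv.refl B.V) ?_ 1 i h2
  intro g a
  rfl

end Pool.Agent.H75.CP
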