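import Pool.Agent.H75.CP.NAc
import Pool.Agent.H75.CP.CXK
import Pool.Agent.H75.CP.VMa
import Pool.Agent.H5.CP.NoTor

/-!
ROW MPc (120 lines).  `g(a₁) = 1`, `K = j(ker g)`, `H = Γ/K`, `CD (ZMod p) H n`; `F` a field of characteristic `p`, `μ ∈ F` not in the prime field.  Then `H^j(G; NC E (cF f g μ)) = 0` for `j ≥ 2n+3`.
(1) Over `ZMod p` (`ZMod.algebra F p`): `c'(a) = LinearMap.mulLeft (ZMod p) (f(a) - μ g(a))`.  `PAc p (NC E c')` by `NAc_main`: let `x ∈ Γ`, `q x ≠ 1`, `x^p = j(a)`.  If `p ∣ g(a)`, `g(a) = p m`: in `H`: `[x]^p = [j(a)] = t^{pm}` (`CXK_j`, `t` = class of `j(a₁)`, central), so `([x] t^{-m})^p = 1`,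
 `[x] = t^m` (`NoTor_main`: `H` has no element of order `p`), and `q x = E'.π [x] = 1` (`CXK_main`), contradiction.  So `g(a) ≠ 0` in `F`.  If `f(a) = μ g(a)` then `μ = f(a) u` with an integer `u`, `u g(a) ≡ 1 mod p`, contradiction to `hμ`.  So the multiplication by `f(a) - μ g(a) ≠ 0` is bijective.
(2) `VMa_main` for `E' : CX H G`: `H^j(G; NC E c') = 0`, `j ≥ 2n+3`.
(3) `KilB_main` (identity: the elements of both modules are the same pairs `(F,b)`) and `KilA_one`.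
-/

namespace Pool.Agent.H75.CP

open CategoryTheory CategoryTheory.Abelian CategoryTheory.Limits Pool.Agent.H5.CP

/-- multiplication by `f(a) - μ g(a)`, linear over the prime field -/
def MPc_c {A F : Type} [AddCommGroup A] [Field F] (p : ℕ) [Algebra (ZMod p) F]
    (f g : A →+ ℤ) (μ : F) : A →+ (F →ₗ[ZMod p] F) where
  toFun := fun a => LinearMap.mulLeft (ZMod p) ((f a : F) - μ * (g a : F))
  map_zero' := by
    apply LinearMap.ext
    intro x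
    simp
  map_add' := fun a b => by
    apply LinearMap.ext
    intro x
    simp only [map_add, Int.cast_add, LinearMap.mulLeft_apply, LinearMap.add_apply]
    ring

theorem MPc_ndvd {Γ G A : Type} [Group Γ] [Group G] [AddCommGroup A] (E : AX Γ G A)
    (g : A →+ ℤ) (a₁ : A) (hg : g a₁ = 1) (K : Subgroup Γ) [K.Normal]
    (hK : ∀ x, x ∈ K ↔ ∃ a, g a = 0 ∧ E.j (Multiplicative.ofAdd a) = x) (p : ℕ) [Fact p.Prime]
    (n : ℕ) (hcd : CD (ZMod p) (Γ ⧸ K) n) (x : Γ) (a : A) (hx : E.q x ≠ 1)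
    (hxa : x ^ p = E.j (Multiplicative.ofAdd a)) : ¬ (p : ℤ) ∣ g a := by
  rintro ⟨m, hm⟩
  obtain ⟨E', hπ, ht⟩ := CXK_main E g a₁ hg K hK
  have h1 : (QuotientGroup.mk x : Γ ⧸ K) ^ p = E'.t ^ ((p : ℤ) * m) := by
    rw [← QuotientGroup.mk_pow, hxa, CXK_j E g a₁ hg K hK a, ht, hm]
  have hcomm : Commute (QuotientGroup.mk x : Γ ⧸ K) (E'.t ^ (-m)) := by
    have h := Subgroup.mem_center_iff.1 E'.cent (QuotientGroup.mk x : Γ ⧸ K)
    exact Commute.zpow_right h (-m)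
  have h2 : ((QuotientGroup.mk x : Γ ⧸ K) * E'.t ^ (-m)) ^ p = 1 := by
    rw [hcomm.mul_pow, h1, ← zpow_natCast, ← zpow_mul, ← zpow_add]
    have : (p : ℤ) * m + -m * (p : ℤ) = 0 := by ring
    rw [this, zpow_zero]
  have h3 := NoTor_main p ⟨n, hcd⟩ _ h2
  have h4 : (QuotientGroup.mk x : Γ ⧸ K) = E'.t ^ m := by
    rw [zpow_neg, mul_inv_eq_one] at h3
    exact h3
  apply hx
  rw [← hπ x]
  exact (E'.ker _).2 ⟨m, h4⟩

theorem MPc_ne {A F : Type} [AddCommGroup A] [Field F] (p : ℕ) [Fact p.Prime] [CharP F p]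
    (f g : A →+ ℤ) (μ : F) (hμ : ∀ m : ℤ, μ ≠ (m : F)) (a : A) (ha : ¬ (p : ℤ) ∣ g a) :
    (f a : F) - μ * (g a : F) ≠ 0 := by
  intro h
  have hp : p.Prime := Fact.out
  have hco : IsCoprime (p : ℤ) (g a) :=
    (Nat.prime_iff_prime_int.1 hp).coprime_iff_not_dvd.2 ha
  obtain ⟨u, v, huv⟩ := hco
  have h1 : (v : F) * (g a : F) = 1 := by
    have h2 := congrArg (fun z : ℤ => (z : F)) huv
    simp only [Int.cast_add, Int.cast_mul, Int.cast_natCast, CharP.cast_eq_zero, mul_zero,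
      zero_add, Int.cast_one] at h2
    exact h2
  refine hμ (f a * v) ?_
  have h3 : (f a : F) = μ * (g a : F) := sub_eq_zero.1 h
  rw [Int.cast_mul, h3, mul_assoc, mul_comm (g a : F), h1, mul_one]

/-- the pairs are the same -/
def MPc_e {Γ G A F : Type} [Group Γ] [Group G] [AddCommGroup A] [Field F] (E : AX Γ G A)
    (p : ℕ) [Algebra (ZMod p) F] (f g : A →+ ℤ) (μ : F) :
    (NC (k := ZMod p) E (MPc_c p f g μ)).V ≃+ (NC (k := ℤ) E (cF f g μ)).V where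
  toFun := fun P => (⟨NCv E (MPc_c p f g μ) P, NCv_mem E (MPc_c p f g μ) P⟩ : NCs E (cF f g μ))
  invFun := fun P => (⟨NCv E (cF f g μ) P, NCv_mem E (cF f g μ) P⟩ : NCs E (MPc_c p f g μ))
  left_inv := fun P => rfl
  right_inv := fun P => rfl
  map_add' := fun P Q => rfl

theorem MPc_main {Γ G A : Type} [Group Γ] [Group G] [AddCommGroup A] (E : AX Γ G A)
    (g : A →+ ℤ) (a₁ : A) (hg : g a₁ = 1) (K : Subgroup Γ) [K.Normal]
    (hK : ∀ x, x ∈ K ↔ ∃ a, g a = 0 ∧ E.j (Multiplicative.ofAdd a) = x) (p : ℕ) [Fact p.Prime]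
    (n : ℕ) (hcd : CD (ZMod p) (Γ ⧸ K) n) (F : Type) [Field F] [CharP F p] (μ : F)
    (hμ : ∀ m : ℤ, μ ≠ (m : F)) (f : A →+ ℤ) (j : ℕ) (hj : 2 * n + 3 ≤ j) :
    IsZero (groupCohomology (NC (k := ℤ) E (cF f g μ)) j) := by
  letI : Algebra (ZMod p) F := ZMod.algebra F p
  obtain ⟨E', hπ, ht⟩ := CXK_main E g a₁ hg K hK
  have hB : PAc p (NC (k := ZMod p) E (MPc_c p f g μ)) := by
    apply NAc_main
    intro x a hx hxa
    exact mulLeft_bijective₀ _ (MPc_ne p f g μ hμ a (MPc_ndvd E g a₁ hg K hK p n hcd x a hx hxa))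
  have h1 := VMa_main E' p n hcd _ hB j hj
  obtain ⟨i, rfl⟩ : ∃ i, j = i + 1 := ⟨j - 1, by omega⟩
  rw [← KilA_one] at h1 ⊢
  refine KilB_main (MulEquiv.refl G) (NC (k := ZMod p) E (MPc_c p f g μ))
    (NC (k := ℤ) E (cF f g μ)) (MPc_e E p f g μ) ?_ 1 i h1
  intro y P
  obtain ⟨z, rfl⟩ := E.surj y
  apply NCv_inj
  refine Eq.trans ?_ (NC_ρ E (cF f g μ) z (MPc_e E p f g μ P)).symm
  exact NC_ρ E (MPc_c p f g μ) z P

end Pool.Agent.H75.CP
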