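import Pool.Agent.H75.CP.FLe
import Pool.Agent.H75.CP.FiK

/-!
ROW ThB (60 lines).  THEOREM B.  `E : CX Γ G`, `G` of type `FP_∞`, `CD (ZMod p) Γ n`, `t` not a `p^k`-th power.  Then `RatTrFin G`.
`FLe_main` gives `f, J`.  For every `K` and `j ≥ J` (`j = i + 1`): `Kill (p^f) (Rep.trivial (ZMod (p^K)) G (ZMod (p^K))) j`, `KilB_main` (identities): the same for `Rep.trivial ℤ G (ZMod (p^K))`, `KilA_ext`.
`FiK_main` with `M = tz G`: every element of `Ext^j(ℤ,ℤ)` is torsion for `j ≥ max J 1`; `FinC_main`.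
-/

namespace Pool.Agent.H75.CP

open CategoryTheory CategoryTheory.Abelian CategoryTheory.Limits Pool.Agent.H5.CP

theorem ThB_main {Γ G : Type} [Group Γ] [Group G] (E : CX Γ G) (hF : FPinf G) (p : ℕ)
    [Fact p.Prime] (n : ℕ) (h : CD (ZMod p) Γ n) (k : ℕ)
    (hk : ¬ ∃ u : Γ, u ^ (p ^ k) = E.t) : RatTrFin G := by
  obtain ⟨f, J, hFL⟩ := FLe_main p k n
  refine FinC_main hF (J + 1) ?_
  intro m hm x
  obtain ⟨i, rfl⟩ : ∃ i, m = i + 1 := ⟨m - 1, by omega⟩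
  refine FiK_main (tz G) i (hF (i + 1)) p f ?_ x
  intro K e
  have h1 : Kill (p ^ f) (Rep.trivial (ZMod (p ^ K)) G (ZMod (p ^ K))) (i + 1) :=
    hFL Γ G E h hk K _ (i + 1) (by omega)
  have h2 : Kill (p ^ f) (Rep.trivial ℤ G (ZMod (p ^ K))) (i + 1) :=
    KilB_main (MulEquiv.refl G) (Rep.trivial (ZMod (p ^ K)) G (ZMod (p ^ K)))
      (Rep.trivial ℤ G (ZMod (p ^ K))) (AddEquiv.refl _) (fun g a => rfl) _ i h1
  exact (KilA_ext _ _ _).1 h2 e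

end Pool.Agent.H75.CP
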