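import Pool.Agent.H75.CP.ThA
import Pool.Agent.H75.CP.ThB
import Pool.Agent.H5.CP.RFc

/-!
ROW MaR (150 lines).  Induction on the rank `r` of `A`, for all `G, A, E`.
`r = 0`: `A` is trivial, `q` is injective, `G ≃* Γ`; `RatTrFin Γ` from `CDfin ℤ Γ` (see `RFc_main`, H5/CP/RFc.lean), `IsoI_RT`.
`r = 1`: `A = ℤ a₁` (`finrank_eq_one_iff'`-like, `Module.Free`), `t = j(a₁)`: `CX Γ G` with `π = q` (infinite order: `E.inj`, `A` torsion-free).  `t ≠ 1`, `t` central: `hroot` gives `p, k`; `CD (ZMod p) Γ n` from `hcd` (`CocB_CD`); `FPinf G`; `ThB_main`.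
`r ≥ 2`: `ThA_main`.  `FPinf G`: `D = range j` is central, finitely generated, torsion-free: `TowB_main` for `Γ ⧸ D ≃* G` (`FPe_triv`, see how RFc does it).  `hB`: `K = j(ker f)`, `ker f` is free of rank `r - 1` (`A = ker f ⊕ ℤ a₁`), `AX Γ (Γ ⧸ K) (ker f)`; by induction `RatTrFin (Γ ⧸ K)`;
`TowC_main` (`IsoI_BE0 hcd`) gives `BE (Γ ⧸ K)`.  (The last point is the same as in `RFc_main`.)
-/

namespace Pool.Agent.H75.CP

open CategoryTheory CategoryTheory.Abelian CategoryTheory.Limits Pool.Agent.H5.CP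

theorem MaR_cen {Γ G A : Type} [Group Γ] [Group G] [AddCommGroup A] (E : AX Γ G A) :
    E.q.ker ≤ Subgroup.center Γ := by
  intro x hx
  obtain ⟨a, rfl⟩ := (E.ker x).1 (MonoidHom.mem_ker.1 hx)
  exact E.cent a

theorem MaR_fp {Γ G A : Type} [Group Γ] [Group G] [AddCommGroup A] [Module.Free ℤ A]
    [Module.Finite ℤ A] (E : AX Γ G A) (hF : FPinf Γ) : FPinf G := by
  have hS : ∀ x, x ∈ E.q.ker ↔ ∃ a, E.j (Multiplicative.ofAdd a) = x := fun x => by
    rw [MonoidHom.mem_ker]
    exact E.ker x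
  have h1 : FPinf (Γ ⧸ E.q.ker) :=
    TowB_main E.q.ker (MaR_cen E) (RFc_fg _ E.j hS)
      (fun x hx hxf => RFc_tf _ E.j E.inj hS x hx hxf) hF
  intro n
  exact FPe_triv (QuotientGroup.quotientKerEquivOfSurjective E.q E.surj).symm n (h1 n)

theorem MaR_one {Γ G A : Type} [Group Γ] [Group G] [AddCommGroup A] [Module.Free ℤ A]
    [Module.Finite ℤ A] (E : AX Γ G A) (hA : Module.finrank ℤ A = 1) :
    ∃ E' : CX Γ G, E'.t ≠ 1 := by
  let b : Module.Basis (Fin 1) ℤ A := Module.finBasisOfFinrankEq ℤ A hA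
  have hb : ∀ a : A, ∃ n : ℤ, a = n • b 0 := by
    intro a
    refine ⟨b.repr a 0, ?_⟩
    conv_lhs => rw [← b.sum_repr a]
    simp
  have hb0 : b 0 ≠ 0 := b.ne_zero 0
  have hp : ∀ n : ℤ, E.j (Multiplicative.ofAdd (n • b 0)) = (E.j (Multiplicative.ofAdd (b 0))) ^ n := by
    intro n
    rw [ofAdd_zsmul, map_zpow]
  have hinf : ∀ n : ℤ, (E.j (Multiplicative.ofAdd (b 0))) ^ n = 1 → n = 0 := by
    intro n hn
    rw [← hp, ← map_one E.j] at hn
    have h1 : n • b 0 = 0 := E.inj hn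
    rcases smul_eq_zero.1 h1 with h | h
    · exact h
    · exact absurd h hb0
  refine ⟨⟨E.q, E.j (Multiplicative.ofAdd (b 0)), E.surj, ?_, E.cent _, hinf⟩, ?_⟩
  · intro x
    rw [E.ker]
    constructor
    · rintro ⟨a, rfl⟩
      obtain ⟨n, rfl⟩ := hb a
      exact ⟨n, hp n⟩
    · rintro ⟨n, rfl⟩
      exact ⟨n • b 0, hp n⟩
  · intro h
    have h1 : E.j (Multiplicative.ofAdd (b 0)) = 1 := h
    have h2 := hinf 1 (by rw [h1, one_zpow])
    exact one_ne_zero h2

theorem MaR_main {Γ : Type} [Group Γ] (hcd : CDfin ℤ Γ) (hF : FPinf Γ)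
    (hroot : ∀ z ∈ Subgroup.center Γ, z ≠ 1 →
      ∃ p k : ℕ, p.Prime ∧ ¬ ∃ u : Γ, u ^ (p ^ k) = z) (r : ℕ) (G A : Type) [Group G]
    [AddCommGroup A] [Module.Free ℤ A] [Module.Finite ℤ A] (hA : Module.finrank ℤ A = r)
    (E : AX Γ G A) : RatTrFin G := by
  induction r generalizing G A with
  | zero =>
    have hsub : Subsingleton A := Module.finrank_zero_iff.1 hA
    have hinj : Function.Injective E.q := by
      rw [injective_iff_map_eq_one]
      intro x hx
      obtain ⟨a, rfl⟩ := (E.ker x).1 hx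
      rw [Subsingleton.elim a 0]
      exact map_one E.j
    obtain ⟨n, hn⟩ := hcd
    have h1 : RatTrFin Γ := ⟨n + 1, fun m hm => CocB_CD (k := ℚ) n hn _ m hm⟩
    exact IsoI_RT (MulEquiv.ofBijective E.q ⟨hinj, E.surj⟩).symm h1
  | succ r ih =>
    have hFG : FPinf G := MaR_fp E hF
    rcases Nat.eq_zero_or_pos r with h0 | h0
    · subst h0
      obtain ⟨E', hE'⟩ := MaR_one E hA
      obtain ⟨p, k, hp, hk⟩ := hroot E'.t E'.cent hE'
      have : Fact p.Prime := ⟨hp⟩
      obtain ⟨n, hn⟩ := hcd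
      exact ThB_main E' hFG p (n + 1) (CocB_CD (k := ZMod p) n hn) k hk
    · refine ThA_main E (by omega) hFG ?_
      intro f a₁ hf K _ hK
      let f' : A →ₗ[ℤ] ℤ := f.toIntLinearMap
      have hrk : Module.finrank ℤ (LinearMap.ker f') = r := RFc_rank r hA f' a₁ hf
      let j' : Multiplicative (LinearMap.ker f') →* Γ :=
        E.j.comp (AddMonoidHom.toMultiplicative (LinearMap.ker f').subtype.toAddMonoidHom)
      have hj' : Function.Injective j' := by
        intro x y hxy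
        have h1 := E.inj hxy
        exact Subtype.ext h1
      have hK' : ∀ x, x ∈ K ↔ ∃ a : LinearMap.ker f', j' (Multiplicative.ofAdd a) = x := by
        intro x
        rw [hK]
        constructor
        · rintro ⟨a, ha, rfl⟩
          exact ⟨⟨a, ha⟩, rfl⟩
        · rintro ⟨a, rfl⟩
          exact ⟨a.1, a.2, rfl⟩
      have hKc : K ≤ Subgroup.center Γ := by
        intro x hx
        obtain ⟨a, _, rfl⟩ := (hK x).1 hx
        exact E.cent a
      let E' : AX Γ (Γ ⧸ K) (LinearMap.ker f') :=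
        { q := QuotientGroup.mk' K
          j := j'
          surj := QuotientGroup.mk'_surjective K
          ker := fun x => by
            rw [QuotientGroup.mk'_apply, QuotientGroup.eq_one_iff]
            exact hK' x
          cent := fun a => E.cent a.1
          inj := hj' }
      have hRT : RatTrFin (Γ ⧸ K) := ih (Γ ⧸ K) (LinearMap.ker f') hrk E'
      exact TowC_main K hKc (RFc_fg K j' hK') (fun x hx hxf => RFc_tf K j' hj' hK' x hx hxf) hF
        (IsoI_BE0 hcd) hRT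

end Pool.Agent.H75.CP
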