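import Pool.Agent.H75.CP.DefsN
import Pool.Agent.H75.CP.FunA
import Pool.Agent.H75.CP.KilB
import Pool.Agent.H5.CP.VTop

/-!
ROW NAc (250 lines).  `NC` is acyclic on the subgroups of order `p` if `c(a)` is bijective whenever `x^p = j(a)`, `q x ≠ 1`.
Let `g₀ ∈ G` have order `p`, `P = zpowers g₀`, `x ∈ Γ` a lift of `g₀`.  `q(x^p) = 1`, so `x^p = j(a₀)` and `c(a₀)` is bijective.  `P`-sets: `P` itself (left multiplication) and `G ∖ P = {g // g ∉ P}` (left multiplication by `P`); both are free, so by `FunA_free`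
`FunR P W'` and `FunR (G∖P) W'` (`W'` trivial) are acyclic.  Short exact sequence of `P`-modules  `0 → FunR (G∖P) W' → res NC → FunR P W' → 0`; conclude with `LesA_2` (KilC/LesA).  (`(NC E c).ρ (q y)` is given by `NC_ρ`: `(F,b) ↦ (z ↦ F(y⁻¹z) - F(y⁻¹), b)`.)
(1) `Ψ : NC → (P → W')`, `Ψ(F,b)(g) = F(x y) - F(y)` for any lift `y` of `g` (take `y = s(g)`): independent of the lift since `F(x j(a) y) - F(j(a) y) = F(x y) - F(y)` (`j(a)` central).  Equivariance: let `h ∈ P` with lift `z = x^i` (`h = g₀^i`);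
 `(hF)(x y) - (hF)(y) = F(z⁻¹ x y) - F(z⁻¹ y) = F(x z⁻¹y) - F(z⁻¹y) = Ψ(F)(h⁻¹g)` as `z` commutes with `x`.
(2) `Ψ` is onto: given `Φ : P → W'` let `T(i) = Σ_{l<i} Φ(g₀^l)`, `i ∈ ℕ`, `b = c(a₀)⁻¹ T(p)`.  Let `σ : G → Γ` be the section `σ(g₀^i) = x^i` for `0 ≤ i < p`, `σ(g) = s(g)` for `g ∉ P`; every `z ∈ Γ` is `j(a) σ(q z)` with a unique `a`.
 `F(j(a) σ(g)) = c(a) b + φ(g)`, `φ(g₀^i) = T(i)` for `0 ≤ i < p`, `φ(g) = 0` for `g ∉ P`.  `F(1) = 0` and `(F,b) ∈ NC`.  For `y = j(a) x^i`, `0 ≤ i < p-1`: `F(xy) - F(y) = T(i+1) - T(i) = Φ(g₀^i)`; `i = p-1`: `xy = j(a + a₀)`, `F(xy) - F(y) = c(a₀) b - T(p-1) = Φ(g₀^{p-1})`.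
(3) kernel of `Ψ`: `F(x y) = F(y)` for all `y ∈ q⁻¹(P)`, so `F(x^i) = F(1) = 0`, `0 = F(x^p) = F(j(a₀)) = c(a₀) b`, `b = 0`; so `F` is invariant under `j(A)`, `F = F̄ ∘ q`, `F̄ = 0` on `P`.  Conversely for `F̄ : G ∖ P → W'` extended by 0 the pair `(F̄ ∘ q, 0)` is in the kernel.
 Equivariance of `F̄ ↦ (F̄ ∘ q, 0)`: `(hF)(z) = F(y⁻¹z) - F(y⁻¹) = F̄(h⁻¹ q z)` since `h⁻¹ ∈ P`.
-/

namespace Pool.Agent.H75.CP

open CategoryTheory CategoryTheory.Abelian CategoryTheory.Limits Pool.Agent.H5.CP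

/-- the complement of a subgroup -/
def NAc_Y {G : Type} [Group G] (P : Subgroup G) : Type := {g : G // g ∉ P}

instance {G : Type} [Group G] (P : Subgroup G) : MulAction P (NAc_Y P) where
  smul := fun h g => ⟨h.1 * g.1, fun hh => g.2 ((Subgroup.mul_mem_cancel_left P h.2).1 hh)⟩
  one_smul := fun _ => Subtype.ext (one_mul _)
  mul_smul := fun _ _ _ => Subtype.ext (mul_assoc _ _ _)

theorem NAc_smul {G : Type} [Group G] (P : Subgroup G) (h : P) (g : NAc_Y P) :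
    (h • g).1 = h.1 * g.1 := rfl

open Classical in
/-- extension by zero -/
noncomputable def NAc_ext {G W' : Type} [Group G] [AddCommGroup W'] (P : Subgroup G)
    (F : NAc_Y P → W') (g : G) : W' :=
  if h : g ∈ P then 0 else F ⟨g, h⟩

theorem NAc_ext_mem {G W' : Type} [Group G] [AddCommGroup W'] (P : Subgroup G)
    (F : NAc_Y P → W') (g : G) (h : g ∈ P) : NAc_ext P F g = 0 := dif_pos h

theorem NAc_ext_not {G W' : Type} [Group G] [AddCommGroup W'] (P : Subgroup G)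
    (F : NAc_Y P → W') (g : G) (h : g ∉ P) : NAc_ext P F g = F ⟨g, h⟩ := dif_neg h

section

variable {k Γ G A : Type} [CommRing k] [Group Γ] [Group G] [AddCommGroup A] (E : AX Γ G A)
  {W W' : Type} [AddCommGroup W] [Module k W] [AddCommGroup W'] [Module k W']
  (c : A →+ (W →ₗ[k] W'))

/-- functions on the complement of `P` as elements of `NC` -/
noncomputable def NAc_i (P : Subgroup G) :
    FunR (NAc_Y P) (Rep.trivial k P W') ⟶ Rep.res P.subtype (NC E c) :=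
  Rep.ofHom
    ⟨({ toFun := fun F => ⟨(fun z => NAc_ext P F (E.q z), 0), by
          refine ⟨?_, fun a z => ?_⟩
          · show NAc_ext P F (E.q 1) = 0
            rw [map_one]
            exact NAc_ext_mem P F 1 P.one_mem
          · show NAc_ext P F (E.q (E.j (Multiplicative.ofAdd a) * z)) =
              c a 0 + NAc_ext P F (E.q z)
            rw [map_mul, (E.ker _).2 ⟨a, rfl⟩, one_mul, map_zero, zero_add]⟩
        map_add' := by
          intro F F'
          apply Subtype.ext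
          refine Prod.ext ?_ (add_zero _).symm
          funext z
          show NAc_ext P (F + F') (E.q z) = NAc_ext P F (E.q z) + NAc_ext P F' (E.q z)
          by_cases hz : E.q z ∈ P
          · rw [NAc_ext_mem P _ _ hz, NAc_ext_mem P _ _ hz, NAc_ext_mem P _ _ hz, add_zero]
          · rw [NAc_ext_not P _ _ hz, NAc_ext_not P _ _ hz, NAc_ext_not P _ _ hz]
            rfl
        map_smul' := by
          intro r F
          apply Subtype.ext
          refine Prod.ext ?_ (smul_zero _).symm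
          funext z
          show NAc_ext P (r • F) (E.q z) = r • NAc_ext P F (E.q z)
          by_cases hz : E.q z ∈ P
          · rw [NAc_ext_mem P _ _ hz, NAc_ext_mem P _ _ hz, smul_zero]
          · rw [NAc_ext_not P _ _ hz, NAc_ext_not P _ _ hz]
            rfl } : (NAc_Y P → W') →ₗ[k] NCs E c), by
      rintro ⟨g, hg⟩
      obtain ⟨y, rfl⟩ := E.surj g
      apply LinearMap.ext
      intro F
      obtain ⟨F₀, hF₀⟩ : ∃ F₀ : NAc_Y P → W', F₀ = F := ⟨F, rfl⟩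
      subst hF₀
      apply Subtype.ext
      refine Eq.trans ?_ (NC_ρ E c y _).symm
      refine Prod.ext ?_ rfl
      funext z
      show NAc_ext P (fun u : NAc_Y P => F₀ ((⟨E.q y, hg⟩ : P)⁻¹ • u)) (E.q z) =
        NAc_ext P F₀ (E.q (y⁻¹ * z)) - NAc_ext P F₀ (E.q y⁻¹)
      have hy : E.q y⁻¹ ∈ P := by
        rw [map_inv]
        exact P.inv_mem hg
      rw [NAc_ext_mem P F₀ _ hy, sub_zero]
      by_cases hz : E.q z ∈ P
      · rw [NAc_ext_mem P _ _ hz, NAc_ext_mem]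
        rw [map_mul]
        exact P.mul_mem hy hz
      · have hz2 : E.q (y⁻¹ * z) ∉ P := by
          rw [map_mul]
          intro hh
          exact hz ((Subgroup.mul_mem_cancel_left P hy).1 hh)
        rw [NAc_ext_not P _ _ hz, NAc_ext_not P _ _ hz2]
        refine congrArg F₀ (Subtype.ext ?_)
        show (E.q y)⁻¹ * E.q z = E.q (y⁻¹ * z)
        rw [map_mul, map_inv]⟩

theorem NAc_i_apply (P : Subgroup G) (F : NAc_Y P → W') :
    NCv E c ((NAc_i E c P).hom F) = (fun z => NAc_ext P F (E.q z), 0) := rfl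

theorem NAc_lift (x : Γ) (Q : (NC E c).V) (y z : Γ) (h : E.q y = E.q z) :
    (NCv E c Q).1 (x * y) - (NCv E c Q).1 y = (NCv E c Q).1 (x * z) - (NCv E c Q).1 z := by
  obtain ⟨a, rfl⟩ := E.exj h
  have h1 := (NCv_mem E c Q).2 a (x * z)
  have h2 := (NCv_mem E c Q).2 a z
  rw [← mul_assoc, E.jc, mul_assoc, h1, h2]
  abel

theorem NAc_comm (x : Γ) (g : G) (hg : g ∈ Subgroup.zpowers (E.q x)) :
    ∃ z : Γ, E.q z = g ∧ x * z = z * x := by
  obtain ⟨i, hi⟩ := Subgroup.mem_zpowers_iff.1 hg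
  refine ⟨x ^ i, ?_, ?_⟩
  · rw [map_zpow, hi]
  · exact (Commute.refl x).zpow_right i

/-- the map `Ψ` -/
noncomputable def NAc_p (x : Γ) :
    Rep.res (Subgroup.zpowers (E.q x)).subtype (NC E c) ⟶
      FunR (Subgroup.zpowers (E.q x)) (Rep.trivial k (Subgroup.zpowers (E.q x)) W') :=
  Rep.ofHom
    ⟨({ toFun := fun Q h => (NCv E c Q).1 (x * E.s h.1) - (NCv E c Q).1 (E.s h.1)
        map_add' := by
          intro Q Q'
          funext h
          show ((NCv E c Q).1 (x * E.s h.1) + (NCv E c Q').1 (x * E.s h.1)) -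
            ((NCv E c Q).1 (E.s h.1) + (NCv E c Q').1 (E.s h.1)) = _
          exact add_sub_add_comm _ _ _ _
        map_smul' := by
          intro r Q
          funext h
          show r • (NCv E c Q).1 (x * E.s h.1) - r • (NCv E c Q).1 (E.s h.1) = _
          exact (smul_sub _ _ _).symm } :
        (NC E c).V →ₗ[k] (Subgroup.zpowers (E.q x) → W')), by
      rintro ⟨g, hg⟩
      obtain ⟨z, rfl, hz⟩ := NAc_comm E x g hg
      apply LinearMap.ext
      intro Q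
      obtain ⟨Q₀, hQ₀⟩ : ∃ Q₀ : (NC E c).V, Q₀ = Q := ⟨Q, rfl⟩
      subst hQ₀
      funext u
      show (NCv E c ((NC E c).ρ (E.q z) Q₀)).1 (x * E.s u.1) -
        (NCv E c ((NC E c).ρ (E.q z) Q₀)).1 (E.s u.1) =
        (NCv E c Q₀).1 (x * E.s ((E.q z)⁻¹ * u.1)) - (NCv E c Q₀).1 (E.s ((E.q z)⁻¹ * u.1))
      rw [NC_ρ]
      show ((NCv E c Q₀).1 (z⁻¹ * (x * E.s u.1)) - (NCv E c Q₀).1 z⁻¹) -
        ((NCv E c Q₀).1 (z⁻¹ * E.s u.1) - (NCv E c Q₀).1 z⁻¹) = _
      have hz' : x * z⁻¹ = z⁻¹ * x := by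
        rw [eq_inv_mul_iff_mul_eq, ← mul_assoc, ← hz, mul_assoc, mul_inv_cancel, mul_one]
      rw [sub_sub_sub_cancel_right, ← mul_assoc, ← hz', mul_assoc]
      refine NAc_lift E c x Q₀ _ _ ?_
      rw [map_mul, map_inv, E.q_s, E.q_s]⟩

theorem NAc_p_apply (x : Γ) (Q : (NC E c).V) (h : Subgroup.zpowers (E.q x)) :
    ((NAc_p E c x).hom Q : Subgroup.zpowers (E.q x) → W') h =
      (NCv E c Q).1 (x * E.s h.1) - (NCv E c Q).1 (E.s h.1) := rfl

theorem NAc_p_lift (x : Γ) (Q : (NC E c).V) (y : Γ) (h : E.q y ∈ Subgroup.zpowers (E.q x)) :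
    (NCv E c Q).1 (x * y) - (NCv E c Q).1 y =
      ((NAc_p E c x).hom Q : Subgroup.zpowers (E.q x) → W') ⟨E.q y, h⟩ := by
  rw [NAc_p_apply]
  exact NAc_lift E c x Q _ _ (by rw [E.q_s])

/-- the short complex -/
noncomputable def NAc_S (x : Γ) : ShortComplex (Rep.{0} k (Subgroup.zpowers (E.q x))) :=
  ShortComplex.mk (NAc_i E c (Subgroup.zpowers (E.q x))) (NAc_p E c x) (by
    ext F
    funext h
    show NAc_ext _ F (E.q (x * E.s h.1)) - NAc_ext _ F (E.q (E.s h.1)) = 0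
    rw [NAc_ext_mem, NAc_ext_mem, sub_zero]
    · rw [E.q_s]
      exact h.2
    · rw [map_mul, E.q_s]
      exact Subgroup.mul_mem _ (Subgroup.mem_zpowers _) h.2)

theorem NAc_inj (x : Γ) : Function.Injective (NAc_S E c x).f.hom := by
  intro F F' h
  have h1 : NCv E c ((NAc_i E c (Subgroup.zpowers (E.q x))).hom F) =
      NCv E c ((NAc_i E c (Subgroup.zpowers (E.q x))).hom F') := congrArg (NCv E c) h
  obtain ⟨F₀, hF₀⟩ : ∃ F₀ : NAc_Y (Subgroup.zpowers (E.q x)) → W', F₀ = F := ⟨F, rfl⟩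
  obtain ⟨F₁, hF₁⟩ : ∃ F₁ : NAc_Y (Subgroup.zpowers (E.q x)) → W', F₁ = F' := ⟨F', rfl⟩
  subst hF₀
  subst hF₁
  funext u
  have h2 := congrFun (congrArg Prod.fst h1) (E.s u.1)
  have h3 : NAc_ext _ F₀ (E.q (E.s u.1)) = NAc_ext _ F₁ (E.q (E.s u.1)) := h2
  rw [E.q_s, NAc_ext_not _ _ _ u.2, NAc_ext_not _ _ _ u.2] at h3
  exact h3

theorem NAc_rep (x : Γ) (p : ℕ) (hp : 0 < p) (hord : orderOf (E.q x) = p) (z : Γ)
    (hz : E.q z ∈ Subgroup.zpowers (E.q x)) :
    ∃ (a : A) (i : ℕ), z = E.j (Multiplicative.ofAdd a) * x ^ i := by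
  have hfin : IsOfFinOrder (E.q x) := orderOf_pos_iff.1 (by rw [hord]; exact hp)
  obtain ⟨i, hi⟩ := (Submonoid.mem_powers_iff _ _).1 (hfin.mem_powers_iff_mem_zpowers.2 hz)
  obtain ⟨a, ha⟩ := E.exj (x := z) (y := x ^ i) (by rw [map_pow, hi])
  exact ⟨a, i, ha⟩

theorem NAc_jadd (a b : A) : E.j (Multiplicative.ofAdd (a + b)) =
    E.j (Multiplicative.ofAdd a) * E.j (Multiplicative.ofAdd b) := by
  rw [ofAdd_add, map_mul]

theorem NAc_jn (a : A) (n : ℕ) : E.j (Multiplicative.ofAdd (n • a)) =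
    E.j (Multiplicative.ofAdd a) ^ n := by
  rw [ofAdd_nsmul, map_pow]

theorem NAc_jinj {a b : A} (h : E.j (Multiplicative.ofAdd a) = E.j (Multiplicative.ofAdd b)) :
    a = b := Multiplicative.ofAdd.injective (E.inj h)

theorem NAc_wd (x : Γ) (p : ℕ) (hord : orderOf (E.q x) = p) (a₀ : A)
    (ha₀ : E.j (Multiplicative.ofAdd a₀) = x ^ p) (T : ℕ → W') (b : W)
    (hT : ∀ n, T (n + p) = T n + T p) (hb : c a₀ b = T p) (a a' : A) (i d : ℕ)
    (h : E.j (Multiplicative.ofAdd a) * x ^ i = E.j (Multiplicative.ofAdd a') * x ^ (i + d)) :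
    c a b + T i = c a' b + T (i + d) := by
  have h1 : E.j (Multiplicative.ofAdd a) = E.j (Multiplicative.ofAdd a') * x ^ d := by
    rw [add_comm i d, pow_add, ← mul_assoc] at h
    exact mul_right_cancel h
  have h2 : E.q x ^ d = 1 := by
    have h3 := congrArg E.q h1
    rw [map_mul, (E.ker _).2 ⟨a, rfl⟩, (E.ker _).2 ⟨a', rfl⟩, one_mul, map_pow] at h3
    exact h3.symm
  obtain ⟨m, hm⟩ : p ∣ d := by
    rw [← hord]
    exact orderOf_dvd_of_pow_eq_one h2
  have h4 : a = a' + m • a₀ := by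
    apply NAc_jinj E
    rw [NAc_jadd, NAc_jn, ha₀, ← pow_mul, ← hm]
    exact h1
  have h5 : ∀ m : ℕ, T (i + p * m) = T i + m • T p := by
    intro m
    induction m with
    | zero => simp
    | succ m ih =>
      rw [mul_add, mul_one, ← add_assoc, hT, ih, add_smul, one_smul, add_assoc]
  rw [hm, h5, h4, map_add, LinearMap.add_apply, map_nsmul, ← hb]
  rw [add_assoc, add_comm (T i)]
  rfl

theorem NAc_wd2 (x : Γ) (p : ℕ) (hord : orderOf (E.q x) = p) (a₀ : A)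
    (ha₀ : E.j (Multiplicative.ofAdd a₀) = x ^ p) (T : ℕ → W') (b : W)
    (hT : ∀ n, T (n + p) = T n + T p) (hb : c a₀ b = T p) (a a' : A) (i i' : ℕ)
    (h : E.j (Multiplicative.ofAdd a) * x ^ i = E.j (Multiplicative.ofAdd a') * x ^ i') :
    c a b + T i = c a' b + T i' := by
  rcases le_total i i' with h1 | h1
  · obtain ⟨d, rfl⟩ := Nat.exists_eq_add_of_le h1
    exact NAc_wd E c x p hord a₀ ha₀ T b hT hb a a' i d h
  · obtain ⟨d, rfl⟩ := Nat.exists_eq_add_of_le h1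
    exact (NAc_wd E c x p hord a₀ ha₀ T b hT hb a' a i' d h.symm).symm

theorem NAc_surj (x : Γ) (p : ℕ) [Fact p.Prime] (hord : orderOf (E.q x) = p) (a₀ : A)
    (ha₀ : E.j (Multiplicative.ofAdd a₀) = x ^ p) (hs : Function.Surjective (c a₀)) :
    Function.Surjective (NAc_S E c x).g.hom := by
  intro Φ'
  obtain ⟨Φ, hΦ⟩ : ∃ Φ : Subgroup.zpowers (E.q x) → W', Φ = Φ' := ⟨Φ', rfl⟩
  have hp : 0 < p := (Fact.out : p.Prime).pos
  obtain ⟨φ, hφ⟩ : ∃ φ : ℕ → W', ∀ l, φ l = Φ ⟨E.q x ^ l, Subgroup.npow_mem_zpowers _ l⟩ :=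
    ⟨_, fun _ => rfl⟩
  have hper : ∀ l, φ (l + p) = φ l := by
    intro l
    rw [hφ, hφ]
    refine congrArg Φ (Subtype.ext ?_)
    show E.q x ^ (l + p) = E.q x ^ l
    rw [pow_add, ← hord, pow_orderOf_eq_one, mul_one]
  obtain ⟨T, hTd⟩ : ∃ T : ℕ → W', ∀ n, T n = ∑ l ∈ Finset.range n, φ l := ⟨_, fun _ => rfl⟩
  have hT0 : T 0 = 0 := by rw [hTd, Finset.sum_range_zero]
  have hT1 : ∀ n, T (n + 1) = T n + φ n := by
    intro n
    rw [hTd, hTd, Finset.sum_range_succ]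
  have hT : ∀ n, T (n + p) = T n + T p := by
    intro n
    induction n with
    | zero => rw [hT0, zero_add, zero_add]
    | succ n ih =>
      rw [add_right_comm, hT1, ih, hper, hT1]
      abel
  obtain ⟨b, hb⟩ := hs (T p)
  have hex : ∀ z : Γ, ∃ w : W',
      (∀ (a : A) (i : ℕ), z = E.j (Multiplicative.ofAdd a) * x ^ i → w = c a b + T i) ∧
      (∀ a : A, E.q z ∉ Subgroup.zpowers (E.q x) →
        z = E.j (Multiplicative.ofAdd a) * E.s (E.q z) → w = c a b) := by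
    intro z
    by_cases hz : E.q z ∈ Subgroup.zpowers (E.q x)
    · obtain ⟨a, i, hai⟩ := NAc_rep E x p hp hord z hz
      refine ⟨c a b + T i, ?_, ?_⟩
      · intro a' i' hai'
        exact NAc_wd2 E c x p hord a₀ ha₀ T b hT hb a a' i i' (hai.symm.trans hai')
      · intro a' hn
        exact absurd hz hn
    · obtain ⟨a, ha⟩ := E.exj (x := z) (y := E.s (E.q z)) (by rw [E.q_s])
      refine ⟨c a b, ?_, ?_⟩
      · intro a' i' hai'
        exfalso
        apply hz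
        rw [hai', map_mul, (E.ker _).2 ⟨a', rfl⟩, one_mul, map_pow]
        exact Subgroup.npow_mem_zpowers _ i'
      · intro a' _ ha'
        have h1 : E.j (Multiplicative.ofAdd a) * E.s (E.q z) =
            E.j (Multiplicative.ofAdd a') * E.s (E.q z) := ha.symm.trans ha'
        rw [NAc_jinj E (mul_right_cancel h1)]
  choose F hF1 hF2 using hex
  have hmem : (F, b) ∈ NCs E c := by
    refine ⟨?_, fun a z => ?_⟩
    · show F 1 = 0
      have h1 := hF1 1 0 0 (by rw [pow_zero, mul_one, ofAdd_zero, map_one])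
      rw [h1, map_zero, hT0, add_zero]
      rfl
    · show F (E.j (Multiplicative.ofAdd a) * z) = c a b + F z
      by_cases hz : E.q z ∈ Subgroup.zpowers (E.q x)
      · obtain ⟨a', i, hai⟩ := NAc_rep E x p hp hord z hz
        rw [hF1 z a' i hai, hF1 (E.j (Multiplicative.ofAdd a) * z) (a + a') i (by
          rw [NAc_jadd, mul_assoc, ← hai]), map_add, LinearMap.add_apply, add_assoc]
      · obtain ⟨a', ha'⟩ := E.exj (x := z) (y := E.s (E.q z)) (by rw [E.q_s])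
        have hq : E.q (E.j (Multiplicative.ofAdd a) * z) = E.q z := by
          rw [map_mul, (E.ker _).2 ⟨a, rfl⟩, one_mul]
        rw [hF2 z a' hz ha', hF2 (E.j (Multiplicative.ofAdd a) * z) (a + a') (by
          rw [hq]; exact hz) (by
          rw [hq, NAc_jadd, mul_assoc, ← ha']), map_add, LinearMap.add_apply]
  obtain ⟨Q, hQ⟩ : ∃ Q : (NC E c).V, NCv E c Q = (F, b) := ⟨(⟨(F, b), hmem⟩ : NCs E c), rfl⟩
  refine ⟨Q, ?_⟩
  rw [← hΦ]
  funext u
  refine (NAc_p_apply E c x Q u).trans ?_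
  rw [hQ]
  show F (x * E.s u.1) - F (E.s u.1) = Φ u
  obtain ⟨a, i, hai⟩ := NAc_rep E x p hp hord (E.s u.1) (by rw [E.q_s]; exact u.2)
  have h1 := hF1 (E.s u.1) a i hai
  have h2 := hF1 (x * E.s u.1) a (i + 1) (by
    rw [hai, ← mul_assoc, E.jc, mul_assoc, pow_succ'])
  rw [h1, h2, hT1, hφ]
  have h3 : u = ⟨E.q x ^ i, Subgroup.npow_mem_zpowers _ i⟩ := by
    apply Subtype.ext
    show u.1 = E.q x ^ i
    rw [← E.q_s u.1, hai, map_mul, (E.ker _).2 ⟨a, rfl⟩, one_mul, map_pow]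
  rw [← h3]
  abel

theorem NAc_ker (x : Γ) (p : ℕ) [Fact p.Prime] (a₀ : A)
    (ha₀ : E.j (Multiplicative.ofAdd a₀) = x ^ p) (hord : orderOf (E.q x) = p)
    (hi : Function.Injective (c a₀)) (Q' : (NAc_S E c x).X₂.V)
    (hQ' : (NAc_S E c x).g.hom Q' = 0) : ∃ F, (NAc_S E c x).f.hom F = Q' := by
  obtain ⟨Q, hQQ⟩ : ∃ Q : (NC E c).V, Q = Q' := ⟨Q', rfl⟩
  have hp : 0 < p := (Fact.out : p.Prime).pos
  have hQ0 : ∀ y : Γ, E.q y ∈ Subgroup.zpowers (E.q x) →
      (NCv E c Q).1 (x * y) = (NCv E c Q).1 y := by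
    intro y hy
    have h1 := NAc_p_lift E c x Q y hy
    have h2 : ((NAc_p E c x).hom Q : Subgroup.zpowers (E.q x) → W') ⟨E.q y, hy⟩ = 0 := by
      rw [hQQ]
      exact congrFun hQ' ⟨E.q y, hy⟩
    rw [h2] at h1
    exact sub_eq_zero.1 h1
  have h1 : (NCv E c Q).1 1 = 0 := (NCv_mem E c Q).1
  have hxi : ∀ i : ℕ, (NCv E c Q).1 (x ^ i) = 0 := by
    intro i
    induction i with
    | zero => rw [pow_zero, h1]
    | succ i ih =>
      rw [pow_succ', hQ0, ih]
      rw [map_pow]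
      exact Subgroup.npow_mem_zpowers _ i
  have hb : (NCv E c Q).2 = 0 := by
    apply hi
    have h2 := (NCv_mem E c Q).2 a₀ 1
    rw [mul_one, ha₀, hxi, h1, add_zero] at h2
    rw [← h2, map_zero]
  have hinv : ∀ (a : A) (z : Γ), (NCv E c Q).1 (E.j (Multiplicative.ofAdd a) * z) =
      (NCv E c Q).1 z := by
    intro a z
    rw [(NCv_mem E c Q).2 a z, hb, map_zero, zero_add]
  have hz0 : ∀ z : Γ, E.q z ∈ Subgroup.zpowers (E.q x) → (NCv E c Q).1 z = 0 := by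
    intro z hz
    obtain ⟨a, i, hai⟩ := NAc_rep E x p hp hord z hz
    rw [hai, hinv, hxi]
  refine ⟨(fun u : NAc_Y (Subgroup.zpowers (E.q x)) => (NCv E c Q).1 (E.s u.1) :
    NAc_Y (Subgroup.zpowers (E.q x)) → W'), ?_⟩
  rw [← hQQ]
  apply NCv_inj E c
  refine (NAc_i_apply E c _ _).trans ?_
  refine Prod.ext ?_ hb.symm
  funext z
  show NAc_ext _ (fun u : NAc_Y (Subgroup.zpowers (E.q x)) => (NCv E c Q).1 (E.s u.1)) (E.q z) =
    (NCv E c Q).1 z
  by_cases hz : E.q z ∈ Subgroup.zpowers (E.q x)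
  · rw [NAc_ext_mem _ _ _ hz, hz0 z hz]
  · rw [NAc_ext_not _ _ _ hz]
    obtain ⟨a, ha⟩ := E.exj (x := z) (y := E.s (E.q z)) (by rw [E.q_s])
    show (NCv E c Q).1 (E.s (E.q z)) = (NCv E c Q).1 z
    conv_rhs => rw [ha]
    rw [hinv]

end

theorem NAc_main {k Γ G A : Type} [CommRing k] [Group Γ] [Group G] [AddCommGroup A]
    (E : AX Γ G A) {W W' : Type} [AddCommGroup W] [Module k W] [AddCommGroup W'] [Module k W']
    (c : A →+ (W →ₗ[k] W')) (p : ℕ) [Fact p.Prime]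
    (h : ∀ (x : Γ) (a : A), E.q x ≠ 1 → x ^ p = E.j (Multiplicative.ofAdd a) →
      Function.Bijective (c a)) : PAc p (NC E c) := by
  intro g hg hg1 n
  obtain ⟨x, hx⟩ := E.surj g
  obtain ⟨a₀, ha₀⟩ : ∃ a : A, E.j (Multiplicative.ofAdd a) = x ^ p :=
    (E.ker _).1 (by rw [map_pow, hx, hg])
  have hbij := h x a₀ (by rw [hx]; exact hg1) ha₀.symm
  subst hx
  have hord : orderOf (E.q x) = p := orderOf_eq_prime hg hg1
  have hS : (NAc_S E c x).ShortExact := by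
    refine VTop_shortExact _ (NAc_inj E c x) ?_ ?_
    · exact NAc_surj E c x p hord a₀ ha₀ hbij.2
    · exact NAc_ker E c x p a₀ ha₀ hord hbij.1
  refine LesA_2 hS (n + 1) ?_ ?_
  · refine FunA_free _ _ n ?_
    intro u y hu
    have h1 : u.1 * y.1 = y.1 := congrArg Subtype.val hu
    exact Subtype.ext (mul_eq_right.1 h1)
  · refine FunA_free _ _ n ?_
    intro u y hu
    exact mul_eq_right.1 hu

end Pool.Agent.H75.CP
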