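import Pool.Agent.H75.CP.CoB
import Pool.Agent.H75.CP.CXK

/-!
ROW NGy (150 lines).  GYSIN.  `f(a₁) = 1`, `K = j(ker f)`, `H = Γ/K`, `E' : CX H G`, `t = [j(a₁)]` from `CXK_main`.  `BE H` gives `s > 0`, `n₀` with `Kill s A j` for all `A : Rep ℤ H`, `j ≥ n₀`.
(1) `QB H (Rep.trivial ℤ H ℤ)` is coregular (`CoA_qb`), and `Kill s (QB H ℤ) j` for `j ≥ n₀`; `CoB_main`: `Kill s (InvR E' (QB H ℤ)) j` for `j ≥ max n₀ 1`.
(2) `NC E (cz f) ≅ InvR E' (QB H ℤ)` as `G`-modules: `KilB_main` with `φ = MulEquiv.refl` and the additive bijection `e(F,b) = [F̄]`, `F = F̄ ∘ (Γ → Γ/K)` (`F(j(a)x) = f(a)b + F(x) = F(x)` for `f(a) = 0`; `QuotientGroup.lift`-like: `Quotient.lift`, two elements of the same coset of `K` differ by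
 `j(a)`, `f a = 0`, on the left, `K` is normal and central).
 `[F̄]` is `t`-invariant: `F̄(t⁻¹y) - F̄(y) = -b` is constant (`F(j(a₁)x) = b + F(x)`).  Injective: `F̄` constant and `F̄(1) = 0` give `F = 0` and `b = F(j(a₁)) = 0`.  Onto: if `[F̄]` is invariant, `F̄(t⁻¹y) - F̄(y) = -b` for a constant `b`; WLOG `F̄(1) = 0`; `F = F̄ ∘ mk`:
 `F(j(a)x) = F̄(t^{f(a)} [x]) = f(a) b + F(x)` (`CXK_j`, induction on the exponent).
 Equivariance: `NC_ρ`: `(F,b) ↦ (z ↦ F(y⁻¹z) - F(y⁻¹), b)` and in `QB`: `[F̄(y⁻¹ ·)]`, which differ by a constant.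
-/

namespace Pool.Agent.H75.CP

open CategoryTheory CategoryTheory.Abelian CategoryTheory.Limits Pool.Agent.H5.CP

section

variable {Γ G A : Type} [Group Γ] [Group G] [AddCommGroup A] (E : AX Γ G A) (f : A →+ ℤ)
  (K : Subgroup Γ) [K.Normal]

/-- the values of `F` only depend on the coset of `K` -/
theorem NGy_out (hK : ∀ x, x ∈ K ↔ ∃ a, f a = 0 ∧ E.j (Multiplicative.ofAdd a) = x)
    (P : (Γ → ℤ) × ℤ) (hP : P ∈ NCs (k := ℤ) E (cz f)) {x y : Γ}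
    (h : (QuotientGroup.mk x : Γ ⧸ K) = QuotientGroup.mk y) : P.1 x = P.1 y := by
  rw [QuotientGroup.eq, hK] at h
  obtain ⟨a, ha, h1⟩ := h
  have h2 : y = E.j (Multiplicative.ofAdd a) * x := by
    rw [← E.jc, h1, mul_inv_cancel_left]
  have h3 := hP.2 a x
  rw [← h2] at h3
  rw [h3]
  show P.1 x = f a • P.2 + P.1 x
  rw [ha, zero_smul, zero_add]

/-- `F̄` -/
noncomputable def NGy_bar (P : (Γ → ℤ) × ℤ) : Γ ⧸ K → ℤ := fun h => P.1 (Quotient.out h)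

theorem NGy_bar_mk (hK : ∀ x, x ∈ K ↔ ∃ a, f a = 0 ∧ E.j (Multiplicative.ofAdd a) = x)
    (P : (Γ → ℤ) × ℤ) (hP : P ∈ NCs (k := ℤ) E (cz f)) (x : Γ) :
    NGy_bar K P (QuotientGroup.mk x) = P.1 x :=
  NGy_out E f K hK P hP (QuotientGroup.out_eq' _)

theorem NGy_t (a₁ : A) (hf : f a₁ = 1)
    (hK : ∀ x, x ∈ K ↔ ∃ a, f a = 0 ∧ E.j (Multiplicative.ofAdd a) = x)
    (P : (Γ → ℤ) × ℤ) (hP : P ∈ NCs (k := ℤ) E (cz f)) (t : Γ ⧸ K)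
    (ht : t = QuotientGroup.mk (E.j (Multiplicative.ofAdd a₁))) (y : Γ ⧸ K) :
    NGy_bar K P (t⁻¹ * y) - NGy_bar K P y = -P.2 := by
  induction y using QuotientGroup.induction_on with
  | H x =>
    rw [ht, ← QuotientGroup.mk_inv, ← QuotientGroup.mk_mul, NGy_bar_mk E f K hK P hP,
      NGy_bar_mk E f K hK P hP, ← map_inv, ← ofAdd_neg, hP.2]
    show f (-a₁) • P.2 + P.1 x - P.1 x = -P.2
    rw [map_neg, hf]
    simp

/-- the class of a function -/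
noncomputable def NGy_mk (H : Type) [Group H] (F : H → ℤ) : (QB H (Rep.trivial ℤ H ℤ)).V :=
  (Submodule.Quotient.mk F : (H → ℤ) ⧸ cst ℤ H ℤ)

theorem NGy_mk_eq {H : Type} [Group H] {F F' : H → ℤ} (c : ℤ) (h : ∀ y, F y - F' y = c) :
    NGy_mk H F = NGy_mk H F' := by
  refine (Submodule.Quotient.eq (cst ℤ H ℤ)).2 ⟨c, ?_⟩
  funext y
  exact h y

theorem NGy_mk_ρ {H : Type} [Group H] (g : H) (F : H → ℤ) :
    (QB H (Rep.trivial ℤ H ℤ)).ρ g (NGy_mk H F) = NGy_mk H (fun y => F (g⁻¹ * y)) := rfl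

/-- the map from the pairs to the invariant classes -/
noncomputable def NGy_map (a₁ : A) (hf : f a₁ = 1)
    (hK : ∀ x, x ∈ K ↔ ∃ a, f a = 0 ∧ E.j (Multiplicative.ofAdd a) = x)
    (E' : CX (Γ ⧸ K) G) (ht : E'.t = QuotientGroup.mk (E.j (Multiplicative.ofAdd a₁))) :
    (NC (k := ℤ) E (cz f)).V →+ (InvR E' (QB (Γ ⧸ K) (Rep.trivial ℤ (Γ ⧸ K) ℤ))).V where
  toFun := fun P => (show (InvR E' (QB (Γ ⧸ K) (Rep.trivial ℤ (Γ ⧸ K) ℤ))).V from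
    (⟨NGy_mk (Γ ⧸ K) (NGy_bar K (NCv E (cz f) P)),
      (NGy_mk_ρ E'.t _).trans (NGy_mk_eq _ (NGy_t E f K a₁ hf hK _ (NCv_mem E (cz f) P) E'.t ht))⟩ :
      Invs E' (QB (Γ ⧸ K) (Rep.trivial ℤ (Γ ⧸ K) ℤ))))
  map_zero' := rfl
  map_add' := fun _ _ => rfl

theorem NGy_map_inv (a₁ : A) (hf : f a₁ = 1)
    (hK : ∀ x, x ∈ K ↔ ∃ a, f a = 0 ∧ E.j (Multiplicative.ofAdd a) = x)
    (E' : CX (Γ ⧸ K) G) (ht : E'.t = QuotientGroup.mk (E.j (Multiplicative.ofAdd a₁)))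
    (P : (NC (k := ℤ) E (cz f)).V) :
    Inv E' (QB (Γ ⧸ K) (Rep.trivial ℤ (Γ ⧸ K) ℤ)) (NGy_map E f K a₁ hf hK E' ht P) =
      NGy_mk (Γ ⧸ K) (NGy_bar K (NCv E (cz f) P)) := rfl

theorem NGy_inj (a₁ : A) (hf : f a₁ = 1)
    (hK : ∀ x, x ∈ K ↔ ∃ a, f a = 0 ∧ E.j (Multiplicative.ofAdd a) = x)
    (E' : CX (Γ ⧸ K) G) (ht : E'.t = QuotientGroup.mk (E.j (Multiplicative.ofAdd a₁))) :
    Function.Injective (NGy_map E f K a₁ hf hK E' ht) := by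
  rw [injective_iff_map_eq_zero]
  intro P hP
  have h1 : NGy_mk (Γ ⧸ K) (NGy_bar K (NCv E (cz f) P)) = 0 := by
    rw [← NGy_map_inv E f K a₁ hf hK E' ht P, hP]
    rfl
  obtain ⟨c, hc⟩ := (Submodule.Quotient.mk_eq_zero (cst ℤ (Γ ⧸ K) ℤ)).1 h1
  have hmem := NCv_mem E (cz f) P
  have h2 : ∀ x : Γ, (NCv E (cz f) P).1 x = c := by
    intro x
    rw [← NGy_bar_mk E f K hK _ hmem x]
    exact congrFun hc _
  have h3 : c = 0 := by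
    rw [← h2 1]
    exact hmem.1
  apply NCv_inj E (cz f)
  show NCv E (cz f) P = (0, 0)
  refine Prod.ext ?_ ?_
  · funext x
    rw [h2, h3]
    rfl
  · have h4 := hmem.2 a₁ 1
    rw [h2, h2] at h4
    have h5 : c = f a₁ • (NCv E (cz f) P).2 + c := h4
    rw [hf, one_smul] at h5
    show (NCv E (cz f) P).2 = 0
    linarith

theorem NGy_pow {H : Type} [Group H] (t : H) (F : H → ℤ) (b : ℤ)
    (h : ∀ y, F (t⁻¹ * y) - F y = -b) (n : ℤ) (y : H) : F (t ^ n * y) = n * b + F y := by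
  have h1 : ∀ y, F (t * y) = b + F y := by
    intro y
    have := h (t * y)
    rw [inv_mul_cancel_left] at this
    linarith
  induction n using Int.induction_on generalizing y with
  | zero => simp
  | succ i ih =>
    rw [zpow_add_one, mul_assoc, ih, h1]
    push_cast
    ring
  | pred i ih =>
    rw [zpow_sub_one, mul_assoc, ih]
    have := h y
    push_cast
    linarith

theorem NGy_surj (a₁ : A) (hf : f a₁ = 1)
    (hK : ∀ x, x ∈ K ↔ ∃ a, f a = 0 ∧ E.j (Multiplicative.ofAdd a) = x)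
    (E' : CX (Γ ⧸ K) G) (ht : E'.t = QuotientGroup.mk (E.j (Multiplicative.ofAdd a₁))) :
    Function.Surjective (NGy_map E f K a₁ hf hK E' ht) := by
  intro z
  obtain ⟨F, hF⟩ := Submodule.Quotient.mk_surjective (cst ℤ (Γ ⧸ K) ℤ)
    (Inv E' (QB (Γ ⧸ K) (Rep.trivial ℤ (Γ ⧸ K) ℤ)) z)
  have hF' : NGy_mk (Γ ⧸ K) F = Inv E' (QB (Γ ⧸ K) (Rep.trivial ℤ (Γ ⧸ K) ℤ)) z := hF
  have h1 := Inv_mem E' (QB (Γ ⧸ K) (Rep.trivial ℤ (Γ ⧸ K) ℤ)) z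
  rw [← hF', NGy_mk_ρ] at h1
  obtain ⟨c, hc⟩ := (Submodule.Quotient.eq (cst ℤ (Γ ⧸ K) ℤ)).1 h1
  have h2 : ∀ y, F (E'.t⁻¹ * y) - F y = -(-c) := by
    intro y
    rw [neg_neg]
    exact congrFun hc y
  have h3 := NGy_pow E'.t F (-c) h2
  have hmem : ((fun x : Γ => F (QuotientGroup.mk x) - F 1, -c) : (Γ → ℤ) × ℤ) ∈
      NCs (k := ℤ) E (cz f) := by
    refine ⟨sub_self _, fun a x => ?_⟩
    show F (QuotientGroup.mk (E.j (Multiplicative.ofAdd a) * x)) - F 1 =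
      f a • (-c) + (F (QuotientGroup.mk x) - F 1)
    rw [QuotientGroup.mk_mul, CXK_j E f a₁ hf K hK a, ← ht, h3, smul_eq_mul]
    ring
  refine ⟨(show (NC (k := ℤ) E (cz f)).V from (⟨_, hmem⟩ : NCs (k := ℤ) E (cz f))), ?_⟩
  apply Inv_inj E' (QB (Γ ⧸ K) (Rep.trivial ℤ (Γ ⧸ K) ℤ))
  rw [NGy_map_inv, ← hF']
  apply NGy_mk_eq (-F 1)
  intro y
  show F (QuotientGroup.mk (Quotient.out y)) - F 1 - F y = -F 1
  rw [QuotientGroup.out_eq']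
  ring

theorem NGy_equi (a₁ : A) (hf : f a₁ = 1)
    (hK : ∀ x, x ∈ K ↔ ∃ a, f a = 0 ∧ E.j (Multiplicative.ofAdd a) = x)
    (E' : CX (Γ ⧸ K) G) (hπ : ∀ x : Γ, E'.π (QuotientGroup.mk x) = E.q x)
    (ht : E'.t = QuotientGroup.mk (E.j (Multiplicative.ofAdd a₁)))
    (g : G) (P : (NC (k := ℤ) E (cz f)).V) :
    NGy_map E f K a₁ hf hK E' ht ((NC (k := ℤ) E (cz f)).ρ g P) =
      (InvR E' (QB (Γ ⧸ K) (Rep.trivial ℤ (Γ ⧸ K) ℤ))).ρ g (NGy_map E f K a₁ hf hK E' ht P) := by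
  obtain ⟨x, rfl⟩ := E.surj g
  apply Inv_inj E' (QB (Γ ⧸ K) (Rep.trivial ℤ (Γ ⧸ K) ℤ))
  rw [NGy_map_inv, ← hπ x, InvR_ρ, NGy_map_inv, NGy_mk_ρ, hπ x, NC_ρ]
  apply NGy_mk_eq (-(NCv E (cz f) P).1 x⁻¹)
  intro y
  show (NCv E (cz f) P).1 (x⁻¹ * Quotient.out y) - (NCv E (cz f) P).1 x⁻¹ -
    NGy_bar K (NCv E (cz f) P) ((QuotientGroup.mk x)⁻¹ * y) = -(NCv E (cz f) P).1 x⁻¹
  have h1 : ((QuotientGroup.mk x)⁻¹ * y : Γ ⧸ K) = QuotientGroup.mk (x⁻¹ * Quotient.out y) := by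
    rw [QuotientGroup.mk_mul, QuotientGroup.mk_inv, QuotientGroup.out_eq']
  rw [h1, NGy_bar_mk E f K hK _ (NCv_mem E (cz f) P)]
  ring

end

theorem NGy_main {Γ G A : Type} [Group Γ] [Group G] [AddCommGroup A] (E : AX Γ G A)
    (f : A →+ ℤ) (a₁ : A) (hf : f a₁ = 1) (K : Subgroup Γ) [K.Normal]
    (hK : ∀ x, x ∈ K ↔ ∃ a, f a = 0 ∧ E.j (Multiplicative.ofAdd a) = x) (hB : BE (Γ ⧸ K)) :
    ∃ s J : ℕ, 0 < s ∧ ∀ j, J ≤ j → Kill s (NC (k := ℤ) E (cz f)) j := by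
  obtain ⟨E', hπ, ht⟩ := CXK_main E f a₁ hf K hK
  obtain ⟨s, n, hs, hB⟩ := hB
  refine ⟨s, n + 1, hs, fun j hj => ?_⟩
  obtain ⟨i, rfl⟩ : ∃ i, j = i + 1 := ⟨j - 1, by omega⟩
  have h1 : Kill s (QB (Γ ⧸ K) (Rep.trivial ℤ (Γ ⧸ K) ℤ)) (i + 1) := by
    intro x
    have h2 := hB (QB (Γ ⧸ K) (Rep.trivial ℤ (Γ ⧸ K) ℤ)) (i + 1) (by omega) x
    first
      | rwa [natCast_zsmul] at h2
      | exact (natCast_zsmul x s).symm.trans h2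
      | exact (Nat.cast_smul_eq_nsmul ℤ s x).symm.trans h2
  have h3 := CoB_main E' s i _ (CoA_qb E' (Rep.trivial ℤ (Γ ⧸ K) ℤ)) h1
  let e := AddEquiv.ofBijective (NGy_map E f K a₁ hf hK E' ht)
    ⟨NGy_inj E f K a₁ hf hK E' ht, NGy_surj E f K a₁ hf hK E' ht⟩
  refine KilB_main (MulEquiv.refl G) _ _ e.symm (fun g a => ?_) s i h3
  apply e.injective
  rw [AddEquiv.apply_symm_apply]
  have h4 := NGy_equi E f K a₁ hf hK E' hπ ht g (e.symm a)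
  have h5 : e ((NC (k := ℤ) E (cz f)).ρ ((MulEquiv.refl G) g) (e.symm a)) =
      (InvR E' (QB (Γ ⧸ K) (Rep.trivial ℤ (Γ ⧸ K) ℤ))).ρ g (e (e.symm a)) := h4
  rw [h5, AddEquiv.apply_symm_apply]

end Pool.Agent.H75.CP
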