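import Pool.Agent.H75.CP.DefsN
import Pool.Agent.H5.CP.VTop

/-!
ROW NSe (80 lines).  `0 → Fun(G,W')/W' → NC → W → 0` is exact (`VTop_shortExact` reduces this to elements; elements of `QB G _` are classes of functions, `Submodule.Quotient.mk_surjective`; `NCv`, `NCv_mem`, `NCv_inj` in DefsN).
Injective: if `F(q x) = F(1)` for all `x` then `F` is constant (`q` onto).  Middle: if `(F,0) ∈ NC` then `F(j(a)x) = F(x)`, so `F = F̄ ∘ q` (`AX.exj`), `F̄(1) = F(1) = 0`, and `(F,0)` is the image of `[F̄]`.
Onto: for `b ∈ W`: every `x` is `j(a(x)) s(q x)` with a unique `a(x)` (`AX.exj` with `y = s(q x)`, `inj`), `a(j(a')x) = a' + a(x)`; `F(x) = c(a(x)) b - c(a(1)) b`.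
-/

namespace Pool.Agent.H75.CP

open CategoryTheory CategoryTheory.Abelian CategoryTheory.Limits Pool.Agent.H5.CP

theorem NSe_main {k Γ G A : Type} [CommRing k] [Group Γ] [Group G] [AddCommGroup A]
    (E : AX Γ G A) {W W' : Type} [AddCommGroup W] [Module k W] [AddCommGroup W'] [Module k W']
    (c : A →+ (W →ₗ[k] W')) : (NCS E c).ShortExact := by
  refine VTop_shortExact (NCS E c) ?_ ?_ ?_
  · intro z z' h
    obtain ⟨F, rfl⟩ := Submodule.Quotient.mk_surjective _ z
    obtain ⟨F', rfl⟩ := Submodule.Quotient.mk_surjective _ z'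
    have h1 : (fun x => F (E.q x) - F 1 : Γ → W') = fun x => F' (E.q x) - F' 1 :=
      congrArg (fun P => (NCv E c P).1) h
    refine (Submodule.Quotient.eq _).2 ⟨F 1 - F' 1, ?_⟩
    funext g
    obtain ⟨x, rfl⟩ := E.surj g
    have h2 : F (E.q x) - F 1 = F' (E.q x) - F' 1 := congrFun h1 x
    show F (E.q x) - F' (E.q x) = F 1 - F' 1
    rw [sub_eq_sub_iff_add_eq_add] at h2 ⊢
    rw [h2]
    exact add_comm _ _
  · intro b0
    let b : W := b0
    have hex : ∀ x : Γ, ∃ a : A, x = E.j (Multiplicative.ofAdd a) * E.s (E.q x) := fun x =>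
      E.exj (by rw [E.q_s])
    choose a ha using hex
    have hadd : ∀ (a' : A) (x : Γ), a (E.j (Multiplicative.ofAdd a') * x) = a' + a x := by
      intro a' x
      have hq : E.q (E.j (Multiplicative.ofAdd a') * x) = E.q x := by
        rw [map_mul, (E.ker _).2 ⟨a', rfl⟩, one_mul]
      have h1 := ha (E.j (Multiplicative.ofAdd a') * x)
      rw [hq] at h1
      have h2 : E.j (Multiplicative.ofAdd (a (E.j (Multiplicative.ofAdd a') * x))) =
          E.j (Multiplicative.ofAdd a') * E.j (Multiplicative.ofAdd (a x)) := by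
        have h3 := ha x
        have h4 : E.j (Multiplicative.ofAdd a') * x =
            (E.j (Multiplicative.ofAdd a') * E.j (Multiplicative.ofAdd (a x))) *
              E.s (E.q x) := by
          rw [mul_assoc, ← h3]
        exact mul_right_cancel (h1.symm.trans h4)
      rw [← map_mul, ← ofAdd_add] at h2
      exact Multiplicative.ofAdd.injective (E.inj h2)
    have key : (fun x => c (a x) b - c (a 1) b, b) ∈ NCs E c := by
      refine ⟨sub_self _, fun a' x => ?_⟩
      have e : c (a' + a x) b = c a' b + c (a x) b := by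
        rw [map_add, LinearMap.add_apply]
      show c (a (E.j (Multiplicative.ofAdd a') * x)) b - c (a 1) b =
        c a' b + (c (a x) b - c (a 1) b)
      rw [hadd, e, add_sub_assoc]
    exact ⟨(⟨_, key⟩ : NCs E c), rfl⟩
  · intro P hP
    have hP2 : (NCv E c P).2 = 0 := hP
    have hm := NCv_mem E c P
    obtain ⟨h1, h2⟩ := hm
    rw [hP2] at h2
    have h3 : ∀ x : Γ, (NCv E c P).1 (E.s (E.q x)) = (NCv E c P).1 x := by
      intro x
      obtain ⟨a, ha⟩ := E.exj (x := E.s (E.q x)) (y := x) (by rw [E.q_s])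
      rw [ha, h2, map_zero, zero_add]
    refine ⟨Submodule.Quotient.mk (p := cst k G (Rep.trivial k G W').V)
      (fun g => (NCv E c P).1 (E.s g)), ?_⟩
    apply NCv_inj
    refine Prod.ext ?_ hP2.symm
    funext x
    show (NCv E c P).1 (E.s (E.q x)) - (NCv E c P).1 (E.s 1) = (NCv E c P).1 x
    have h4 : (NCv E c P).1 (E.s 1) = 0 := by
      have := h3 1
      rw [map_one] at this
      rw [this]
      exact h1
    rw [h3, h4, sub_zero]

end Pool.Agent.H75.CP
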