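import Pool.Agent.H7.OR.Sm
import Pool.Agent.H7.OR.Gc

/-!
ROW NumT (200 lines; number theory).  `P ∈ ℤ[X]` non-constant without rational root: for every `N > 0` there are a prime `p ∤ N`, a finite field `F` of characteristic `p` and a root `μ ∈ F` of `P` which is not in the prime field.
PROOF 1 (with helper7's library; imports Pool.Agent.H7.OR.Up, tools/sync.sh Pool/Agent/H7/OR Pool/Agent/H75/EK): `L` = splitting field of `P` over `ℚ`, a root `α ∈ L`, `α ∉ ℚ`, so some `σ ∈ Gal(L/ℚ)` moves `α` (`L/ℚ` Galois, fixed field `ℚ`).  `frob_density` for `K = ℚ` (PosDensity of a set contained in a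
finite union is impossible, so the set is infinite): infinitely many `v` (primes `p`) with a Frobenius `φ` at `Q`, `zpowers φ = zpowers σ`, so `φ α ≠ α`.  Let `a` be the leading coefficient of `P`; `a α` is an algebraic integer; for `p ∤ N a` and `p` not dividing the norm of `a α - φ(a α)`:
 in the finite field `F = 𝓞 L / Q` the class `ν` of `a α` satisfies `ν^p = class of φ(a α) ≠ ν`, so `ν` is not in the prime field, and `μ = ν / a` is a root of `P` in `F`, not in the prime field.
PROOF 2 (elementary, Mathlib only): let `g` be a primitive irreducible factor of `P` of degree `d ≥ 2`, `K = ℚ[X]/(g)`.  Suppose that for all `p ∤ N` all roots of `P` in all finite fields of characteristic `p` lie in the prime field.  For all `p` outside a finite set `g mod p` is then a product of `d` distinct linear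
factors, and there are at least two prime ideals `𝔭₁(p) ≠ 𝔭₂(p)` of `𝓞 K` of norm `p` (kernels of ring homs `𝓞 K → ZMod p` extending two roots).  For coprime-to-`N` integers `a, b ≥ 1` let `I(a,b) = Π_p 𝔭₁(p)^{v_p(a)} 𝔭₂(p)^{v_p(b)}`, of norm `ab`; `(a,b) ↦ I(a,b)` is injective.  So the number of ideals of
norm `≤ x` is at least `#{(a,b) : ab ≤ x, a ≡ b ≡ 1 mod N} ≥ c x log x`, which contradicts `NumberField.Ideal.tendsto_norm_le_div_atTop` (it is `O(x)`).
-/

namespace Pool.Agent.H75.CP

open Polynomial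

/-- infinitely many primes with a Frobenius element generating the group of `τ` -/
theorem numt_inf (M : Type) [Field M] [NumberField M] [IsGalois ℚ M] (τ : M ≃ₐ[ℚ] M) (B : ℕ) :
    ∃ p : ℕ, B < p ∧ Pool.Agent.H7.OR.FrobP M τ p := by
  classical
  by_contra hcon
  push Not at hcon
  obtain ⟨c, hc, hev⟩ := Pool.Agent.H7.OR.sm_count M τ
  have h1 : ∀ᶠ Y : ℝ in Filter.atTop, ‖Real.log Y‖ ≤ c / (B + 2) * ‖id Y‖ :=
    Real.isLittleO_log_id_atTop.def (by positivity)
  obtain ⟨Y, hY, hY1, hY2⟩ := (hev.and (h1.and (Filter.eventually_gt_atTop (3 : ℝ)))).exists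
  have hlog : 0 < Real.log Y := Real.log_pos (by linarith)
  have hY0 : 0 < Y := by linarith
  rw [Real.norm_eq_abs, Real.norm_eq_abs, abs_of_pos hlog, id, abs_of_pos hY0] at hY1
  have h2 : (B : ℝ) + 2 ≤ c * (Y / Real.log Y) := by
    have hB : (0 : ℝ) < (B : ℝ) + 2 := by positivity
    rw [← mul_div_assoc, le_div_iff₀ hlog]
    calc ((B : ℝ) + 2) * Real.log Y ≤ ((B : ℝ) + 2) * (c / (B + 2) * Y) :=
          mul_le_mul_of_nonneg_left hY1 hB.le
      _ = c * Y := by field_simp
  have h3 : ((EK75.prLe Y).filter (fun p => Pool.Agent.H7.OR.FrobP M τ p)) ⊆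
      Finset.range (B + 1) := by
    intro p hp
    rw [Finset.mem_filter] at hp
    rw [Finset.mem_range]
    by_contra h
    exact hcon p (by omega) hp.2
  have h4 := Finset.card_le_card h3
  rw [Finset.card_range] at h4
  have h5 : (((EK75.prLe Y).filter (fun p => Pool.Agent.H7.OR.FrobP M τ p)).card : ℝ) ≤
      (B : ℝ) + 1 := by exact_mod_cast h4
  linarith

/-- a Galois number field with a root of `P` moved by an automorphism -/
theorem numt_field (P : ℤ[X]) (hP : 0 < P.natDegree) (hr : ∀ r : ℚ, aeval r P ≠ 0) :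
    ∃ (M : Type) (_ : Field M) (_ : NumberField M) (_ : IsGalois ℚ M) (α : M)
      (τ : M ≃ₐ[ℚ] M), aeval α P = 0 ∧ τ α ≠ α := by
  have hdeg : (P.map (Int.castRingHom ℂ)).degree ≠ 0 := by
    have h1 : (P.map (Int.castRingHom ℂ)).natDegree = P.natDegree :=
      natDegree_map_eq_of_injective (RingHom.injective_int _) P
    intro h
    have h2 := natDegree_eq_zero_iff_degree_le_zero.2 (le_of_eq h)
    rw [h1] at h2
    omega
  obtain ⟨z, hz⟩ := IsAlgClosed.exists_root _ hdeg
  have hz0 : aeval z P = 0 := by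
    rw [aeval_def, ← eval_map]
    exact hz
  have hPQ : P.map (Int.castRingHom ℚ) ≠ 0 := by
    intro h
    have h1 : (P.map (Int.castRingHom ℚ)).natDegree = P.natDegree :=
      natDegree_map_eq_of_injective (RingHom.injective_int _) P
    rw [h, natDegree_zero] at h1
    omega
  have hint : IsIntegral ℚ z := by
    rw [← isAlgebraic_iff_isIntegral]
    refine ⟨P.map (Int.castRingHom ℚ), hPQ, ?_⟩
    rw [aeval_def, eval₂_map]
    have e : (algebraMap ℚ ℂ).comp (Int.castRingHom ℚ) = algebraMap ℤ ℂ := RingHom.ext_int _ _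
    rw [e]
    exact hz0
  haveI hfd : FiniteDimensional ℚ (IntermediateField.adjoin ℚ {z}) :=
    IntermediateField.adjoin.finiteDimensional hint
  haveI hnf : NumberField (IntermediateField.adjoin ℚ {z}) := ⟨⟩
  obtain ⟨M, iF, iN, iA, hG⟩ :=
    Pool.Agent.H7.OR.galois_closure (IntermediateField.adjoin ℚ {z})
  let z' : IntermediateField.adjoin ℚ {z} :=
    ⟨z, IntermediateField.mem_adjoin_simple_self ℚ z⟩
  have hz' : aeval z' P = 0 := by
    have h1 : (algebraMap (IntermediateField.adjoin ℚ {z}) ℂ) (aeval z' P) = 0 := by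
      rw [aeval_def, hom_eval₂]
      have e : (algebraMap (IntermediateField.adjoin ℚ {z}) ℂ).comp
          (algebraMap ℤ (IntermediateField.adjoin ℚ {z})) = algebraMap ℤ ℂ :=
        RingHom.ext_int _ _
      rw [e]
      exact hz0
    exact (map_eq_zero _).1 h1
  have hα : aeval (algebraMap (IntermediateField.adjoin ℚ {z}) M z') P = 0 := by
    have h1 : (algebraMap (IntermediateField.adjoin ℚ {z}) M) (aeval z' P) = 0 := by
      rw [hz', map_zero]
    rw [aeval_def, hom_eval₂] at h1
    have e : (algebraMap (IntermediateField.adjoin ℚ {z}) M).comp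
        (algebraMap ℤ (IntermediateField.adjoin ℚ {z})) = algebraMap ℤ M :=
      RingHom.ext_int _ _
    rw [e] at h1
    exact h1
  by_cases hex : ∃ τ : M ≃ₐ[ℚ] M, τ (algebraMap (IntermediateField.adjoin ℚ {z}) M z') ≠
      algebraMap (IntermediateField.adjoin ℚ {z}) M z'
  · obtain ⟨τ, hτ⟩ := hex
    exact ⟨M, iF, iN, hG, _, τ, hα, hτ⟩
  · exfalso
    push Not at hex
    have h1 := (IsGalois.mem_bot_iff_fixed (F := ℚ) (E := M)
      (algebraMap (IntermediateField.adjoin ℚ {z}) M z')).2 hex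
    rw [IntermediateField.mem_bot] at h1
    obtain ⟨r, hr1⟩ := h1
    rw [← hr1] at hα
    apply hr r
    have h2 : (algebraMap ℚ M) (aeval r P) = 0 := by
      rw [aeval_def, hom_eval₂]
      have e : (algebraMap ℚ M).comp (algebraMap ℤ ℚ) = algebraMap ℤ M := RingHom.ext_int _ _
      rw [e]
      exact hα
    exact (map_eq_zero _).1 h2

theorem NumT_main (P : ℤ[X]) (hP : 0 < P.natDegree) (hr : ∀ r : ℚ, aeval r P ≠ 0) (N : ℕ)
    (hN : 0 < N) :
    ∃ (p : ℕ) (_ : Fact p.Prime) (F : Type) (_ : Field F) (_ : CharP F p) (_ : Finite F)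
      (μ : F), ¬ p ∣ N ∧ (P.map (Int.castRingHom F)).eval μ = 0 ∧ ∀ m : ℤ, μ ≠ (m : F) := by
  classical
  obtain ⟨M, iF, iN, hG, α, τ, hα, hτ⟩ := numt_field P hP hr
  have ha0 : P.leadingCoeff ≠ 0 := by
    intro h
    rw [leadingCoeff_eq_zero] at h
    rw [h, natDegree_zero] at hP
    omega
  have haM : ((P.leadingCoeff : ℤ) : M) ≠ 0 := by exact_mod_cast ha0
  have hint : IsIntegral ℤ (((P.leadingCoeff : ℤ) : M) * α) := by
    have h := isIntegral_leadingCoeff_smul P α hα
    rwa [zsmul_eq_mul] at h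
  let β : NumberField.RingOfIntegers M := ⟨((P.leadingCoeff : ℤ) : M) * α, hint⟩
  have hβ : (β : M) = ((P.leadingCoeff : ℤ) : M) * α := rfl
  -- the differences
  have hd : ∀ φ : M ≃ₐ[ℚ] M, Subgroup.zpowers φ = Subgroup.zpowers τ → φ • β - β ≠ 0 := by
    intro φ hφ h0
    have h1 : φ • β = β := sub_eq_zero.1 h0
    have h2 : φ (β : M) = (β : M) := congrArg (fun x : NumberField.RingOfIntegers M => (x : M)) h1
    rw [hβ, map_mul, map_intCast] at h2
    have h3 : φ α = α := mul_left_cancel₀ haM h2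
    have h4 : φ ∈ MulAction.stabilizer (M ≃ₐ[ℚ] M) α := h3
    have h5 : Subgroup.zpowers φ ≤ MulAction.stabilizer (M ≃ₐ[ℚ] M) α :=
      Subgroup.zpowers_le.2 h4
    have h6 : τ ∈ MulAction.stabilizer (M ≃ₐ[ℚ] M) α := by
      apply h5
      rw [hφ]
      exact Subgroup.mem_zpowers τ
    exact hτ h6
  let D : ℕ := ∏ φ ∈ (Finset.univ : Finset (M ≃ₐ[ℚ] M)).filter
    (fun φ => Subgroup.zpowers φ = Subgroup.zpowers τ),
    Ideal.absNorm (Ideal.span {φ • β - β})
  have hD0 : D ≠ 0 := by
    apply Finset.prod_ne_zero_iff.2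
    intro φ hφ
    rw [Finset.mem_filter] at hφ
    rw [Ne, Ideal.absNorm_eq_zero_iff, Ideal.span_singleton_eq_bot]
    exact hd φ hφ.2
  obtain ⟨p, hpB, hp, Q, φ, hQ, hpQ, hfr, hz⟩ :=
    numt_inf M τ (N * (P.leadingCoeff.natAbs * D))
  have hpp : Fact p.Prime := ⟨hp⟩
  have hbig : 0 < P.leadingCoeff.natAbs * D :=
    Nat.mul_pos (Int.natAbs_pos.2 ha0) (Nat.pos_of_ne_zero hD0)
  have hND : 0 < N * (P.leadingCoeff.natAbs * D) := Nat.mul_pos hN hbig
  have hndiv : ¬ p ∣ N * (P.leadingCoeff.natAbs * D) := fun h => by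
    have := Nat.le_of_dvd hND h
    omega
  have hpN : ¬ p ∣ N := fun h => hndiv (h.mul_right _)
  have hpa : ¬ p ∣ P.leadingCoeff.natAbs := fun h =>
    hndiv ((h.mul_right D).mul_left N)
  have hpD : ¬ p ∣ D := fun h => hndiv ((h.mul_left _).mul_left N)
  have hQ0 : Q ≠ ⊥ := by
    intro h
    rw [h, Ideal.mem_bot] at hpQ
    exact hp.ne_zero (by exact_mod_cast hpQ)
  haveI hmax : Q.IsMaximal := hQ.isMaximal hQ0
  letI iFF : Field (NumberField.RingOfIntegers M ⧸ Q) := Ideal.Quotient.field Q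
  haveI hfin : Finite (NumberField.RingOfIntegers M ⧸ Q) :=
    Ideal.finiteQuotientOfFreeOfNeBot _ hQ0
  have hp0 : ((p : ℕ) : NumberField.RingOfIntegers M ⧸ Q) = 0 := by
    rw [← map_natCast (Ideal.Quotient.mk Q) p]
    exact Ideal.Quotient.eq_zero_iff_mem.2 hpQ
  haveI hchar : CharP (NumberField.RingOfIntegers M ⧸ Q) p :=
    (CharP.charP_iff_prime_eq_zero hp).2 hp0
  let mk : NumberField.RingOfIntegers M →+* (NumberField.RingOfIntegers M ⧸ Q) :=
    Ideal.Quotient.mk Q
  have haF : ((P.leadingCoeff : ℤ) : NumberField.RingOfIntegers M ⧸ Q) ≠ 0 := by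
    intro h
    rw [CharP.intCast_eq_zero_iff _ p] at h
    exact hpa (Int.natCast_dvd.1 h)
  have hinj : Function.Injective (algebraMap (NumberField.RingOfIntegers M) M) :=
    FaithfulSMul.algebraMap_injective _ _
  have hS : aeval β (scaleRoots P P.leadingCoeff) = 0 := by
    apply hinj
    rw [map_zero, ← aeval_algebraMap_apply]
    have h := scaleRoots_aeval_eq_zero (r := P.leadingCoeff) hα
    exact h
  set μ : NumberField.RingOfIntegers M ⧸ Q :=
    mk β / ((P.leadingCoeff : ℤ) : NumberField.RingOfIntegers M ⧸ Q) with hμ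
  have hμβ : ((P.leadingCoeff : ℤ) : NumberField.RingOfIntegers M ⧸ Q) * μ = mk β := by
    rw [hμ, mul_div_cancel₀ _ haF]
  refine ⟨p, hpp, NumberField.RingOfIntegers M ⧸ Q, iFF, hchar, hfin, μ, hpN, ?_, ?_⟩
  · have h1 : eval₂ (Int.castRingHom (NumberField.RingOfIntegers M ⧸ Q)) (mk β)
        (scaleRoots P P.leadingCoeff) = 0 := by
      have h2 := congrArg mk hS
      rw [aeval_def, hom_eval₂, map_zero] at h2
      have e : mk.comp (algebraMap ℤ (NumberField.RingOfIntegers M)) =
          Int.castRingHom (NumberField.RingOfIntegers M ⧸ Q) := RingHom.ext_int _ _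
      rw [e] at h2
      exact h2
    have h3 := scaleRoots_eval₂_mul (p := P)
      (Int.castRingHom (NumberField.RingOfIntegers M ⧸ Q)) μ P.leadingCoeff
    have e : (Int.castRingHom (NumberField.RingOfIntegers M ⧸ Q)) P.leadingCoeff * μ =
        mk β := hμβ
    rw [e, h1] at h3
    rw [eval_map]
    rcases mul_eq_zero.1 h3.symm with h4 | h4
    · exact absurd ((pow_eq_zero_iff (by omega)).1 h4) haF
    · exact h4
  · intro m hm
    have h1 : mk β = ((P.leadingCoeff * m : ℤ) : NumberField.RingOfIntegers M ⧸ Q) := by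
      rw [← hμβ, hm]
      push_cast
      rfl
    have h2 : (mk β) ^ p = mk β := by
      rw [h1]
      exact map_intCast (frobenius (NumberField.RingOfIntegers M ⧸ Q) p) _
    have h3 : mk (φ • β - β) = 0 := by
      have h4 : mk (φ • β - β ^ p) = 0 := Ideal.Quotient.eq_zero_iff_mem.2 (hfr β)
      rw [map_sub, map_pow, h2] at h4
      rw [map_sub]
      exact h4
    have h5 : φ • β - β ∈ Q := Ideal.Quotient.eq_zero_iff_mem.1 h3
    have h6 : ((Ideal.absNorm (Ideal.span {φ • β - β}) : ℕ) :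
        NumberField.RingOfIntegers M) ∈ Q := by
      have h7 := Ideal.absNorm_mem (Ideal.span {φ • β - β})
      exact (Ideal.span_singleton_le_iff_mem Q).2 h5 h7
    have h8 : ((Ideal.absNorm (Ideal.span {φ • β - β}) : ℕ) :
        NumberField.RingOfIntegers M ⧸ Q) = 0 := by
      rw [← map_natCast (Ideal.Quotient.mk Q)]
      exact Ideal.Quotient.eq_zero_iff_mem.2 h6
    rw [CharP.cast_eq_zero_iff _ p] at h8
    apply hpD
    refine h8.trans (Finset.dvd_prod_of_mem _ ?_)
    rw [Finset.mem_filter]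
    exact ⟨Finset.mem_univ _, hz⟩

end Pool.Agent.H75.CP
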