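import Pool.Agent.H75.CP.DefsO
import Pool.Agent.H75.CP.FunA
import Pool.Agent.H5.CP.BEs

/-!
ROW OmI (120 lines).  Right multiplication by `omg c = α.comp β` and the cohomology of `NC`.  `Ext^{i+1}(ℤ, FunR G W') = 0` (`FunA_free` for the free `G`-set `G`, `KilA_ext`/`ExB_zero`).
`OmI_inj`: `(x.comp α).comp β = 0`, `x.comp α ∈ Ext^{j+1}(ℤ, QB)`; by `Ext.covariant_sequence_exact₃`/`₁` for `0 → W' → Fun → QB → 0` an element of `Ext^{j+1}(ℤ,QB)` killed by `β` comes from `Ext^{j+1}(ℤ,Fun) = 0`, so `x.comp α = 0`; then `x` comes from `x' ∈ Ext^j(ℤ,NC)`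
 (`covariant_sequence_exact₃` for `NCS`), and `s • x' = 0` (`KilA_ext`), so `s • x = 0`.
`OmI_surj`: `y` maps to `0` in `Ext^{j+2}(ℤ,Fun) = 0`, so `y = z.comp β`, `z ∈ Ext^{j+1}(ℤ,QB)`; `z.comp (mk₀ NCi) ∈ Ext^{j+1}(ℤ,NC)` is killed by `s`, so `s • z = x.comp α`, and `s • y = x.comp (α.comp β)`.
(associativity `Ext.comp_assoc`; `BEs_comp_nsmul`, `BEs_nsmul_comp` in H5/CP/BEs.lean)
-/

namespace Pool.Agent.H75.CP

open CategoryTheory CategoryTheory.Abelian CategoryTheory.Limits Pool.Agent.H5.CP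

section OmIAbs

universe w v u

variable {C : Type u} [Category.{v} C] [Abelian C] [HasExt.{w} C]

theorem OmI_abs_inj {X Q N W W' F : C} {i : Q ⟶ N} {p : N ⟶ W} {w1 : i ≫ p = 0}
    (h1 : (ShortComplex.mk i p w1).ShortExact) {a : W' ⟶ F} {b : F ⟶ Q} {w2 : a ≫ b = 0}
    (h2 : (ShortComplex.mk a b w2).ShortExact) (s j : ℕ)
    (hF : ∀ y : Ext.{w} X F (j + 1), y = 0) (hN : ∀ y : Ext.{w} X N j, s • y = 0)
    (x : Ext.{w} X W j)
    (hx : x.comp ((h1.extClass : Ext.{w} W Q 1).comp (h2.extClass : Ext.{w} Q W' 1)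
      (rfl : 1 + 1 = 2)) (rfl : j + 2 = j + 2) = 0) : s • x = 0 := by
  have e1 := Ext.comp_assoc x (h1.extClass : Ext.{w} W Q 1) (h2.extClass : Ext.{w} Q W' 1)
    (a₁₂ := j + 1) (a₂₃ := 2) (a := j + 2) rfl rfl (by omega)
  rw [hx] at e1
  obtain ⟨y, hy⟩ := Ext.covariant_sequence_exact₃ X h2
    (x.comp (h1.extClass : Ext.{w} W Q 1) (rfl : j + 1 = j + 1)) (n₁ := j + 2) (by omega) e1
  rw [hF y, Ext.zero_comp] at hy
  obtain ⟨x', hx'⟩ := Ext.covariant_sequence_exact₃ X h1 x (n₁ := j + 1) rfl hy.symm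
  rw [← hx', ← BEs_nsmul_comp]
  have h3 : s • (x' : Ext.{w} X N j) = 0 := hN x'
  rw [h3]
  exact Ext.zero_comp _ _ _ _ _

theorem OmI_abs_surj {X Q N W W' F : C} {i : Q ⟶ N} {p : N ⟶ W} {w1 : i ≫ p = 0}
    (h1 : (ShortComplex.mk i p w1).ShortExact) {a : W' ⟶ F} {b : F ⟶ Q} {w2 : a ≫ b = 0}
    (h2 : (ShortComplex.mk a b w2).ShortExact) (s j : ℕ)
    (hF : ∀ y : Ext.{w} X F (j + 2), y = 0) (hN : ∀ y : Ext.{w} X N (j + 1), s • y = 0)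
    (y : Ext.{w} X W' (j + 2)) :
    ∃ x : Ext.{w} X W j, s • y = x.comp ((h1.extClass : Ext.{w} W Q 1).comp
      (h2.extClass : Ext.{w} Q W' 1) (rfl : 1 + 1 = 2)) (rfl : j + 2 = j + 2) := by
  obtain ⟨z, hz⟩ := Ext.covariant_sequence_exact₁ X h2 y (hF _) (n₀ := j + 1) (by omega)
  have hz2 : (s • (z : Ext.{w} X Q (j + 1))).comp (Ext.mk₀ i) (add_zero (j + 1)) = 0 := by
    rw [BEs_nsmul_comp]
    exact hN _
  obtain ⟨x, hx⟩ := Ext.covariant_sequence_exact₁ X h1 (s • (z : Ext.{w} X Q (j + 1))) hz2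
    (n₀ := j) rfl
  refine ⟨x, ?_⟩
  have e1 := Ext.comp_assoc (x : Ext.{w} X W j) (h1.extClass : Ext.{w} W Q 1)
    (h2.extClass : Ext.{w} Q W' 1)
    (a₁₂ := j + 1) (a₂₃ := 2) (a := j + 2) rfl rfl (by omega)
  have hx' : (x : Ext.{w} X W j).comp (h1.extClass : Ext.{w} W Q 1) (rfl : j + 1 = j + 1) =
    s • (z : Ext.{w} X Q (j + 1)) := hx
  rw [hx'] at e1
  rw [← e1, BEs_nsmul_comp]
  exact congrArg (fun t => s • t) hz.symm

end OmIAbs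

variable {Γ G A : Type} [Group Γ] [Group G] [AddCommGroup A] (E : AX Γ G A)
  {W W' : Type} [AddCommGroup W] [AddCommGroup W']

theorem OmI_fun (B : Rep.{0} ℤ G) (j : ℕ) (y : Ext (tz G) (FunR G B) (j + 1)) : y = 0 := by
  refine (ExB_zero (FunR G B) (j + 1)).1 (FunA_free G B j ?_) y
  intro g y h
  exact mul_eq_right.1 h

theorem OmI_inj (c : A →+ (W →ₗ[ℤ] W')) (s j : ℕ) (h : Kill s (NC (k := ℤ) E c) j)
    (x : Ext (tz G) (Rep.trivial ℤ G W) j)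
    (hx : x.comp (omg E c) (rfl : j + 2 = j + 2) = 0) : s • x = 0 :=
  OmI_abs_inj (NSe_main E c) (QSe_main G (Rep.trivial ℤ G W')) s j
    (OmI_fun (Rep.trivial ℤ G W') j) ((KilA_ext s _ j).1 h) x hx

theorem OmI_surj (c : A →+ (W →ₗ[ℤ] W')) (s j : ℕ) (h : Kill s (NC (k := ℤ) E c) (j + 1))
    (y : Ext (tz G) (Rep.trivial ℤ G W') (j + 2)) :
    ∃ x : Ext (tz G) (Rep.trivial ℤ G W) j,
      s • y = x.comp (omg E c) (rfl : j + 2 = j + 2) :=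
  OmI_abs_surj (NSe_main E c) (QSe_main G (Rep.trivial ℤ G W')) s j
    (OmI_fun (Rep.trivial ℤ G W') (j + 1)) ((KilA_ext s _ (j + 1)).1 h) y

end Pool.Agent.H75.CP
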