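import Pool.Agent.H75.CP.DefsO

/-!
ROW OmN (150 lines).  Naturality and additivity of the classes `omg c = α_c.comp β_{W'}`, `α_c` the class of `NCS E c`, `β_{W'}` that of `QBS G W'`.  `ShortComplex.ShortExact.extClass_naturality` (used in H5/CP/EulN.lean): for a morphism `τ : S₁ ⟶ S₂` of short exact
sequences `α₁.comp (mk₀ τ.τ₁) = (mk₀ τ.τ₃).comp α₂`.
`OmN_l`: the morphism `NCS E (cl c ρ) → NCS E c`: identity on `QB`, `(F,b) ↦ (F, ρ b)` in the middle, `ρ` on the right: `α_{cl c ρ} = (mk₀ ρ).comp α_c`.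
`OmN_r`: `NCS E c → NCS E (cr c σ)`: `QBm G (trm G σ)`, `(F,b) ↦ (σ ∘ F, b)`, identity: `α_c.comp (mk₀ (QBm σ)) = α_{cr c σ}`; and `QBS G W' → QBS G W₁`: `trm σ`, `FunRm σ`, `QBm σ`: `β_{W'}.comp (mk₀ σ) = (mk₀ (QBm σ)).comp β_{W₁}`.  So
 `omg c .comp σ = α_c.comp (β.comp σ) = (α_c.comp QBm σ).comp β₁ = omg (cr c σ)`.
`OmN_add`: let `C : A →+ (W →ₗ W' × W')`, `C(a) = (c a).prod (c' a)`, `p₁, p₂, s : W' × W' → W'` the projections and the sum; `cr C p₁ = c`, `cr C p₂ = c'`, `cr C s = c + c'`, and `trm s = trm p₁ + trm p₂`, so by `OmN_r`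
 `omg (c + c') = (omg C).comp (mk₀ (trm p₁ + trm p₂)) = omg c + omg c'` (`Ext.mk₀_add`, `Ext.comp_add`).  `OmN_zsmul` from additivity (`AddMonoidHom.mk'`, `map_zsmul`).
-/

namespace Pool.Agent.H75.CP

open CategoryTheory CategoryTheory.Abelian CategoryTheory.Limits Pool.Agent.H5.CP

variable {Γ G A : Type} [Group Γ] [Group G] [AddCommGroup A] (E : AX Γ G A)
  {W W' W₁ : Type} [AddCommGroup W] [AddCommGroup W'] [AddCommGroup W₁]

/-- composites of two classes and morphisms -/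
theorem OmN_abs {C : Type*} [Category* C] [Abelian C] [HasExt.{0} C] {X Y Z Y' Z' : C}
    (α : Ext.{0} X Y 1) (β : Ext.{0} Y Z 1) (α' : Ext.{0} X Y' 1) (β' : Ext.{0} Y' Z' 1)
    (g : Y ⟶ Y') (f : Z ⟶ Z') (h1 : α.comp (Ext.mk₀ g) (add_zero 1) = α')
    (h2 : β.comp (Ext.mk₀ f) (add_zero 1) = (Ext.mk₀ g).comp β' (zero_add 1)) :
    (α.comp β (show 1 + 1 = 2 from rfl)).comp (Ext.mk₀ f) (add_zero 2) =
      α'.comp β' (show 1 + 1 = 2 from rfl) := by
  rw [Ext.comp_assoc_of_third_deg_zero, h2, ← h1, Ext.comp_assoc_of_second_deg_zero]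

/-- the middle map for `ρ` -/
noncomputable def OmN_ml (c : A →+ (W →ₗ[ℤ] W')) (ρ : W₁ →ₗ[ℤ] W) : NC E (cl c ρ) ⟶ NC E c :=
  Rep.ofHom
    ⟨({ toFun := fun P => ⟨(P.1.1, ρ P.1.2), ⟨P.2.1, fun a x => P.2.2 a x⟩⟩
        map_add' := by
          intro P P'
          apply Subtype.ext
          exact Prod.ext rfl (map_add ρ _ _)
        map_smul' := by
          intro r P
          apply Subtype.ext
          exact Prod.ext rfl (map_smul ρ _ _) } : NCs E (cl c ρ) →ₗ[ℤ] NCs E c),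
      fun _ => rfl⟩

/-- the middle map for `σ` -/
noncomputable def OmN_mr (c : A →+ (W →ₗ[ℤ] W')) (σ : W' →ₗ[ℤ] W₁) : NC E c ⟶ NC E (cr c σ) :=
  Rep.ofHom
    ⟨({ toFun := fun P => ⟨(fun x => σ (P.1.1 x), P.1.2), by
          refine ⟨?_, fun a x => ?_⟩
          · show σ (P.1.1 1) = 0
            rw [P.2.1, map_zero]
          · show σ (P.1.1 (E.j (Multiplicative.ofAdd a) * x)) = σ (c a P.1.2) + σ (P.1.1 x)
            rw [P.2.2 a x, map_add]⟩
        map_add' := by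
          intro P P'
          apply Subtype.ext
          refine Prod.ext ?_ rfl
          funext x
          exact map_add σ _ _
        map_smul' := by
          intro r P
          apply Subtype.ext
          refine Prod.ext ?_ rfl
          funext x
          exact map_smul σ _ _ } : NCs E c →ₗ[ℤ] NCs E (cr c σ)), by
      intro g
      apply LinearMap.ext
      intro P
      apply Subtype.ext
      refine Prod.ext ?_ rfl
      funext x
      exact map_sub σ _ _⟩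

/-- the morphism of short complexes for `ρ` -/
noncomputable def OmN_sl (c : A →+ (W →ₗ[ℤ] W')) (ρ : W₁ →ₗ[ℤ] W) :
    NCS E (cl c ρ) ⟶ NCS E c where
  τ₁ := 𝟙 (QB G (Rep.trivial ℤ G W'))
  τ₂ := OmN_ml E c ρ
  τ₃ := trm G ρ
  comm₁₂ := by
    refine Rep.hom_ext ?_
    refine DFunLike.ext _ _ fun z => ?_
    obtain ⟨F, rfl⟩ := Submodule.Quotient.mk_surjective _ z
    apply NCv_inj
    exact Prod.ext rfl (map_zero ρ).symm
  comm₂₃ := rfl

/-- the morphism of short complexes for `σ` -/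
noncomputable def OmN_sr (c : A →+ (W →ₗ[ℤ] W')) (σ : W' →ₗ[ℤ] W₁) :
    NCS E c ⟶ NCS E (cr c σ) where
  τ₁ := QBm G (trm G σ)
  τ₂ := OmN_mr E c σ
  τ₃ := 𝟙 (Rep.trivial ℤ G W)
  comm₁₂ := by
    refine Rep.hom_ext ?_
    refine DFunLike.ext _ _ fun z => ?_
    obtain ⟨F, rfl⟩ := Submodule.Quotient.mk_surjective _ z
    apply NCv_inj
    refine Prod.ext ?_ rfl
    funext x
    exact (map_sub σ (F (E.q x)) (F 1)).symm
  comm₂₃ := rfl

/-- the morphism of the sequences `QBS` for `σ` -/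
noncomputable def OmN_sq (σ : W' →ₗ[ℤ] W₁) :
    QBS G (Rep.trivial ℤ G W') ⟶ QBS G (Rep.trivial ℤ G W₁) where
  τ₁ := trm G σ
  τ₂ := FunRm G (trm G σ)
  τ₃ := QBm G (trm G σ)
  comm₁₂ := rfl
  comm₂₃ := rfl

theorem OmN_l (c : A →+ (W →ₗ[ℤ] W')) (ρ : W₁ →ₗ[ℤ] W) :
    (Ext.mk₀ (trm G ρ)).comp (omg E c) (zero_add 2) = omg E (cl c ρ) := by
  have h := ShortComplex.ShortExact.extClass_naturality (NSe_main E (cl c ρ)) (NSe_main E c)
    (OmN_sl E c ρ)
  have h1 : (NSe_main E (cl c ρ)).extClass =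
      (Ext.mk₀ (trm G ρ)).comp (NSe_main E c).extClass (zero_add 1) :=
    (Ext.comp_mk₀_id _).symm.trans h
  have h2 : (Ext.mk₀ (trm G ρ)).comp ((NSe_main E c).extClass.comp
      (QSe_main G (Rep.trivial ℤ G W')).extClass (show 1 + 1 = 2 from rfl)) (zero_add 2) =
      ((Ext.mk₀ (trm G ρ)).comp (NSe_main E c).extClass (zero_add 1)).comp
      (QSe_main G (Rep.trivial ℤ G W')).extClass (show 1 + 1 = 2 from rfl) :=
    (Ext.comp_assoc _ _ _ _ _ rfl).symm
  exact h2.trans (congrArg (fun x => Ext.comp x (QSe_main G (Rep.trivial ℤ G W')).extClass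
    (show 1 + 1 = 2 from rfl)) h1.symm)

theorem OmN_r (c : A →+ (W →ₗ[ℤ] W')) (σ : W' →ₗ[ℤ] W₁) :
    (omg E c).comp (Ext.mk₀ (trm G σ)) (add_zero 2) = omg E (cr c σ) := by
  have h := ShortComplex.ShortExact.extClass_naturality (NSe_main E c) (NSe_main E (cr c σ))
    (OmN_sr E c σ)
  have h1 : (NSe_main E c).extClass.comp (Ext.mk₀ (QBm G (trm G σ))) (add_zero 1) =
      (NSe_main E (cr c σ)).extClass :=
    h.trans (Ext.mk₀_id_comp _)
  have h2 : (QSe_main G (Rep.trivial ℤ G W')).extClass.comp (Ext.mk₀ (trm G σ)) (add_zero 1) =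
      (Ext.mk₀ (QBm G (trm G σ))).comp (QSe_main G (Rep.trivial ℤ G W₁)).extClass
        (zero_add 1) :=
    ShortComplex.ShortExact.extClass_naturality (QSe_main G (Rep.trivial ℤ G W'))
      (QSe_main G (Rep.trivial ℤ G W₁)) (OmN_sq σ)
  exact OmN_abs (NSe_main E c).extClass (QSe_main G (Rep.trivial ℤ G W')).extClass
    (NSe_main E (cr c σ)).extClass (QSe_main G (Rep.trivial ℤ G W₁)).extClass
    (QBm G (trm G σ)) (trm G σ) h1 h2

theorem OmN_add (c c' : A →+ (W →ₗ[ℤ] W')) : omg E (c + c') = omg E c + omg E c' := by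
  let C : A →+ (W →ₗ[ℤ] (W' × W')) :=
    { toFun := fun a => (c a).prod (c' a)
      map_zero' := by
        apply LinearMap.ext
        intro x
        simp
      map_add' := by
        intro a b
        apply LinearMap.ext
        intro x
        simp }
  let s : (W' × W') →ₗ[ℤ] W' := LinearMap.fst ℤ W' W' + LinearMap.snd ℤ W' W'
  have h1 : cr C (LinearMap.fst ℤ W' W') = c := rfl
  have h2 : cr C (LinearMap.snd ℤ W' W') = c' := rfl
  have h3 : cr C s = c + c' := rfl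
  have h4 : trm G s = trm G (LinearMap.fst ℤ W' W') + trm G (LinearMap.snd ℤ W' W') := rfl
  rw [← h3, ← OmN_r, h4, Ext.mk₀_add, Ext.comp_add, OmN_r, OmN_r, h1, h2]

theorem OmN_zsmul (n : ℤ) (c : A →+ (W →ₗ[ℤ] W')) : omg E (n • c) = n • omg E c := by
  let f : (A →+ (W →ₗ[ℤ] W')) →+ Ext (Rep.trivial ℤ G W) (Rep.trivial ℤ G W') 2 :=
    AddMonoidHom.mk' (fun c => omg E c) (fun a b => OmN_add E a b)
  exact map_zsmul f n c

end Pool.Agent.H75.CP
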