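import Pool.Agent.H75.CP.WPac
import Pool.Agent.H5.CP.SerB

/-!
ROW SerL (150 lines, copy and adapt).  GENERALISED SERRE THEOREM.  `D : PData G p`, `CD k (ker π) n`, `k` a field, and `B` is acyclic on all subgroups of order `p`.  Then `H^j(G;B) = 0` for `j ≥ 2n+1`.
The proofs of `SerA_main` and `SerB_claim` (H5/CP/SerA.lean, SerB.lean) never change the module `B`; copy them with `B` FIXED:
(1) `H^{j+1}(G;W(P;B)) = 0` for projective `P : Rep k N`: retract of the free module on `P` (as in H5/CP/WProj.lean, `Wmap`, `LesA_ret`), `WPac_main`.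
(2) one step (SerA with `B` fixed): `f : P ⟶ M` onto, `K` its kernel, `H^j(W(K;B)) = 0` for `j ≥ b`, `n ≤ b` ⟹ `H^j(W(M;B)) = 0` for `j ≥ b+1`
 (`VTop_main`, `VHig_main`, `SQe_main`, `LesA_1`, `VBot_main` are stated for a single `B`).
(3) the claim: `HasProjectiveDimensionLT M (m+1)` ⟹ `H^j(G;W(M;B)) = 0` for `j ≥ n+m+1`; apply to `M = Rep.trivial k N k` (`ExB_pd`), `W(k;B) ≅ B` (`WTriv_main`).
-/

namespace Pool.Agent.H75.CP

open CategoryTheory CategoryTheory.Abelian CategoryTheory.Limits Pool.Agent.H5.CP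

theorem SerL_proj {k G : Type} [CommRing k] [Group G] {p : ℕ} [Fact p.Prime] (D : PData G p)
    (M : Rep.{0} k D.π.ker) [Projective M] (B : Rep.{0} k G) (hB : PAc p B) (j : ℕ) :
    IsZero (groupCohomology (W D M B) (j + 1)) := by
  let f : Rep.free k D.π.ker M.V ⟶ M := Rep.freeLift k D.π.ker (A := M) (fun x : M.V => x)
  haveI : Epi f := by
    rw [Rep.epi_iff_surjective]
    intro x
    refine ⟨Finsupp.single x (MonoidAlgebra.single 1 1), ?_⟩
    change Representation.freeLift M.ρ (fun x : M.V => x) _ = x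
    rw [Representation.freeLift_single_single]
    simp
  let s : M ⟶ Rep.free k D.π.ker M.V := Projective.factorThru (𝟙 M) f
  have hs : s ≫ f = 𝟙 M := Projective.factorThru_comp _ _
  let r : Retract (W D M B) (W D (Rep.free k D.π.ker M.V) B) :=
    { i := Wmap D f B
      r := Wmap D s B
      retract := by rw [← Wmap_comp, hs, Wmap_id] }
  exact LesA_ret r (j + 1) (WPac_main D M.V B hB j)

theorem SerL_step {k G : Type} [Field k] [Group G] {p : ℕ} [Fact p.Prime] (D : PData G p)
    (P M : Rep.{0} k D.π.ker) (f : P ⟶ M) (hf : Function.Surjective f.hom)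
    (K : Submodule k P.V) (hKf : ∀ x, x ∈ K ↔ f.hom x = 0) (hK : ∀ n, K ≤ K.comap (P.ρ n))
    (B : Rep.{0} k G) (hP : ∀ j : ℕ, IsZero (groupCohomology (W D P B) (j + 1)))
    (n b : ℕ) (hnb : n ≤ b) (hN : CD k D.π.ker n)
    (hK' : ∀ j : ℕ, b ≤ j →
      IsZero (groupCohomology (W D (P.subrepresentation K hK) B) j))
    (j : ℕ) (hj : b + 1 ≤ j) : IsZero (groupCohomology (W D M B) j) := by
  obtain ⟨j', rfl⟩ : ∃ j', j = j' + 1 := ⟨j - 1, by omega⟩
  have hj' : b ≤ j' := by omega
  have key : ∀ (d i : ℕ), 1 ≤ i → i + d = p →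
      IsZero (groupCohomology ((W D P B).subrepresentation (V D P K B i)
        (V_stable D P K hK B i)) (j' + 1)) := by
    intro d
    induction d with
    | zero =>
      intro i _ hi
      rw [add_zero] at hi
      subst hi
      exact VTop_main D P K hK B j' (hK' j' hj') (hP j')
    | succ d ih =>
      intro i hi1 hi
      have h2 := ih (i + 1) (by omega) (by omega)
      have h3 := VHig_main D P K hK B i hi1 (by omega) j' (fun A' => hN A' j' (hnb.trans hj'))
      exact LesA_1 (SQe_main (W D P B) (V D P K B i) (V D P K B (i + 1))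
        (V_stable D P K hK B i) (V_stable D P K hK B (i + 1))
        (V_mono D P K B (Nat.le_succ i))) j' h3 h2
  have hp : 1 ≤ p := (Fact.out : p.Prime).one_lt.le
  exact LesA_iso (VBot_main D P M f hf K hKf hK B) (j' + 1) (key (p - 1) 1 le_rfl (by omega))

theorem SerL_claim {k G : Type} [Field k] [Group G] {p : ℕ} [Fact p.Prime] (D : PData G p)
    (n : ℕ) (hN : CD k D.π.ker n) (B : Rep.{0} k G) (hB : PAc p B) (m : ℕ) :
    ∀ (M : Rep.{0} k D.π.ker), HasProjectiveDimensionLT M (m + 1) →
      ∀ j : ℕ, n + m + 1 ≤ j → IsZero (groupCohomology (W D M B) j) := by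
  induction m with
  | zero =>
    intro M hM j hj
    have hP : Projective M := projective_iff_hasProjectiveDimensionLT_one.mpr hM
    obtain ⟨i, rfl⟩ : ∃ i, j = i + 1 := ⟨j - 1, by omega⟩
    exact SerL_proj D M B hB i
  | succ m ih =>
    intro M hM j hj
    let P : Rep.{0} k D.π.ker := Rep.free k D.π.ker M.V
    let f : P ⟶ M := Rep.freeLift k D.π.ker (A := M) id
    have hf : Function.Surjective f.hom := by
      intro x
      refine ⟨Finsupp.single x (.single 1 1), ?_⟩
      have := Representation.freeLift_single_single (σ := M.ρ) (f := (id : M.V → M.V)) x 1 1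
      rw [one_smul, map_one] at this
      exact this
    let K : Submodule k P.V := LinearMap.ker f.hom.toLinearMap
    have hKf : ∀ x, x ∈ K ↔ f.hom x = 0 := fun x => LinearMap.mem_ker
    have hK : ∀ g, K ≤ K.comap (P.ρ g) := by
      intro g x hx
      rw [Submodule.mem_comap, hKf, Rep.hom_comm_apply, (hKf x).mp hx, map_zero]
    let S : ShortComplex (Rep.{0} k D.π.ker) :=
      { X₁ := P.subrepresentation K hK
        X₂ := P
        X₃ := M
        f := P.subtype K hK
        g := f
        zero := by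
          ext x
          exact (hKf x.1).mp x.2 }
    have hS : S.ShortExact :=
      { exact := (forget₂ (Rep.{0} k D.π.ker) (ModuleCat k)).reflects_exact_of_faithful _ <|
          (ShortComplex.moduleCat_exact_iff _).2
          fun x hx => ⟨(⟨x, (hKf x).mpr hx⟩ : K), rfl⟩
        mono_f := (Rep.mono_iff_injective _).2 fun _ _ h => Subtype.ext h
        epi_g := (Rep.epi_iff_surjective _).2 hf }
    have hPp : Projective P := inferInstanceAs (Projective (Rep.free k D.π.ker M.V))
    have h2 : HasProjectiveDimensionLT S.X₂ (m + 1) := by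
      have : HasProjectiveDimensionLT P 1 := projective_iff_hasProjectiveDimensionLT_one.mp hPp
      exact hasProjectiveDimensionLT_of_ge P 1 (m + 1) (by omega)
    have h1 : HasProjectiveDimensionLT S.X₁ (m + 1) :=
      hS.hasProjectiveDimensionLT_X₁ (m + 1) h2 hM
    exact SerL_step D P M f hf K hKf hK B (fun j => SerL_proj D P B hB j) n (n + m + 1) (by omega)
      hN (fun j hj => ih _ h1 j hj) j (by omega)

theorem SerL_main {k G : Type} [Field k] [Group G] {p : ℕ} [Fact p.Prime] (D : PData G p)
    (n : ℕ) (hN : CD k D.π.ker n) (B : Rep.{0} k G) (hB : PAc p B) (j : ℕ)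
    (hj : 2 * n + 1 ≤ j) : IsZero (groupCohomology B j) := by
  have h1 : HasProjectiveDimensionLT (Rep.trivial k D.π.ker k) n := (ExB_pd n).mp hN
  have h2 : HasProjectiveDimensionLT (Rep.trivial k D.π.ker k) (n + 1) :=
    hasProjectiveDimensionLT_of_ge _ n (n + 1) (by omega)
  have h3 := SerL_claim D n hN B hB n _ h2 j (by omega)
  obtain ⟨e⟩ := WTriv_main D B
  exact LesA_iso ⟨e.symm⟩ j h3

end Pool.Agent.H75.CP
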