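import Pool.Agent.H75.CP.OmN
import Pool.Agent.H5.CP.DivH

/-!
ROW Tht (200 lines).  The map `Θ : Ext^j(ℤ,ℤ) ⊗ F → Ext^j(ℤ,F)`, `x ⊗ β ↦ x.comp (mk₀ (n ↦ nβ))`.
`Tht_ex`: `TensorProduct.lift` (`trm (rb β)` is additive in `β`).
`Tht_inj`, `F` a finite field of characteristic `p`.  Let `ε_i` be a basis of `F` over `ZMod p` with coordinates `λ_i : F → ZMod p`.  Every `v ∈ Ext ⊗ F` is `Σ x_i ⊗ ε_i` (`x ⊗ β = x ⊗ Σ n_i ε_i = Σ (n_i x) ⊗ ε_i`, `n_i ∈ ℤ` a lift of `λ_i(β)`).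
 If `Θ v = 0`, compose with `trm λ_i`: `x_i.comp (mk₀ (ℤ → ZMod p)) = 0`, so `x_i = p • y` (`Ext.covariant_sequence_exact₂` for `0 → ℤ → ℤ → ZMod p → 0`, see the end of H5/CP/DivH.lean), and `x_i ⊗ ε_i = y ⊗ p ε_i = 0`.
`Tht_omg`: by linearity on pure tensors: `(x.comp (rb β)).comp (omg (cF f g μ)) = x.comp (omg (cl (cF f g μ) (rb β)))` (`OmN_l`), and `cl (cF f g μ) (rb β) = cr (cz f) (rb β) - cr (cz g) (rb (μ β))` (both send `a` to `n ↦ n (f(a) - μ g(a)) β`), so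
 `omg (cl ..) = (omg (cz f)).comp (rb β) - (omg (cz g)).comp (rb (μβ))` (`OmN_add`, `OmN_zsmul`, `OmN_r`).
-/

namespace Pool.Agent.H75.CP

open CategoryTheory CategoryTheory.Abelian CategoryTheory.Limits Pool.Agent.H5.CP
open scoped TensorProduct

theorem Tht_trm_add (G : Type) [Group G] {V V' : Type} [AddCommGroup V] [AddCommGroup V']
    (σ τ : V →ₗ[ℤ] V') : trm G (σ + τ) = trm G σ + trm G τ := by
  ext x
  rfl

theorem Tht_trm_comp (G : Type) [Group G] {V V' V₁ : Type} [AddCommGroup V] [AddCommGroup V']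
    [AddCommGroup V₁] (σ : V →ₗ[ℤ] V') (τ : V' →ₗ[ℤ] V₁) :
    trm G σ ≫ trm G τ = trm G (τ ∘ₗ σ) := by
  ext x
  rfl

theorem Tht_trm_zero (G : Type) [Group G] {V V' : Type} [AddCommGroup V] [AddCommGroup V'] :
    trm G (0 : V →ₗ[ℤ] V') = 0 := by
  ext x
  rfl

theorem Tht_rb_add {F : Type} [AddCommGroup F] (β β' : F) : rb (β + β') = rb β + rb β' := by
  apply LinearMap.ext
  intro n
  show n • (β + β') = n • β + n • β'
  rw [smul_add]

/-- the additive map in two variables -/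
noncomputable def Tht_f (G F : Type) [Group G] [AddCommGroup F] (j : ℕ) :
    Ext (tz G) (tz G) j →+ F →+ Ext (tz G) (Rep.trivial ℤ G F) j :=
  AddMonoidHom.mk' (fun x => AddMonoidHom.mk'
    (fun β => x.comp (Ext.mk₀ (trm G (rb β))) (add_zero j)) (fun β β' => by
      rw [Tht_rb_add, Tht_trm_add, Ext.mk₀_add, Ext.comp_add])) (fun x x' => by
      ext β
      show (x + x').comp (Ext.mk₀ (trm G (rb β))) (add_zero j) =
        x.comp (Ext.mk₀ (trm G (rb β))) (add_zero j) +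
          x'.comp (Ext.mk₀ (trm G (rb β))) (add_zero j)
      rw [Ext.add_comp])

theorem Tht_ex (G F : Type) [Group G] [AddCommGroup F] (j : ℕ) :
    ∃ Θ : (Ext (tz G) (tz G) j) ⊗[ℤ] F →ₗ[ℤ] Ext (tz G) (Rep.trivial ℤ G F) j,
      ∀ (x : Ext (tz G) (tz G) j) (β : F),
        Θ (x ⊗ₜ β) = x.comp (Ext.mk₀ (trm G (rb β))) (add_zero j) := by
  have h : ∀ (r : ℤ) (m : Ext (tz G) (tz G) j) (n : F),
      Tht_f G F j (r • m) n = Tht_f G F j m (r • n) := by
    intro r m n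
    rw [map_zsmul, map_zsmul, AddMonoidHom.smul_apply]
  exact ⟨(TensorProduct.liftAddHom (R := ℤ) (Tht_f G F j) h).toIntLinearMap, fun x β => rfl⟩

theorem Tht_sum {G F : Type} [Group G] [Field F] (p : ℕ) [Fact p.Prime] [Algebra (ZMod p) F]
    (j : ℕ) {ι : Type} [Fintype ι] (b : Module.Basis ι (ZMod p) F)
    (v : (Ext (tz G) (tz G) j) ⊗[ℤ] F) :
    ∃ x : ι → Ext (tz G) (tz G) j, v = ∑ i, x i ⊗ₜ[ℤ] b i := by
  induction v using TensorProduct.induction_on with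
  | zero => exact ⟨fun _ => 0, by simp⟩
  | tmul x β =>
    refine ⟨fun i => (b.repr β i).val • x, ?_⟩
    have h1 : β = ∑ i, (b.repr β i).val • b i := by
      conv_lhs => rw [← b.sum_repr β]
      refine Finset.sum_congr rfl fun i _ => ?_
      conv_lhs => rw [← ZMod.natCast_zmod_val (b.repr β i)]
      rw [Nat.cast_smul_eq_nsmul]
    conv_lhs => rw [h1, TensorProduct.tmul_sum]
    refine Finset.sum_congr rfl fun i _ => ?_
    rw [TensorProduct.tmul_smul, TensorProduct.smul_tmul']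
  | add v w hv hw =>
    obtain ⟨x, hx⟩ := hv
    obtain ⟨y, hy⟩ := hw
    refine ⟨fun i => x i + y i, ?_⟩
    rw [hx, hy, ← Finset.sum_add_distrib]
    exact Finset.sum_congr rfl fun i _ => (TensorProduct.add_tmul _ _ _).symm

theorem Tht_div {G : Type} [Group G] (p : ℕ) (hp : 0 < p) (j : ℕ) (x : Ext (tz G) (tz G) j)
    (h : x.comp (Ext.mk₀ (tmap G (Int.castAddHom (ZMod p)))) (add_zero j) = 0) :
    ∃ y, x = p • y := by
  obtain ⟨y, hy⟩ := Ext.covariant_sequence_exact₂ _ (DivH_se G p hp) x h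
  have h5 : ∀ y : Ext (tz G) (tz G) j,
      y.comp (Ext.mk₀ (tmap G (AddMonoidHom.mulLeft ((p : ℕ) : ℤ)))) (add_zero _) = p • y := by
    intro y
    rw [DivH_tmap, DivH_mk₀_nsmul, DivH_comp_nsmul, Ext.comp_mk₀_id]
  exact ⟨y, hy.symm.trans (h5 y)⟩

theorem Tht_inj {G F : Type} [Group G] [Field F] [Finite F] (p : ℕ) [Fact p.Prime] [CharP F p]
    (j : ℕ) (Θ : (Ext (tz G) (tz G) j) ⊗[ℤ] F →ₗ[ℤ] Ext (tz G) (Rep.trivial ℤ G F) j)
    (hΘ : ∀ (x : Ext (tz G) (tz G) j) (β : F),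
      Θ (x ⊗ₜ β) = x.comp (Ext.mk₀ (trm G (rb β))) (add_zero j))
    (v : (Ext (tz G) (tz G) j) ⊗[ℤ] F) (hv : Θ v = 0) : v = 0 := by
  classical
  let _ : Algebra (ZMod p) F := ZMod.algebra F p
  have : Module.Finite (ZMod p) F := Module.Finite.of_finite
  let b := Module.finBasis (ZMod p) F
  obtain ⟨x, rfl⟩ := Tht_sum p j b v
  refine Finset.sum_eq_zero fun i _ => ?_
  let lam : F →ₗ[ℤ] ZMod p := (b.coord i).toAddMonoidHom.toIntLinearMap
  have h1 : ∀ l, (x l).comp (Ext.mk₀ (trm G (lam ∘ₗ rb (b l)))) (add_zero j) =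
      if l = i then (x i).comp (Ext.mk₀ (tmap G (Int.castAddHom (ZMod p)))) (add_zero j)
      else 0 := by
    intro l
    by_cases hl : l = i
    · subst hl
      rw [if_pos rfl]
      have e : trm G (lam ∘ₗ rb (b l)) = tmap G (Int.castAddHom (ZMod p)) := by
        ext
        show b.coord l ((1 : ℤ) • b l) = ((1 : ℤ) : ZMod p)
        rw [map_zsmul, Module.Basis.coord_apply, Module.Basis.repr_self, Finsupp.single_eq_same,
          zsmul_eq_mul, mul_one]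
      rw [e]
    · rw [if_neg hl]
      have e : lam ∘ₗ rb (b l) = 0 := by
        apply LinearMap.ext
        intro n
        show b.coord i (n • b l) = 0
        rw [map_zsmul, Module.Basis.coord_apply, Module.Basis.repr_self,
          Finsupp.single_eq_of_ne (Ne.symm hl), smul_zero]
      rw [e, Tht_trm_zero, Ext.mk₀_zero, Ext.comp_zero]
  have h2 : (Θ (∑ l, x l ⊗ₜ[ℤ] b l)).comp (Ext.mk₀ (trm G lam)) (add_zero j) =
      (x i).comp (Ext.mk₀ (tmap G (Int.castAddHom (ZMod p)))) (add_zero j) := by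
    rw [map_sum, Ext.sum_comp]
    have h3 : ∀ l, (Θ (x l ⊗ₜ[ℤ] b l)).comp (Ext.mk₀ (trm G lam)) (add_zero j) =
        (x l).comp (Ext.mk₀ (trm G (lam ∘ₗ rb (b l)))) (add_zero j) := by
      intro l
      rw [hΘ, Ext.comp_assoc_of_third_deg_zero, Ext.mk₀_comp_mk₀, Tht_trm_comp]
    rw [Finset.sum_congr rfl fun l _ => (h3 l).trans (h1 l)]
    simp
  rw [hv, Ext.zero_comp] at h2
  obtain ⟨y, hy⟩ := Tht_div p (Fact.out : p.Prime).pos j (x i) h2.symm
  rw [hy, ← TensorProduct.smul_tmul', ← TensorProduct.tmul_smul]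
  have h4 : p • b i = 0 := by
    rw [nsmul_eq_mul, CharP.cast_eq_zero, zero_mul]
  rw [h4, TensorProduct.tmul_zero]

/-- right multiplication by `omg E (cz f)` -/
noncomputable def del {Γ G A : Type} [Group Γ] [Group G] [AddCommGroup A] (E : AX Γ G A)
    (f : A →+ ℤ) (j : ℕ) : Ext (tz G) (tz G) j →+ Ext (tz G) (tz G) (j + 2) where
  toFun := fun x => x.comp (omg E (cz f)) (rfl : j + 2 = j + 2)
  map_zero' := by rw [Ext.zero_comp]
  map_add' := fun x y => by rw [Ext.add_comp]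

theorem Tht_sub {Γ G A : Type} [Group Γ] [Group G] [AddCommGroup A] (E : AX Γ G A)
    {W W' : Type} [AddCommGroup W] [AddCommGroup W'] (c c' : A →+ (W →ₗ[ℤ] W')) :
    omg E (c - c') = omg E c - omg E c' := by
  have h := OmN_add E (c - c') c'
  rw [sub_add_cancel] at h
  rw [h, add_sub_cancel_right]

theorem Tht_split {A F : Type} [AddCommGroup A] [Field F] (f g : A →+ ℤ) (μ β : F) :
    cl (cF f g μ) (rb β) = cr (cz f) (rb β) - cr (cz g) (rb (μ * β)) := by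
  apply AddMonoidHom.ext
  intro a
  apply LinearMap.ext
  intro n
  show ((f a : F) - μ * (g a : F)) * (n • β) = (f a • n) • β - (g a • n) • (μ * β)
  simp only [zsmul_eq_mul, smul_eq_mul, Int.cast_mul]
  ring

theorem Tht_pure {Γ G A F : Type} [Group Γ] [Group G] [AddCommGroup A] [Field F] (E : AX Γ G A)
    (f g : A →+ ℤ) (μ : F) (j : ℕ) (x : Ext (tz G) (tz G) j) (β : F) :
    (x.comp (Ext.mk₀ (trm G (rb β))) (add_zero j)).comp (omg E (cF f g μ))
      (rfl : j + 2 = j + 2) =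
      (del E f j x).comp (Ext.mk₀ (trm G (rb β))) (add_zero (j + 2)) -
      (del E g j x).comp (Ext.mk₀ (trm G (rb (μ * β)))) (add_zero (j + 2)) := by
  have h1 : ∀ (h : A →+ ℤ) (δ : F), (del E h j x).comp (Ext.mk₀ (trm G (rb δ)))
      (add_zero (j + 2)) = x.comp (omg E (cr (cz h) (rb δ))) (rfl : j + 2 = j + 2) := by
    intro h δ
    show (x.comp (omg E (cz h)) (rfl : j + 2 = j + 2)).comp (Ext.mk₀ (trm G (rb δ)))
      (add_zero (j + 2)) = _
    rw [Ext.comp_assoc_of_third_deg_zero, OmN_r]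
  rw [Ext.comp_assoc_of_second_deg_zero, OmN_l, Tht_split, Tht_sub, h1, h1]
  have h2 := map_sub (Ext.precomp x (Rep.trivial ℤ G F) (rfl : j + 2 = j + 2))
    (omg E (cr (cz f) (rb β))) (omg E (cr (cz g) (rb (μ * β))))
  exact h2

theorem Tht_omg {Γ G A F : Type} [Group Γ] [Group G] [AddCommGroup A] [Field F] (E : AX Γ G A)
    (f g : A →+ ℤ) (μ : F) (j : ℕ)
    (Θ : (Ext (tz G) (tz G) j) ⊗[ℤ] F →ₗ[ℤ] Ext (tz G) (Rep.trivial ℤ G F) j)
    (hΘ : ∀ (x : Ext (tz G) (tz G) j) (β : F),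
      Θ (x ⊗ₜ β) = x.comp (Ext.mk₀ (trm G (rb β))) (add_zero j))
    (Θ' : (Ext (tz G) (tz G) (j + 2)) ⊗[ℤ] F →ₗ[ℤ] Ext (tz G) (Rep.trivial ℤ G F) (j + 2))
    (hΘ' : ∀ (x : Ext (tz G) (tz G) (j + 2)) (β : F),
      Θ' (x ⊗ₜ β) = x.comp (Ext.mk₀ (trm G (rb β))) (add_zero (j + 2)))
    (v : (Ext (tz G) (tz G) j) ⊗[ℤ] F) :
    (Θ v).comp (omg E (cF f g μ)) (rfl : j + 2 = j + 2) =
      Θ' (TensorProduct.map (del E f j).toIntLinearMap LinearMap.id v -
        TensorProduct.map (del E g j).toIntLinearMap (LinearMap.mulLeft ℤ μ) v) := by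
  induction v using TensorProduct.induction_on with
  | zero => simp
  | tmul x β =>
    rw [hΘ, Tht_pure, map_sub Θ']
    exact congrArg₂ (· - ·) (hΘ' (del E f j x) β).symm (hΘ' (del E g j x) (μ * β)).symm
  | add v w hv hw =>
    rw [map_add Θ, Ext.add_comp, hv, hw, ← map_add Θ']
    congr 1
    rw [map_add (TensorProduct.map (del E f j).toIntLinearMap LinearMap.id),
      map_add (TensorProduct.map (del E g j).toIntLinearMap (LinearMap.mulLeft ℤ μ))]
    abel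

end Pool.Agent.H75.CP
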