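import Pool.Agent.H75.CP.NGy
import Pool.Agent.H75.CP.MPc
import Pool.Agent.H75.CP.OmI
import Pool.Agent.H75.CP.BEp
import Pool.Agent.H75.CP.Tht
import Pool.Agent.H75.CP.AlgC
import Pool.Agent.H5.CP.ExCo
import Pool.Agent.H5.CP.FinC
import Pool.Agent.H5.CP.FinD
import Pool.Agent.H5.CP.Prim

/-!
ROW ThA (250 lines).  THEOREM A.  `K_f = j(ker f)` (central, hence normal); `δ_f = del E f` (Tht.lean).
`ThA_tor` (120 lines): `g, h` with `g` primitive (`g a₀ = 1`), `h ≠ 0`, `x ∈ Ext^{m}(ℤ,ℤ)`, `m ≥ J` where `s, J` are as in `NGy_main` for `g`: if `δ_h x` is torsion then `x` is torsion.  `Prim_main` in the free module `A →ₗ[ℤ] ℤ`: `h = c h'`, `h'(a₁) = 1` for some `a₁` (a `φ` with `φ h' = 1` is evaluation at some `a₁`, or `h'` is onto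
 because otherwise `h' = c' h''` with `|c'| ≠ 1`); `δ_h = c δ_{h'}` (`cz (c • h') = c • cz h'`, `OmN_zsmul`).  So `k' δ_{h'} x = 0`, `k' > 0`.  `x_i = δ_g^i x ∈ Ext^{m+2i}`; `δ_{h'}` and `δ_g` commute (`Ext.comp_assoc`, `ExCo_main`), so `k' δ_{h'} x_i = 0`.  `NGy_main` for `h'`: `s', J'`; for `m + 2i ≥ J'`: `OmI_inj` gives
 `s' k' x_i = 0`.  If `δ_g y` is torsion, `y` of degree `≥ J`, then `y` is torsion (`OmI_inj` for `g`): descend from `x_i` to `x`.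
`ThA_main`: suppose not `RatTrFin G`.  Basis of `A` (rank ≥ 2): `g`, `f` two different coordinates, `g a₀ = 1`; for integers `(a,b) ≠ (0,0)`: `a f - b g ≠ 0` and `a δ_f - b δ_g = δ_{af-bg}` (`OmN_add`, `OmN_zsmul`).  `hB` for `g`: `BE (Γ/K_g)`: `s_g > 0`, `n_g`.  `NGy_main` for `g`: `s, J`.  `FinC_main` (contrapositive) with
 `N = max J (2 (n_g+1) + 3)` gives `m₀ ≥ N` and a non-torsion `x₀ ∈ Ext^{m₀}(ℤ,ℤ)`.  `AlgC_main` with `L₀ = Ext^{m₀}`, `L₁ = Ext^{m₀+2}` (`FinD_main`), `δf = del E f m₀`, `δg = del E g m₀`, `hsur` = `OmI_surj` (`Kill s (NC ..) (m₀+1)`), `hinj` = `ThA_tor`, `N = s_g`: `p ∤ s_g`, `F`, `μ`, `v ≠ 0`.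
 `BEp_main`: `CD (ZMod p) (Γ/K_g) (n_g+1)`; `MPc_main`: `H^{m₀}(G; NC E (cF f g μ)) = 0`.  `Tht_ex`, `Tht_omg`: `(Θ v).comp (omg (cF f g μ)) = Θ' 0 = 0`, `OmI_inj` with `s = 1` (`KilA_one`): `Θ v = 0`, `Tht_inj`: `v = 0`, contradiction.
-/

namespace Pool.Agent.H75.CP

open CategoryTheory CategoryTheory.Abelian CategoryTheory.Limits Pool.Agent.H5.CP
open scoped TensorProduct

/-- the subgroup `j(ker f)` -/
def ThA_K {Γ G A : Type} [Group Γ] [Group G] [AddCommGroup A] (E : AX Γ G A) (f : A →+ ℤ) :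
    Subgroup Γ where
  carrier := {x | ∃ a, f a = 0 ∧ E.j (Multiplicative.ofAdd a) = x}
  mul_mem' := by
    rintro _ _ ⟨a, ha, rfl⟩ ⟨b, hb, rfl⟩
    refine ⟨a + b, by rw [map_add, ha, hb, add_zero], ?_⟩
    rw [ofAdd_add, map_mul]
  one_mem' := ⟨0, map_zero f, by rw [ofAdd_zero, map_one]⟩
  inv_mem' := by
    rintro _ ⟨a, ha, rfl⟩
    refine ⟨-a, by rw [map_neg, ha, neg_zero], ?_⟩
    rw [ofAdd_neg, map_inv]

theorem ThA_K_mem {Γ G A : Type} [Group Γ] [Group G] [AddCommGroup A] (E : AX Γ G A)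
    (f : A →+ ℤ) (x : Γ) :
    x ∈ ThA_K E f ↔ ∃ a, f a = 0 ∧ E.j (Multiplicative.ofAdd a) = x := Iff.rfl

instance ThA_K_normal {Γ G A : Type} [Group Γ] [Group G] [AddCommGroup A] (E : AX Γ G A)
    (f : A →+ ℤ) : (ThA_K E f).Normal := by
  refine ⟨?_⟩
  rintro _ ⟨a, ha, rfl⟩ y
  refine ⟨a, ha, ?_⟩
  rw [E.jc, mul_inv_cancel_right]

/-- every non-zero homomorphism to `ℤ` is a multiple of a surjective one -/
theorem ThA_prim {A : Type} [AddCommGroup A] (h : A →+ ℤ) (hh : h ≠ 0) :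
    ∃ (c : ℤ) (h' : A →+ ℤ) (a₁ : A), c ≠ 0 ∧ h = c • h' ∧ h' a₁ = 1 := by
  obtain ⟨c, hc⟩ := Int.subgroup_cyclic h.range
  have hdvd : ∀ a, c ∣ h a := by
    intro a
    have h1 : h a ∈ h.range := ⟨a, rfl⟩
    rw [hc, AddSubgroup.mem_closure_singleton] at h1
    obtain ⟨n, hn⟩ := h1
    refine ⟨n, ?_⟩
    rw [← hn, smul_eq_mul, mul_comm]
  have hcm : c ∈ h.range := by
    rw [hc]
    exact AddSubgroup.mem_closure_singleton_self c
  obtain ⟨a₁, ha₁⟩ := hcm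
  have hc0 : c ≠ 0 := by
    rintro rfl
    refine hh (AddMonoidHom.ext fun a => ?_)
    obtain ⟨n, hn⟩ := hdvd a
    rw [hn, zero_mul]
    rfl
  have hq : ∀ a, c * (h a / c) = h a := fun a => Int.mul_ediv_cancel' (hdvd a)
  refine ⟨c, AddMonoidHom.mk' (fun a => h a / c) (fun a b => ?_), a₁, hc0, ?_, ?_⟩
  · refine mul_left_cancel₀ hc0 ?_
    rw [mul_add, hq, hq, hq, map_add]
  · refine AddMonoidHom.ext fun a => ?_
    rw [AddMonoidHom.smul_apply, smul_eq_mul]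
    exact (hq a).symm
  · show h a₁ / c = 1
    rw [ha₁]
    exact Int.ediv_self hc0

/-- torsion from integer multiples -/
theorem ThA_int {X : Type} [AddCommGroup X] {n : ℤ} (hn : n ≠ 0) {x : X} (h : n • x = 0) :
    n.natAbs • x = 0 := by
  rcases Int.natAbs_eq n with h1 | h1
  · rw [h1, natCast_zsmul] at h
    exact h
  · rw [h1, neg_smul, natCast_zsmul, neg_eq_zero] at h
    exact h

section

variable {Γ G A : Type} [Group Γ] [Group G] [AddCommGroup A] (E : AX Γ G A)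

theorem ThA_del (f : A →+ ℤ) (j : ℕ) (x : Ext (tz G) (tz G) j) :
    del E f j x = x.comp (omg E (cz f)) (rfl : j + 2 = j + 2) := rfl

theorem ThA_cz_add (f g : A →+ ℤ) : cz (f + g) = cz f + cz g := by
  refine AddMonoidHom.ext fun a => ?_
  show (f a + g a) • (LinearMap.id : ℤ →ₗ[ℤ] ℤ) = f a • LinearMap.id + g a • LinearMap.id
  rw [add_smul]

theorem ThA_cz_smul (c : ℤ) (f : A →+ ℤ) : cz (c • f) = c • cz f := by
  refine AddMonoidHom.ext fun a => ?_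
  show (c * f a) • (LinearMap.id : ℤ →ₗ[ℤ] ℤ) = c • f a • LinearMap.id
  rw [mul_smul]

theorem ThA_del_smul (c : ℤ) (f : A →+ ℤ) (j : ℕ) (x : Ext (tz G) (tz G) j) :
    del E (c • f) j x = c • del E f j x := by
  rw [ThA_del, ThA_del, ThA_cz_smul, OmN_zsmul]
  exact map_zsmul (x.precomp (tz G) (rfl : j + 2 = j + 2)) c (omg E (cz f))

theorem ThA_del_add (f g : A →+ ℤ) (j : ℕ) (x : Ext (tz G) (tz G) j) :
    del E (f + g) j x = del E f j x + del E g j x := by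
  rw [ThA_del, ThA_del, ThA_del, ThA_cz_add, OmN_add]
  exact Ext.comp_add _ _ _ _

theorem ThA_comm (f g : A →+ ℤ) (j : ℕ) (x : Ext (tz G) (tz G) j) :
    del E f (j + 2) (del E g j x) = del E g (j + 2) (del E f j x) := by
  have h1 : ∀ u v : Ext (tz G) (tz G) 2,
      (x.comp u (rfl : j + 2 = j + 2)).comp v (rfl : j + 2 + 2 = j + 2 + 2) =
        x.comp (u.comp v (rfl : 2 + 2 = 4)) (by omega) := fun u v =>
    Ext.comp_assoc x u v rfl rfl (by omega)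
  rw [ThA_del, ThA_del, ThA_del, ThA_del]
  refine (h1 _ _).trans (Eq.trans ?_ (h1 _ _).symm)
  rw [ExCo_main]

end

theorem ThA_step {Γ G A : Type} [Group Γ] [Group G] [AddCommGroup A] (E : AX Γ G A)
    (g : A →+ ℤ) (s J : ℕ) (hs : 0 < s)
    (hg : ∀ j, J ≤ j → Kill s (NC (k := ℤ) E (cz g)) j) (h : A →+ ℤ) (s' J' : ℕ) (hs' : 0 < s')
    (hh : ∀ j, J' ≤ j → Kill s' (NC (k := ℤ) E (cz h)) j) (k : ℕ) (hk : 0 < k) (n : ℕ) :
    ∀ (j : ℕ), J ≤ j → J' ≤ j + 2 * n → ∀ (x : Ext (tz G) (tz G) j),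
      k • del E h j x = 0 → ∃ k' : ℕ, 0 < k' ∧ k' • x = 0 := by
  induction n with
  | zero =>
    intro j hj hj' x hx
    have h1 : (k • x).comp (omg E (cz h)) (rfl : j + 2 = j + 2) = 0 := by
      have h2 : del E h j (k • x) = 0 := by
        rw [map_nsmul, hx]
      exact h2
    have h3 := OmI_inj E (cz h) s' j (hh j (by omega)) (k • x) h1
    exact ⟨s' * k, Nat.mul_pos hs' hk, by rw [mul_smul]; exact h3⟩
  | succ n ih =>
    intro j hj hj' x hx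
    have h1 : k • del E h (j + 2) (del E g j x) = 0 := by
      rw [ThA_comm, ← map_nsmul, hx, map_zero]
    obtain ⟨l, hl, hlx⟩ := ih (j + 2) (by omega) (by omega) (del E g j x) h1
    have h2 : (l • x).comp (omg E (cz g)) (rfl : j + 2 = j + 2) = 0 := by
      have h3 : del E g j (l • x) = 0 := by
        rw [map_nsmul, hlx]
      exact h3
    have h3 := OmI_inj E (cz g) s j (hg j hj) (l • x) h2
    exact ⟨s * l, Nat.mul_pos hs hl, by rw [mul_smul]; exact h3⟩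

theorem ThA_tor {Γ G A : Type} [Group Γ] [Group G] [AddCommGroup A] [Module.Free ℤ A]
    [Module.Finite ℤ A] (E : AX Γ G A)
    (hB : ∀ (f : A →+ ℤ) (a₁ : A), f a₁ = 1 → ∀ (K : Subgroup Γ) [K.Normal],
      (∀ x, x ∈ K ↔ ∃ a, f a = 0 ∧ E.j (Multiplicative.ofAdd a) = x) → BE (Γ ⧸ K))
    (g : A →+ ℤ) (s J : ℕ) (hs : 0 < s)
    (hg : ∀ j, J ≤ j → Kill s (NC (k := ℤ) E (cz g)) j) (h : A →+ ℤ) (hh : h ≠ 0) (m : ℕ)
    (hm : J ≤ m) (x : Ext (tz G) (tz G) m) (k : ℕ) (hk : 0 < k) (hx : k • del E h m x = 0) :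
    ∃ k' : ℕ, 0 < k' ∧ k' • x = 0 := by
  obtain ⟨c, h', a₁, hc, rfl, ha₁⟩ := ThA_prim h hh
  obtain ⟨s', J', hs', hh'⟩ := NGy_main E h' a₁ ha₁ (ThA_K E h') (ThA_K_mem E h')
    (hB h' a₁ ha₁ (ThA_K E h') (ThA_K_mem E h'))
  have h1 : ((k : ℤ) * c) • del E h' m x = 0 := by
    rw [ThA_del_smul] at hx
    rw [mul_smul, natCast_zsmul]
    exact hx
  have hne : (k : ℤ) * c ≠ 0 := mul_ne_zero (by exact_mod_cast hk.ne') hc
  exact ThA_step E g s J hs hg h' s' J' hs' hh' ((k : ℤ) * c).natAbs (Int.natAbs_pos.2 hne) J' m hm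
    (by omega) x (ThA_int hne h1)

theorem ThA_main {Γ G A : Type} [Group Γ] [Group G] [AddCommGroup A] [Module.Free ℤ A]
    [Module.Finite ℤ A] (E : AX Γ G A) (hr : 2 ≤ Module.finrank ℤ A) (hF : FPinf G)
    (hB : ∀ (f : A →+ ℤ) (a₁ : A), f a₁ = 1 → ∀ (K : Subgroup Γ) [K.Normal],
      (∀ x, x ∈ K ↔ ∃ a, f a = 0 ∧ E.j (Multiplicative.ofAdd a) = x) → BE (Γ ⧸ K)) :
    RatTrFin G := by
  by_contra hR
  -- the coordinates
  set n := Module.finrank ℤ A with hn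
  let b : Module.Basis (Fin n) ℤ A := Module.finBasis ℤ A
  let i₀ : Fin n := ⟨0, by omega⟩
  let i₁ : Fin n := ⟨1, by omega⟩
  have hi : i₀ ≠ i₁ := by
    intro h
    have := congrArg Fin.val h
    simp [i₀, i₁] at this
  let g : A →+ ℤ := (b.coord i₀).toAddMonoidHom
  let f : A →+ ℤ := (b.coord i₁).toAddMonoidHom
  have hg0 : g (b i₀) = 1 := by
    show b.coord i₀ (b i₀) = 1
    rw [Module.Basis.coord_apply, Module.Basis.repr_self, Finsupp.single_eq_same]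
  have hf0 : f (b i₀) = 0 := by
    show b.coord i₁ (b i₀) = 0
    rw [Module.Basis.coord_apply, Module.Basis.repr_self, Finsupp.single_eq_of_ne (by exact hi.symm)]
  have hg1 : g (b i₁) = 0 := by
    show b.coord i₀ (b i₁) = 0
    rw [Module.Basis.coord_apply, Module.Basis.repr_self, Finsupp.single_eq_of_ne (by exact hi)]
  have hf1 : f (b i₁) = 1 := by
    show b.coord i₁ (b i₁) = 1
    rw [Module.Basis.coord_apply, Module.Basis.repr_self, Finsupp.single_eq_same]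
  have hne : ∀ x y : ℤ, (x ≠ 0 ∨ y ≠ 0) → x • f + (-y) • g ≠ 0 := by
    intro x y hxy h0
    have e0 : (x • f + (-y) • g) (b i₀) = 0 := by
      rw [h0]
      rfl
    have e1 : (x • f + (-y) • g) (b i₁) = 0 := by
      rw [h0]
      rfl
    rw [AddMonoidHom.add_apply, AddMonoidHom.smul_apply, AddMonoidHom.smul_apply, hf0, hg0] at e0
    rw [AddMonoidHom.add_apply, AddMonoidHom.smul_apply, AddMonoidHom.smul_apply, hf1, hg1] at e1
    simp at e0 e1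
    rcases hxy with h | h
    · exact h e1
    · exact h e0
  -- the constants
  have hBE := hB g (b i₀) hg0 (ThA_K E g) (ThA_K_mem E g)
  obtain ⟨s, J, hs, hK⟩ := NGy_main E g (b i₀) hg0 (ThA_K E g) (ThA_K_mem E g) hBE
  obtain ⟨sg, ng, hsg, hkill⟩ := hBE
  have hx : ∃ m₀, max J (2 * (ng + 1) + 3) ≤ m₀ ∧ ∃ x₀ : Ext (tz G) (tz G) m₀,
      ∀ k : ℕ, 0 < k → k • x₀ ≠ 0 := by
    by_contra hcon
    push Not at hcon
    exact hR (FinC_main hF (max J (2 * (ng + 1) + 3)) (fun m hm x => hcon m hm x))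
  obtain ⟨m₀, hm₀, x₀, hx₀⟩ := hx
  have hJ : J ≤ m₀ := (le_max_left _ _).trans hm₀
  have hN : 2 * (ng + 1) + 3 ≤ m₀ := (le_max_right _ _).trans hm₀
  obtain ⟨p, hp, F, hFf, hFc, hFfin, μ, v, hps, hμ, hv, heq⟩ := AlgC_main
    (FinD_main m₀ (tz G) (hF m₀)) (FinD_main (m₀ + 2) (tz G) (hF (m₀ + 2)))
    (del E f m₀) (del E g m₀) s hs
    (fun y => by
      obtain ⟨x, hx⟩ := OmI_surj E (cz g) s m₀ (hK (m₀ + 1) (by omega)) y
      exact ⟨x, hx.symm⟩)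
    (fun x y hxy z hz => by
      obtain ⟨k, hk, hkz⟩ := hz
      refine ThA_tor E hB g s J hs hK (x • f + (-y) • g) (hne x y hxy) m₀ hJ z k hk ?_
      rw [ThA_del_add, ThA_del_smul, ThA_del_smul, neg_smul, ← sub_eq_add_neg]
      exact hkz)
    x₀ hx₀ sg hsg
  have hcd : CD (ZMod p) (Γ ⧸ ThA_K E g) (ng + 1) :=
    BEp_main sg ng (fun B j hj x => by
      have h1 := hkill B j hj x
      rw [natCast_zsmul] at h1
      exact h1) p hps
  have hz := MPc_main E g (b i₀) hg0 (ThA_K E g) (ThA_K_mem E g) p (ng + 1) hcd F μ hμ f m₀ hN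
  have hk1 : Kill 1 (NC (k := ℤ) E (cF f g μ)) m₀ := (KilA_one _ _).2 hz
  obtain ⟨Θ, hΘ⟩ := Tht_ex G F m₀
  obtain ⟨Θ', hΘ'⟩ := Tht_ex G F (m₀ + 2)
  have h2 := Tht_omg E f g μ m₀ Θ hΘ Θ' hΘ' v
  rw [heq, sub_self, map_zero] at h2
  have h3 := OmI_inj E (cF f g μ) 1 m₀ hk1 (Θ v) h2
  rw [one_smul] at h3
  exact hv (Tht_inj p m₀ Θ hΘ v h3)

end Pool.Agent.H75.CP
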