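import Pool.Agent.H75.CP.DefsY

/-!
ROW WIso (120 lines).  `W(k[X];B) = Fun(X^p, B)` for the free `N`-set `X = α × N` (`N = D.π.ker`); see H5/CP/WFree.lean: basis
`b = Finsupp.basis (fun _ => MonoidAlgebra.basis D.π.ker k)` of `Rep.free k N α` indexed by `X = Σ _ : α, N`, permuted by `N` (`hb` in `WFree_main`),
`WFree_mk` (a linear bijection functions ↔ multilinear maps), `WFree_mk_apply`, `WFree_tact`, `Wρ_apply`.
The iso: `F ↦ (y ↦ F(i ↦ b (y i)))`; equivariant: `(gF)(b_y) = g F(g⁻¹ b_y) = g F(b_{g⁻¹y})` (`Wρ_apply`, `WFree_tact`).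
`WIso_pow`: if `g y = y` then `g^p y = y`, `deg (g^p) = p deg g = 0`, so in component `0`: `c(0,g^p) n = n`, `c(0,g^p) = σ(0) g^p σ(0)⁻¹ = 1`, hence `g^p = 1` (same computation as `WFree_act_free`).
`WIso_ker`: `deg g = 0` and `g y = y` give `c(0,g) = σ(0) g σ(0)⁻¹ = 1`.
-/

namespace Pool.Agent.H75.CP

open CategoryTheory CategoryTheory.Abelian CategoryTheory.Limits Pool.Agent.H5.CP

theorem WIso_aux {G : Type} [Group G] {p : ℕ} [Fact p.Prime] (D : PData G p) (α : Type) (g : G)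
    (y : ZMod p → (Σ _ : α, D.π.ker)) (h3 : D.deg g = 0)
    (h2 : WFree_act D (X := Σ _ : α, D.π.ker) (fun n x => ⟨x.1, n * x.2⟩) g y 0 = y 0) : g = 1 := by
  rw [WFree_act, h3, add_zero] at h2
  have h5 : D.c 0 g * (y 0).2 = (y 0).2 := eq_of_heq (Sigma.mk.inj_iff.1 h2).2
  have h6 : D.c 0 g = 1 := mul_eq_right.1 h5
  have h4 : D.σ 0 * g * (D.σ (0 + D.deg g))⁻¹ = 1 := congrArg Subtype.val h6
  rw [h3, add_zero, mul_inv_eq_one, mul_eq_left] at h4
  exact h4

theorem WIso_symm {k G : Type} [CommRing k] [Group G] {p : ℕ} [Fact p.Prime] (D : PData G p)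
    {X : Type} (M : Rep.{0} k D.π.ker) (B : Rep.{0} k G) (b : Module.Basis X k M.V)
    (F : MultilinearMap k (fun _ : ZMod p => M.V) B.V) (y : ZMod p → X) :
    (WFree_mk D M B b).symm F y = F (fun i => b (y i)) := by
  rw [← WFree_mk_apply D M B b ((WFree_mk D M B b).symm F) y, LinearEquiv.apply_symm_apply]

theorem WIso_main {k G : Type} [CommRing k] [Group G] {p : ℕ} [Fact p.Prime] (D : PData G p)
    (α : Type) (B : Rep.{0} k G) :
    Nonempty (W D (Rep.free k D.π.ker α) B ≅ FunR (TY D α) B) := by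
  refine ⟨Rep.mkIso (Representation.Equiv.mk
    (WFree_mk D (Rep.free k D.π.ker α) B
      (Finsupp.basis fun _ : α => MonoidAlgebra.basis D.π.ker k)).symm ?_)⟩
  intro g
  refine LinearMap.ext fun F => ?_
  refine funext fun y => ?_
  change (WFree_mk D (Rep.free k D.π.ker α) B
      (Finsupp.basis fun _ : α => MonoidAlgebra.basis D.π.ker k)).symm
      (Wρ D (Rep.free k D.π.ker α) B g F) y =
    B.ρ g ((WFree_mk D (Rep.free k D.π.ker α) B
      (Finsupp.basis fun _ : α => MonoidAlgebra.basis D.π.ker k)).symm F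
        (WFree_act D (X := Σ _ : α, D.π.ker) (fun n x => ⟨x.1, n * x.2⟩) g⁻¹ y))
  rw [WIso_symm, WIso_symm, Wρ_apply]
  have hb : ∀ (n : D.π.ker) (x : Σ _ : α, D.π.ker), (Rep.free k D.π.ker α).ρ n
      ((Finsupp.basis fun _ : α => MonoidAlgebra.basis D.π.ker k) x) =
      (Finsupp.basis fun _ : α => MonoidAlgebra.basis D.π.ker k) ⟨x.1, n * x.2⟩ := by
    rintro n ⟨a, x⟩
    simp
  rw [WFree_tact D (fun (n : D.π.ker) (x : Σ _ : α, D.π.ker) => ⟨x.1, n * x.2⟩)
    (Rep.free k D.π.ker α) (Finsupp.basis fun _ : α => MonoidAlgebra.basis D.π.ker k) hb]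

theorem WIso_pow {G : Type} [Group G] {p : ℕ} [Fact p.Prime] (D : PData G p) (α : Type) (g : G)
    (y : TY D α) (h : g • y = y) : g ^ p = 1 := by
  have h1 : WFree_act D (X := Σ _ : α, D.π.ker) (fun n x => ⟨x.1, n * x.2⟩) g y = y := h
  have h2 := congrFun (WFree_act_pow D (X := Σ _ : α, D.π.ker) (fun n x => ⟨x.1, n * x.2⟩)
    (fun x => by simp) (fun n m x => by simp [mul_assoc]) g y h1 p) 0
  have h3 : D.deg (g ^ p) = 0 := by
    rw [WFree_deg_pow, ZMod.natCast_self, zero_mul]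
  exact WIso_aux D α (g ^ p) y h3 h2

theorem WIso_ker {G : Type} [Group G] {p : ℕ} [Fact p.Prime] (D : PData G p) (α : Type) (g : G)
    (y : TY D α) (h : g • y = y) (hg : D.π g = 1) : g = 1 := by
  have h1 : WFree_act D (X := Σ _ : α, D.π.ker) (fun n x => ⟨x.1, n * x.2⟩) g y = y := h
  have h3 : D.deg g = 0 := by
    rw [PData.deg, hg]
    rfl
  exact WIso_aux D α g y h3 (congrFun h1 0)

end Pool.Agent.H75.CP
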