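import Pool.Agent.H75.CP.WIso
import Pool.Agent.H75.CP.FunA
import Pool.Agent.H75.CP.KilB

/-!
ROW WPac (80 lines).  If `B` is acyclic on all subgroups of order `p` then `W(k[X];B)` is acyclic.  `WIso_main`, `FunA_main` with `m = 1`, `KilA_one`: we need that the stabilizer `S` of every `y`
has `H^{j+1}(S;B) = 0`.  If `S = ⊥`: `isZero_groupCohomology_succ_of_subsingleton`.  Otherwise take `x ∈ S`, `x ≠ 1`: `x^p = 1` (`WIso_pow`), `D.π x ≠ 1` (`WIso_ker`).  `S = zpowers x`: for `g ∈ S`,
`D.π g = D.π x ^ i` for some `i : ℕ` (`Multiplicative (ZMod p)` has prime order), so `g x^{-i} ∈ S` is in the kernel, `g = x^i` (`WIso_ker`).  So the stabilizer is `Subgroup.zpowers x` and `hB x` applies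
(rewrite the equality of subgroups, or `KilB_main` with `MulEquiv.subgroupCongr`).
-/

namespace Pool.Agent.H75.CP

open CategoryTheory CategoryTheory.Abelian CategoryTheory.Limits Pool.Agent.H5.CP

private theorem WPac_sub {k G : Type} [CommRing k] [Group G] (B : Rep.{0} k G) (n : ℕ)
    (S S' : Subgroup G) (h : S = S')
    (h' : IsZero (groupCohomology (Rep.res S'.subtype B) n)) :
    IsZero (groupCohomology (Rep.res S.subtype B) n) := by
  subst h
  exact h'

theorem WPac_main {k G : Type} [CommRing k] [Group G] {p : ℕ} [Fact p.Prime] (D : PData G p)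
    (α : Type) (B : Rep.{0} k G) (hB : PAc p B) (j : ℕ) :
    IsZero (groupCohomology (W D (Rep.free k D.π.ker α) B) (j + 1)) := by
  obtain ⟨i⟩ := WIso_main D α B
  have h : IsZero (groupCohomology (FunR (TY D α) B) (j + 1)) := by
    rw [← KilA_one]
    apply FunA_main
    intro y
    rw [KilA_one]
    by_cases hS : ∀ x ∈ MulAction.stabilizer G y, x = 1
    · have hsub : Subsingleton (MulAction.stabilizer G y) :=
        ⟨fun a b => Subtype.ext ((hS a.1 a.2).trans (hS b.1 b.2).symm)⟩
      exact isZero_groupCohomology_succ_of_subsingleton _ _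
    · push Not at hS
      obtain ⟨x, hx, hx1⟩ := hS
      have hxy : x • y = y := MulAction.mem_stabilizer_iff.1 hx
      have hxp : x ^ p = 1 := WIso_pow D α x y hxy
      have hπ : D.π x ≠ 1 := fun h0 => hx1 (WIso_ker D α x y hxy h0)
      have hcard : Nat.card (Multiplicative (ZMod p)) = p := by
        rw [Nat.card_congr Multiplicative.toAdd, Nat.card_zmod]
      refine WPac_sub B (j + 1) _ (Subgroup.zpowers x) ?_ (hB x hxp hx1 j)
      apply le_antisymm
      · intro g hg
        obtain ⟨n, hn⟩ := Subgroup.mem_zpowers_iff.1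
          (mem_zpowers_of_prime_card hcard hπ (g' := D.π g))
        have hxn : x ^ n ∈ MulAction.stabilizer G y := Subgroup.zpow_mem _ hx n
        have h1 : g * (x ^ n)⁻¹ ∈ MulAction.stabilizer G y :=
          Subgroup.mul_mem _ hg (Subgroup.inv_mem _ hxn)
        have h2 : D.π (g * (x ^ n)⁻¹) = 1 := by
          rw [map_mul, map_inv, map_zpow, hn, mul_inv_cancel]
        have h3 := WIso_ker D α _ y (MulAction.mem_stabilizer_iff.1 h1) h2
        rw [mul_inv_eq_one] at h3
        rw [h3]
        exact Subgroup.zpow_mem_zpowers _ _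
      · rw [Subgroup.zpowers_le]
        exact hx
  exact IsZero.of_iso h ((groupCohomology.functor k G (j + 1)).mapIso i)

end Pool.Agent.H75.CP
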